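import Pool.Agent.H.MP_ad013a_pr.h63r.Q1.T
import Pool.Agent.H.MP_ad013a_pr.h63w.VLoop

namespace Pool.Agent.ad013a.R1

theorem c1024 : lp7 (fun s => chk (ent L1024 s)) 0 = true := by decide +kernel
theorem p1024 : PrL chk L1024 := leafL c1024

theorem c1025 : lp7 (fun s => chk (ent L1025 s)) 0 = true := by decide +kernel
theorem p1025 : PrL chk L1025 := leafL c1025

theorem c1026 : lp7 (fun s => chk (ent L1026 s)) 0 = true := by decide +kernel
theorem p1026 : PrL chk L1026 := leafL c1026

theorem c1027 : lp7 (fun s => chk (ent L1027 s)) 0 = true := by decide +kernel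
theorem p1027 : PrL chk L1027 := leafL c1027

theorem c1028 : lp7 (fun s => chk (ent L1028 s)) 0 = true := by decide +kernel
theorem p1028 : PrL chk L1028 := leafL c1028

theorem c1029 : lp7 (fun s => chk (ent L1029 s)) 0 = true := by decide +kernel
theorem p1029 : PrL chk L1029 := leafL c1029

theorem c1030 : lp7 (fun s => chk (ent L1030 s)) 0 = true := by decide +kernel
theorem p1030 : PrL chk L1030 := leafL c1030

theorem c1031 : lp7 (fun s => chk (ent L1031 s)) 0 = true := by decide +kernel
theorem p1031 : PrL chk L1031 := leafL c1031

theorem c1032 : lp7 (fun s => chk (ent L1032 s)) 0 = true := by decide +kernel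
theorem p1032 : PrL chk L1032 := leafL c1032

theorem c1033 : lp7 (fun s => chk (ent L1033 s)) 0 = true := by decide +kernel
theorem p1033 : PrL chk L1033 := leafL c1033

theorem c1034 : lp7 (fun s => chk (ent L1034 s)) 0 = true := by decide +kernel
theorem p1034 : PrL chk L1034 := leafL c1034

theorem c1035 : lp7 (fun s => chk (ent L1035 s)) 0 = true := by decide +kernel
theorem p1035 : PrL chk L1035 := leafL c1035

theorem c1036 : lp7 (fun s => chk (ent L1036 s)) 0 = true := by decide +kernel
theorem p1036 : PrL chk L1036 := leafL c1036

theorem c1037 : lp7 (fun s => chk (ent L1037 s)) 0 = true := by decide +kernel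
theorem p1037 : PrL chk L1037 := leafL c1037

theorem c1038 : lp7 (fun s => chk (ent L1038 s)) 0 = true := by decide +kernel
theorem p1038 : PrL chk L1038 := leafL c1038

theorem c1039 : lp7 (fun s => chk (ent L1039 s)) 0 = true := by decide +kernel
theorem p1039 : PrL chk L1039 := leafL c1039

theorem c1040 : lp7 (fun s => chk (ent L1040 s)) 0 = true := by decide +kernel
theorem p1040 : PrL chk L1040 := leafL c1040

theorem c1041 : lp7 (fun s => chk (ent L1041 s)) 0 = true := by decide +kernel
theorem p1041 : PrL chk L1041 := leafL c1041

theorem c1042 : lp7 (fun s => chk (ent L1042 s)) 0 = true := by decide +kernel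
theorem p1042 : PrL chk L1042 := leafL c1042

theorem c1043 : lp7 (fun s => chk (ent L1043 s)) 0 = true := by decide +kernel
theorem p1043 : PrL chk L1043 := leafL c1043

theorem c1044 : lp7 (fun s => chk (ent L1044 s)) 0 = true := by decide +kernel
theorem p1044 : PrL chk L1044 := leafL c1044

theorem c1045 : lp7 (fun s => chk (ent L1045 s)) 0 = true := by decide +kernel
theorem p1045 : PrL chk L1045 := leafL c1045

theorem c1046 : lp7 (fun s => chk (ent L1046 s)) 0 = true := by decide +kernel
theorem p1046 : PrL chk L1046 := leafL c1046

theorem c1047 : lp7 (fun s => chk (ent L1047 s)) 0 = true := by decide +kernel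
theorem p1047 : PrL chk L1047 := leafL c1047

theorem c1048 : lp7 (fun s => chk (ent L1048 s)) 0 = true := by decide +kernel
theorem p1048 : PrL chk L1048 := leafL c1048

theorem c1049 : lp7 (fun s => chk (ent L1049 s)) 0 = true := by decide +kernel
theorem p1049 : PrL chk L1049 := leafL c1049

theorem c1050 : lp7 (fun s => chk (ent L1050 s)) 0 = true := by decide +kernel
theorem p1050 : PrL chk L1050 := leafL c1050

theorem c1051 : lp7 (fun s => chk (ent L1051 s)) 0 = true := by decide +kernel
theorem p1051 : PrL chk L1051 := leafL c1051

theorem c1052 : lp7 (fun s => chk (ent L1052 s)) 0 = true := by decide +kernel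
theorem p1052 : PrL chk L1052 := leafL c1052

theorem c1053 : lp7 (fun s => chk (ent L1053 s)) 0 = true := by decide +kernel
theorem p1053 : PrL chk L1053 := leafL c1053

theorem c1054 : lp7 (fun s => chk (ent L1054 s)) 0 = true := by decide +kernel
theorem p1054 : PrL chk L1054 := leafL c1054

theorem c1055 : lp7 (fun s => chk (ent L1055 s)) 0 = true := by decide +kernel
theorem p1055 : PrL chk L1055 := leafL c1055

theorem c1056 : lp7 (fun s => chk (ent L1056 s)) 0 = true := by decide +kernel
theorem p1056 : PrL chk L1056 := leafL c1056

theorem c1057 : lp7 (fun s => chk (ent L1057 s)) 0 = true := by decide +kernel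
theorem p1057 : PrL chk L1057 := leafL c1057

theorem c1058 : lp7 (fun s => chk (ent L1058 s)) 0 = true := by decide +kernel
theorem p1058 : PrL chk L1058 := leafL c1058

theorem c1059 : lp7 (fun s => chk (ent L1059 s)) 0 = true := by decide +kernel
theorem p1059 : PrL chk L1059 := leafL c1059

theorem c1060 : lp7 (fun s => chk (ent L1060 s)) 0 = true := by decide +kernel
theorem p1060 : PrL chk L1060 := leafL c1060

theorem c1061 : lp7 (fun s => chk (ent L1061 s)) 0 = true := by decide +kernel
theorem p1061 : PrL chk L1061 := leafL c1061

theorem c1062 : lp7 (fun s => chk (ent L1062 s)) 0 = true := by decide +kernel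
theorem p1062 : PrL chk L1062 := leafL c1062

theorem c1063 : lp7 (fun s => chk (ent L1063 s)) 0 = true := by decide +kernel
theorem p1063 : PrL chk L1063 := leafL c1063

theorem c1064 : lp7 (fun s => chk (ent L1064 s)) 0 = true := by decide +kernel
theorem p1064 : PrL chk L1064 := leafL c1064

theorem c1065 : lp7 (fun s => chk (ent L1065 s)) 0 = true := by decide +kernel
theorem p1065 : PrL chk L1065 := leafL c1065

theorem c1066 : lp7 (fun s => chk (ent L1066 s)) 0 = true := by decide +kernel
theorem p1066 : PrL chk L1066 := leafL c1066

theorem c1067 : lp7 (fun s => chk (ent L1067 s)) 0 = true := by decide +kernel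
theorem p1067 : PrL chk L1067 := leafL c1067

theorem c1068 : lp7 (fun s => chk (ent L1068 s)) 0 = true := by decide +kernel
theorem p1068 : PrL chk L1068 := leafL c1068

theorem c1069 : lp7 (fun s => chk (ent L1069 s)) 0 = true := by decide +kernel
theorem p1069 : PrL chk L1069 := leafL c1069

theorem c1070 : lp7 (fun s => chk (ent L1070 s)) 0 = true := by decide +kernel
theorem p1070 : PrL chk L1070 := leafL c1070

theorem c1071 : lp7 (fun s => chk (ent L1071 s)) 0 = true := by decide +kernel
theorem p1071 : PrL chk L1071 := leafL c1071

theorem c1072 : lp7 (fun s => chk (ent L1072 s)) 0 = true := by decide +kernel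
theorem p1072 : PrL chk L1072 := leafL c1072

theorem c1073 : lp7 (fun s => chk (ent L1073 s)) 0 = true := by decide +kernel
theorem p1073 : PrL chk L1073 := leafL c1073

theorem c1074 : lp7 (fun s => chk (ent L1074 s)) 0 = true := by decide +kernel
theorem p1074 : PrL chk L1074 := leafL c1074

theorem c1075 : lp7 (fun s => chk (ent L1075 s)) 0 = true := by decide +kernel
theorem p1075 : PrL chk L1075 := leafL c1075

theorem c1076 : lp7 (fun s => chk (ent L1076 s)) 0 = true := by decide +kernel
theorem p1076 : PrL chk L1076 := leafL c1076

theorem c1077 : lp7 (fun s => chk (ent L1077 s)) 0 = true := by decide +kernel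
theorem p1077 : PrL chk L1077 := leafL c1077

theorem c1078 : lp7 (fun s => chk (ent L1078 s)) 0 = true := by decide +kernel
theorem p1078 : PrL chk L1078 := leafL c1078

theorem c1079 : lp7 (fun s => chk (ent L1079 s)) 0 = true := by decide +kernel
theorem p1079 : PrL chk L1079 := leafL c1079

theorem c1080 : lp7 (fun s => chk (ent L1080 s)) 0 = true := by decide +kernel
theorem p1080 : PrL chk L1080 := leafL c1080

theorem c1081 : lp7 (fun s => chk (ent L1081 s)) 0 = true := by decide +kernel
theorem p1081 : PrL chk L1081 := leafL c1081

theorem c1082 : lp7 (fun s => chk (ent L1082 s)) 0 = true := by decide +kernel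
theorem p1082 : PrL chk L1082 := leafL c1082

theorem c1083 : lp7 (fun s => chk (ent L1083 s)) 0 = true := by decide +kernel
theorem p1083 : PrL chk L1083 := leafL c1083

theorem c1084 : lp7 (fun s => chk (ent L1084 s)) 0 = true := by decide +kernel
theorem p1084 : PrL chk L1084 := leafL c1084

theorem c1085 : lp7 (fun s => chk (ent L1085 s)) 0 = true := by decide +kernel
theorem p1085 : PrL chk L1085 := leafL c1085

theorem c1086 : lp7 (fun s => chk (ent L1086 s)) 0 = true := by decide +kernel
theorem p1086 : PrL chk L1086 := leafL c1086

theorem c1087 : lp7 (fun s => chk (ent L1087 s)) 0 = true := by decide +kernel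
theorem p1087 : PrL chk L1087 := leafL c1087

theorem c1088 : lp7 (fun s => chk (ent L1088 s)) 0 = true := by decide +kernel
theorem p1088 : PrL chk L1088 := leafL c1088

theorem c1089 : lp7 (fun s => chk (ent L1089 s)) 0 = true := by decide +kernel
theorem p1089 : PrL chk L1089 := leafL c1089

theorem c1090 : lp7 (fun s => chk (ent L1090 s)) 0 = true := by decide +kernel
theorem p1090 : PrL chk L1090 := leafL c1090

theorem c1091 : lp7 (fun s => chk (ent L1091 s)) 0 = true := by decide +kernel
theorem p1091 : PrL chk L1091 := leafL c1091

theorem c1092 : lp7 (fun s => chk (ent L1092 s)) 0 = true := by decide +kernel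
theorem p1092 : PrL chk L1092 := leafL c1092

theorem c1093 : lp7 (fun s => chk (ent L1093 s)) 0 = true := by decide +kernel
theorem p1093 : PrL chk L1093 := leafL c1093

theorem c1094 : lp7 (fun s => chk (ent L1094 s)) 0 = true := by decide +kernel
theorem p1094 : PrL chk L1094 := leafL c1094

theorem c1095 : lp7 (fun s => chk (ent L1095 s)) 0 = true := by decide +kernel
theorem p1095 : PrL chk L1095 := leafL c1095

theorem c1096 : lp7 (fun s => chk (ent L1096 s)) 0 = true := by decide +kernel
theorem p1096 : PrL chk L1096 := leafL c1096

theorem c1097 : lp7 (fun s => chk (ent L1097 s)) 0 = true := by decide +kernel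
theorem p1097 : PrL chk L1097 := leafL c1097

theorem c1098 : lp7 (fun s => chk (ent L1098 s)) 0 = true := by decide +kernel
theorem p1098 : PrL chk L1098 := leafL c1098

theorem c1099 : lp7 (fun s => chk (ent L1099 s)) 0 = true := by decide +kernel
theorem p1099 : PrL chk L1099 := leafL c1099

theorem c1100 : lp7 (fun s => chk (ent L1100 s)) 0 = true := by decide +kernel
theorem p1100 : PrL chk L1100 := leafL c1100

theorem c1101 : lp7 (fun s => chk (ent L1101 s)) 0 = true := by decide +kernel
theorem p1101 : PrL chk L1101 := leafL c1101

theorem c1102 : lp7 (fun s => chk (ent L1102 s)) 0 = true := by decide +kernel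
theorem p1102 : PrL chk L1102 := leafL c1102

theorem c1103 : lp7 (fun s => chk (ent L1103 s)) 0 = true := by decide +kernel
theorem p1103 : PrL chk L1103 := leafL c1103

theorem c1104 : lp7 (fun s => chk (ent L1104 s)) 0 = true := by decide +kernel
theorem p1104 : PrL chk L1104 := leafL c1104

theorem c1105 : lp7 (fun s => chk (ent L1105 s)) 0 = true := by decide +kernel
theorem p1105 : PrL chk L1105 := leafL c1105

theorem c1106 : lp7 (fun s => chk (ent L1106 s)) 0 = true := by decide +kernel
theorem p1106 : PrL chk L1106 := leafL c1106

theorem c1107 : lp7 (fun s => chk (ent L1107 s)) 0 = true := by decide +kernel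
theorem p1107 : PrL chk L1107 := leafL c1107

theorem c1108 : lp7 (fun s => chk (ent L1108 s)) 0 = true := by decide +kernel
theorem p1108 : PrL chk L1108 := leafL c1108

theorem c1109 : lp7 (fun s => chk (ent L1109 s)) 0 = true := by decide +kernel
theorem p1109 : PrL chk L1109 := leafL c1109

theorem c1110 : lp7 (fun s => chk (ent L1110 s)) 0 = true := by decide +kernel
theorem p1110 : PrL chk L1110 := leafL c1110

theorem c1111 : lp7 (fun s => chk (ent L1111 s)) 0 = true := by decide +kernel
theorem p1111 : PrL chk L1111 := leafL c1111

theorem c1112 : lp7 (fun s => chk (ent L1112 s)) 0 = true := by decide +kernel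
theorem p1112 : PrL chk L1112 := leafL c1112

theorem c1113 : lp7 (fun s => chk (ent L1113 s)) 0 = true := by decide +kernel
theorem p1113 : PrL chk L1113 := leafL c1113

theorem c1114 : lp7 (fun s => chk (ent L1114 s)) 0 = true := by decide +kernel
theorem p1114 : PrL chk L1114 := leafL c1114

theorem c1115 : lp7 (fun s => chk (ent L1115 s)) 0 = true := by decide +kernel
theorem p1115 : PrL chk L1115 := leafL c1115

theorem c1116 : lp7 (fun s => chk (ent L1116 s)) 0 = true := by decide +kernel
theorem p1116 : PrL chk L1116 := leafL c1116

theorem c1117 : lp7 (fun s => chk (ent L1117 s)) 0 = true := by decide +kernel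
theorem p1117 : PrL chk L1117 := leafL c1117

theorem c1118 : lp7 (fun s => chk (ent L1118 s)) 0 = true := by decide +kernel
theorem p1118 : PrL chk L1118 := leafL c1118

theorem c1119 : lp7 (fun s => chk (ent L1119 s)) 0 = true := by decide +kernel
theorem p1119 : PrL chk L1119 := leafL c1119

theorem c1120 : lp7 (fun s => chk (ent L1120 s)) 0 = true := by decide +kernel
theorem p1120 : PrL chk L1120 := leafL c1120

theorem c1121 : lp7 (fun s => chk (ent L1121 s)) 0 = true := by decide +kernel
theorem p1121 : PrL chk L1121 := leafL c1121

theorem c1122 : lp7 (fun s => chk (ent L1122 s)) 0 = true := by decide +kernel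
theorem p1122 : PrL chk L1122 := leafL c1122

theorem c1123 : lp7 (fun s => chk (ent L1123 s)) 0 = true := by decide +kernel
theorem p1123 : PrL chk L1123 := leafL c1123

theorem c1124 : lp7 (fun s => chk (ent L1124 s)) 0 = true := by decide +kernel
theorem p1124 : PrL chk L1124 := leafL c1124

theorem c1125 : lp7 (fun s => chk (ent L1125 s)) 0 = true := by decide +kernel
theorem p1125 : PrL chk L1125 := leafL c1125

theorem c1126 : lp7 (fun s => chk (ent L1126 s)) 0 = true := by decide +kernel
theorem p1126 : PrL chk L1126 := leafL c1126

theorem c1127 : lp7 (fun s => chk (ent L1127 s)) 0 = true := by decide +kernel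
theorem p1127 : PrL chk L1127 := leafL c1127

theorem c1128 : lp7 (fun s => chk (ent L1128 s)) 0 = true := by decide +kernel
theorem p1128 : PrL chk L1128 := leafL c1128

theorem c1129 : lp7 (fun s => chk (ent L1129 s)) 0 = true := by decide +kernel
theorem p1129 : PrL chk L1129 := leafL c1129

theorem c1130 : lp7 (fun s => chk (ent L1130 s)) 0 = true := by decide +kernel
theorem p1130 : PrL chk L1130 := leafL c1130

theorem c1131 : lp7 (fun s => chk (ent L1131 s)) 0 = true := by decide +kernel
theorem p1131 : PrL chk L1131 := leafL c1131

theorem c1132 : lp7 (fun s => chk (ent L1132 s)) 0 = true := by decide +kernel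
theorem p1132 : PrL chk L1132 := leafL c1132

theorem c1133 : lp7 (fun s => chk (ent L1133 s)) 0 = true := by decide +kernel
theorem p1133 : PrL chk L1133 := leafL c1133

theorem c1134 : lp7 (fun s => chk (ent L1134 s)) 0 = true := by decide +kernel
theorem p1134 : PrL chk L1134 := leafL c1134

theorem c1135 : lp7 (fun s => chk (ent L1135 s)) 0 = true := by decide +kernel
theorem p1135 : PrL chk L1135 := leafL c1135

theorem c1136 : lp7 (fun s => chk (ent L1136 s)) 0 = true := by decide +kernel
theorem p1136 : PrL chk L1136 := leafL c1136

theorem c1137 : lp7 (fun s => chk (ent L1137 s)) 0 = true := by decide +kernel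
theorem p1137 : PrL chk L1137 := leafL c1137

theorem c1138 : lp7 (fun s => chk (ent L1138 s)) 0 = true := by decide +kernel
theorem p1138 : PrL chk L1138 := leafL c1138

theorem c1139 : lp7 (fun s => chk (ent L1139 s)) 0 = true := by decide +kernel
theorem p1139 : PrL chk L1139 := leafL c1139

theorem c1140 : lp7 (fun s => chk (ent L1140 s)) 0 = true := by decide +kernel
theorem p1140 : PrL chk L1140 := leafL c1140

theorem c1141 : lp7 (fun s => chk (ent L1141 s)) 0 = true := by decide +kernel
theorem p1141 : PrL chk L1141 := leafL c1141

theorem c1142 : lp7 (fun s => chk (ent L1142 s)) 0 = true := by decide +kernel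
theorem p1142 : PrL chk L1142 := leafL c1142

theorem c1143 : lp7 (fun s => chk (ent L1143 s)) 0 = true := by decide +kernel
theorem p1143 : PrL chk L1143 := leafL c1143

theorem c1144 : lp7 (fun s => chk (ent L1144 s)) 0 = true := by decide +kernel
theorem p1144 : PrL chk L1144 := leafL c1144

theorem c1145 : lp7 (fun s => chk (ent L1145 s)) 0 = true := by decide +kernel
theorem p1145 : PrL chk L1145 := leafL c1145

theorem c1146 : lp7 (fun s => chk (ent L1146 s)) 0 = true := by decide +kernel
theorem p1146 : PrL chk L1146 := leafL c1146

theorem c1147 : lp7 (fun s => chk (ent L1147 s)) 0 = true := by decide +kernel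
theorem p1147 : PrL chk L1147 := leafL c1147

theorem c1148 : lp7 (fun s => chk (ent L1148 s)) 0 = true := by decide +kernel
theorem p1148 : PrL chk L1148 := leafL c1148

theorem c1149 : lp7 (fun s => chk (ent L1149 s)) 0 = true := by decide +kernel
theorem p1149 : PrL chk L1149 := leafL c1149

theorem c1150 : lp7 (fun s => chk (ent L1150 s)) 0 = true := by decide +kernel
theorem p1150 : PrL chk L1150 := leafL c1150

theorem c1151 : lp7 (fun s => chk (ent L1151 s)) 0 = true := by decide +kernel
theorem p1151 : PrL chk L1151 := leafL c1151

theorem c1152 : lp7 (fun s => chk (ent L1152 s)) 0 = true := by decide +kernel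
theorem p1152 : PrL chk L1152 := leafL c1152

theorem c1153 : lp7 (fun s => chk (ent L1153 s)) 0 = true := by decide +kernel
theorem p1153 : PrL chk L1153 := leafL c1153

theorem c1154 : lp7 (fun s => chk (ent L1154 s)) 0 = true := by decide +kernel
theorem p1154 : PrL chk L1154 := leafL c1154

theorem c1155 : lp7 (fun s => chk (ent L1155 s)) 0 = true := by decide +kernel
theorem p1155 : PrL chk L1155 := leafL c1155

theorem c1156 : lp7 (fun s => chk (ent L1156 s)) 0 = true := by decide +kernel
theorem p1156 : PrL chk L1156 := leafL c1156

theorem c1157 : lp7 (fun s => chk (ent L1157 s)) 0 = true := by decide +kernel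
theorem p1157 : PrL chk L1157 := leafL c1157

theorem c1158 : lp7 (fun s => chk (ent L1158 s)) 0 = true := by decide +kernel
theorem p1158 : PrL chk L1158 := leafL c1158

end Pool.Agent.ad013a.R1
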