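import Pool.Agent.H.MP_ad013a_pr.h63r.Q1.C0
import Pool.Agent.H.MP_ad013a_pr.h63r.Q1.C1
import Pool.Agent.H.MP_ad013a_pr.h63r.Q1.C2
import Pool.Agent.H.MP_ad013a_pr.h63r.Q1.C3
import Pool.Agent.H.MP_ad013a_pr.h63r.Q1.C4

namespace Pool.Agent.ad013a.R1

theorem A0_0_ok (i : Nat) : PrL chk (A0_0 i) := by
 unfold A0_0
 exact
 (brec_all (PrL chk)
 (brec_all (PrL chk)
  (brec_all (PrL chk)
   (brec_all (PrL chk)
    p0
    p1)
   (brec_all (PrL chk)
    p2
    p3))
  (brec_all (PrL chk)
   (brec_all (PrL chk)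
    p4
    p5)
   (brec_all (PrL chk)
    p6
    p7)))
 (brec_all (PrL chk)
  (brec_all (PrL chk)
   (brec_all (PrL chk)
    p8
    p9)
   (brec_all (PrL chk)
    p10
    p11))
  (brec_all (PrL chk)
   (brec_all (PrL chk)
    p12
    p13)
   (brec_all (PrL chk)
    p14
    p15))))

theorem A0_1_ok (i : Nat) : PrL chk (A0_1 i) := by
 unfold A0_1
 exact
 (brec_all (PrL chk)
 (brec_all (PrL chk)
  (brec_all (PrL chk)
   (brec_all (PrL chk)
    p16
    p17)
   (brec_all (PrL chk)
    p18
    p19))
  (brec_all (PrL chk)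
   (brec_all (PrL chk)
    p20
    p21)
   (brec_all (PrL chk)
    p22
    p23)))
 (brec_all (PrL chk)
  (brec_all (PrL chk)
   (brec_all (PrL chk)
    p24
    p25)
   (brec_all (PrL chk)
    p26
    p27))
  (brec_all (PrL chk)
   (brec_all (PrL chk)
    p28
    p29)
   (brec_all (PrL chk)
    p30
    p31))))

theorem A0_2_ok (i : Nat) : PrL chk (A0_2 i) := by
 unfold A0_2
 exact
 (brec_all (PrL chk)
 (brec_all (PrL chk)
  (brec_all (PrL chk)
   (brec_all (PrL chk)
    p32
    p33)
   (brec_all (PrL chk)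
    p34
    p35))
  (brec_all (PrL chk)
   (brec_all (PrL chk)
    p36
    p37)
   (brec_all (PrL chk)
    p38
    p39)))
 (brec_all (PrL chk)
  (brec_all (PrL chk)
   (brec_all (PrL chk)
    p40
    p41)
   (brec_all (PrL chk)
    p42
    p43))
  (brec_all (PrL chk)
   (brec_all (PrL chk)
    p44
    p45)
   (brec_all (PrL chk)
    p46
    p47))))

theorem A0_3_ok (i : Nat) : PrL chk (A0_3 i) := by
 unfold A0_3
 exact
 (brec_all (PrL chk)
 (brec_all (PrL chk)
  (brec_all (PrL chk)
   (brec_all (PrL chk)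
    p48
    p49)
   (brec_all (PrL chk)
    p50
    p51))
  (brec_all (PrL chk)
   (brec_all (PrL chk)
    p52
    p53)
   (brec_all (PrL chk)
    p54
    p55)))
 (brec_all (PrL chk)
  (brec_all (PrL chk)
   (brec_all (PrL chk)
    p56
    p57)
   (brec_all (PrL chk)
    p58
    p59))
  (brec_all (PrL chk)
   (brec_all (PrL chk)
    p60
    p61)
   (brec_all (PrL chk)
    p62
    p63))))

theorem A0_4_ok (i : Nat) : PrL chk (A0_4 i) := by
 unfold A0_4
 exact
 (brec_all (PrL chk)
 (brec_all (PrL chk)
  (brec_all (PrL chk)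
   (brec_all (PrL chk)
    p64
    p65)
   (brec_all (PrL chk)
    p66
    p67))
  (brec_all (PrL chk)
   (brec_all (PrL chk)
    p68
    p69)
   (brec_all (PrL chk)
    p70
    p71)))
 (brec_all (PrL chk)
  (brec_all (PrL chk)
   (brec_all (PrL chk)
    p72
    p73)
   (brec_all (PrL chk)
    p74
    p75))
  (brec_all (PrL chk)
   (brec_all (PrL chk)
    p76
    p77)
   (brec_all (PrL chk)
    p78
    p79))))

theorem A0_5_ok (i : Nat) : PrL chk (A0_5 i) := by
 unfold A0_5
 exact
 (brec_all (PrL chk)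
 (brec_all (PrL chk)
  (brec_all (PrL chk)
   (brec_all (PrL chk)
    p80
    p81)
   (brec_all (PrL chk)
    p82
    p83))
  (brec_all (PrL chk)
   (brec_all (PrL chk)
    p84
    p85)
   (brec_all (PrL chk)
    p86
    p87)))
 (brec_all (PrL chk)
  (brec_all (PrL chk)
   (brec_all (PrL chk)
    p88
    p89)
   (brec_all (PrL chk)
    p90
    p91))
  (brec_all (PrL chk)
   (brec_all (PrL chk)
    p92
    p93)
   (brec_all (PrL chk)
    p94
    p95))))

theorem A0_6_ok (i : Nat) : PrL chk (A0_6 i) := by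
 unfold A0_6
 exact
 (brec_all (PrL chk)
 (brec_all (PrL chk)
  (brec_all (PrL chk)
   (brec_all (PrL chk)
    p96
    p97)
   (brec_all (PrL chk)
    p98
    p99))
  (brec_all (PrL chk)
   (brec_all (PrL chk)
    p100
    p101)
   (brec_all (PrL chk)
    p102
    p103)))
 (brec_all (PrL chk)
  (brec_all (PrL chk)
   (brec_all (PrL chk)
    p104
    p105)
   (brec_all (PrL chk)
    p106
    p107))
  (brec_all (PrL chk)
   (brec_all (PrL chk)
    p108
    p109)
   (brec_all (PrL chk)
    p110
    p111))))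

theorem A0_7_ok (i : Nat) : PrL chk (A0_7 i) := by
 unfold A0_7
 exact
 (brec_all (PrL chk)
 (brec_all (PrL chk)
  (brec_all (PrL chk)
   (brec_all (PrL chk)
    p112
    p113)
   (brec_all (PrL chk)
    p114
    p115))
  (brec_all (PrL chk)
   (brec_all (PrL chk)
    p116
    p117)
   (brec_all (PrL chk)
    p118
    p119)))
 (brec_all (PrL chk)
  (brec_all (PrL chk)
   (brec_all (PrL chk)
    p120
    p121)
   (brec_all (PrL chk)
    p122
    p123))
  (brec_all (PrL chk)
   (brec_all (PrL chk)
    p124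
    p125)
   (brec_all (PrL chk)
    p126
    p127))))

theorem A0_8_ok (i : Nat) : PrL chk (A0_8 i) := by
 unfold A0_8
 exact
 (brec_all (PrL chk)
 (brec_all (PrL chk)
  (brec_all (PrL chk)
   (brec_all (PrL chk)
    p128
    p129)
   (brec_all (PrL chk)
    p130
    p131))
  (brec_all (PrL chk)
   (brec_all (PrL chk)
    p132
    p133)
   (brec_all (PrL chk)
    p134
    p135)))
 (brec_all (PrL chk)
  (brec_all (PrL chk)
   (brec_all (PrL chk)
    p136
    p137)
   (brec_all (PrL chk)
    p138
    p139))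
  (brec_all (PrL chk)
   (brec_all (PrL chk)
    p140
    p141)
   (brec_all (PrL chk)
    p142
    p143))))

theorem A0_9_ok (i : Nat) : PrL chk (A0_9 i) := by
 unfold A0_9
 exact
 (brec_all (PrL chk)
 (brec_all (PrL chk)
  (brec_all (PrL chk)
   (brec_all (PrL chk)
    p144
    p145)
   (brec_all (PrL chk)
    p146
    p147))
  (brec_all (PrL chk)
   (brec_all (PrL chk)
    p148
    p149)
   (brec_all (PrL chk)
    p150
    p151)))
 (brec_all (PrL chk)
  (brec_all (PrL chk)
   (brec_all (PrL chk)
    p152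
    p153)
   (brec_all (PrL chk)
    p154
    p155))
  (brec_all (PrL chk)
   (brec_all (PrL chk)
    p156
    p157)
   (brec_all (PrL chk)
    p158
    p159))))

theorem A0_10_ok (i : Nat) : PrL chk (A0_10 i) := by
 unfold A0_10
 exact
 (brec_all (PrL chk)
 (brec_all (PrL chk)
  (brec_all (PrL chk)
   (brec_all (PrL chk)
    p160
    p161)
   (brec_all (PrL chk)
    p162
    p163))
  (brec_all (PrL chk)
   (brec_all (PrL chk)
    p164
    p165)
   (brec_all (PrL chk)
    p166
    p167)))
 (brec_all (PrL chk)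
  (brec_all (PrL chk)
   (brec_all (PrL chk)
    p168
    p169)
   (brec_all (PrL chk)
    p170
    p171))
  (brec_all (PrL chk)
   (brec_all (PrL chk)
    p172
    p173)
   (brec_all (PrL chk)
    p174
    p175))))

theorem A0_11_ok (i : Nat) : PrL chk (A0_11 i) := by
 unfold A0_11
 exact
 (brec_all (PrL chk)
 (brec_all (PrL chk)
  (brec_all (PrL chk)
   (brec_all (PrL chk)
    p176
    p177)
   (brec_all (PrL chk)
    p178
    p179))
  (brec_all (PrL chk)
   (brec_all (PrL chk)
    p180
    p181)
   (brec_all (PrL chk)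
    p182
    p183)))
 (brec_all (PrL chk)
  (brec_all (PrL chk)
   (brec_all (PrL chk)
    p184
    p185)
   (brec_all (PrL chk)
    p186
    p187))
  (brec_all (PrL chk)
   (brec_all (PrL chk)
    p188
    p189)
   (brec_all (PrL chk)
    p190
    p191))))

theorem A0_12_ok (i : Nat) : PrL chk (A0_12 i) := by
 unfold A0_12
 exact
 (brec_all (PrL chk)
 (brec_all (PrL chk)
  (brec_all (PrL chk)
   (brec_all (PrL chk)
    p192
    p193)
   (brec_all (PrL chk)
    p194
    p195))
  (brec_all (PrL chk)
   (brec_all (PrL chk)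
    p196
    p197)
   (brec_all (PrL chk)
    p198
    p199)))
 (brec_all (PrL chk)
  (brec_all (PrL chk)
   (brec_all (PrL chk)
    p200
    p201)
   (brec_all (PrL chk)
    p202
    p203))
  (brec_all (PrL chk)
   (brec_all (PrL chk)
    p204
    p205)
   (brec_all (PrL chk)
    p206
    p207))))

theorem A0_13_ok (i : Nat) : PrL chk (A0_13 i) := by
 unfold A0_13
 exact
 (brec_all (PrL chk)
 (brec_all (PrL chk)
  (brec_all (PrL chk)
   (brec_all (PrL chk)
    p208
    p209)
   (brec_all (PrL chk)
    p210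
    p211))
  (brec_all (PrL chk)
   (brec_all (PrL chk)
    p212
    p213)
   (brec_all (PrL chk)
    p214
    p215)))
 (brec_all (PrL chk)
  (brec_all (PrL chk)
   (brec_all (PrL chk)
    p216
    p217)
   (brec_all (PrL chk)
    p218
    p219))
  (brec_all (PrL chk)
   (brec_all (PrL chk)
    p220
    p221)
   (brec_all (PrL chk)
    p222
    p223))))

theorem A0_14_ok (i : Nat) : PrL chk (A0_14 i) := by
 unfold A0_14
 exact
 (brec_all (PrL chk)
 (brec_all (PrL chk)
  (brec_all (PrL chk)
   (brec_all (PrL chk)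
    p224
    p225)
   (brec_all (PrL chk)
    p226
    p227))
  (brec_all (PrL chk)
   (brec_all (PrL chk)
    p228
    p229)
   (brec_all (PrL chk)
    p230
    p231)))
 (brec_all (PrL chk)
  (brec_all (PrL chk)
   (brec_all (PrL chk)
    p232
    p233)
   (brec_all (PrL chk)
    p234
    p235))
  (brec_all (PrL chk)
   (brec_all (PrL chk)
    p236
    p237)
   (brec_all (PrL chk)
    p238
    p239))))

theorem A0_15_ok (i : Nat) : PrL chk (A0_15 i) := by
 unfold A0_15
 exact
 (brec_all (PrL chk)
 (brec_all (PrL chk)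
  (brec_all (PrL chk)
   (brec_all (PrL chk)
    p240
    p241)
   (brec_all (PrL chk)
    p242
    p243))
  (brec_all (PrL chk)
   (brec_all (PrL chk)
    p244
    p245)
   (brec_all (PrL chk)
    p246
    p247)))
 (brec_all (PrL chk)
  (brec_all (PrL chk)
   (brec_all (PrL chk)
    p248
    p249)
   (brec_all (PrL chk)
    p250
    p251))
  (brec_all (PrL chk)
   (brec_all (PrL chk)
    p252
    p253)
   (brec_all (PrL chk)
    p254
    p255))))

theorem A0_16_ok (i : Nat) : PrL chk (A0_16 i) := by
 unfold A0_16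
 exact
 (brec_all (PrL chk)
 (brec_all (PrL chk)
  (brec_all (PrL chk)
   (brec_all (PrL chk)
    p256
    p257)
   (brec_all (PrL chk)
    p258
    p259))
  (brec_all (PrL chk)
   (brec_all (PrL chk)
    p260
    p261)
   (brec_all (PrL chk)
    p262
    p263)))
 (brec_all (PrL chk)
  (brec_all (PrL chk)
   (brec_all (PrL chk)
    p264
    p265)
   (brec_all (PrL chk)
    p266
    p267))
  (brec_all (PrL chk)
   (brec_all (PrL chk)
    p268
    p269)
   (brec_all (PrL chk)
    p270
    p271))))

theorem A0_17_ok (i : Nat) : PrL chk (A0_17 i) := by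
 unfold A0_17
 exact
 (brec_all (PrL chk)
 (brec_all (PrL chk)
  (brec_all (PrL chk)
   (brec_all (PrL chk)
    p272
    p273)
   (brec_all (PrL chk)
    p274
    p275))
  (brec_all (PrL chk)
   (brec_all (PrL chk)
    p276
    p277)
   (brec_all (PrL chk)
    p278
    p279)))
 (brec_all (PrL chk)
  (brec_all (PrL chk)
   (brec_all (PrL chk)
    p280
    p281)
   (brec_all (PrL chk)
    p282
    p283))
  (brec_all (PrL chk)
   (brec_all (PrL chk)
    p284
    p285)
   (brec_all (PrL chk)
    p286
    p287))))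

theorem A0_18_ok (i : Nat) : PrL chk (A0_18 i) := by
 unfold A0_18
 exact
 (brec_all (PrL chk)
 (brec_all (PrL chk)
  (brec_all (PrL chk)
   (brec_all (PrL chk)
    p288
    p289)
   (brec_all (PrL chk)
    p290
    p291))
  (brec_all (PrL chk)
   (brec_all (PrL chk)
    p292
    p293)
   (brec_all (PrL chk)
    p294
    p295)))
 (brec_all (PrL chk)
  (brec_all (PrL chk)
   (brec_all (PrL chk)
    p296
    p297)
   (brec_all (PrL chk)
    p298
    p299))
  (brec_all (PrL chk)
   (brec_all (PrL chk)
    p300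
    p301)
   (brec_all (PrL chk)
    p302
    p303))))

theorem A0_19_ok (i : Nat) : PrL chk (A0_19 i) := by
 unfold A0_19
 exact
 (brec_all (PrL chk)
 (brec_all (PrL chk)
  (brec_all (PrL chk)
   (brec_all (PrL chk)
    p304
    p305)
   (brec_all (PrL chk)
    p306
    p307))
  (brec_all (PrL chk)
   (brec_all (PrL chk)
    p308
    p309)
   (brec_all (PrL chk)
    p310
    p311)))
 (brec_all (PrL chk)
  (brec_all (PrL chk)
   (brec_all (PrL chk)
    p312
    p313)
   (brec_all (PrL chk)
    p314
    p315))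
  (brec_all (PrL chk)
   (brec_all (PrL chk)
    p316
    p317)
   (brec_all (PrL chk)
    p318
    p319))))

theorem A0_20_ok (i : Nat) : PrL chk (A0_20 i) := by
 unfold A0_20
 exact
 (brec_all (PrL chk)
 (brec_all (PrL chk)
  (brec_all (PrL chk)
   (brec_all (PrL chk)
    p320
    p321)
   (brec_all (PrL chk)
    p322
    p323))
  (brec_all (PrL chk)
   (brec_all (PrL chk)
    p324
    p325)
   (brec_all (PrL chk)
    p326
    p327)))
 (brec_all (PrL chk)
  (brec_all (PrL chk)
   (brec_all (PrL chk)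
    p328
    p329)
   (brec_all (PrL chk)
    p330
    p331))
  (brec_all (PrL chk)
   (brec_all (PrL chk)
    p332
    p333)
   (brec_all (PrL chk)
    p334
    p335))))

theorem A0_21_ok (i : Nat) : PrL chk (A0_21 i) := by
 unfold A0_21
 exact
 (brec_all (PrL chk)
 (brec_all (PrL chk)
  (brec_all (PrL chk)
   (brec_all (PrL chk)
    p336
    p337)
   (brec_all (PrL chk)
    p338
    p339))
  (brec_all (PrL chk)
   (brec_all (PrL chk)
    p340
    p341)
   (brec_all (PrL chk)
    p342
    p343)))
 (brec_all (PrL chk)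
  (brec_all (PrL chk)
   (brec_all (PrL chk)
    p344
    p345)
   (brec_all (PrL chk)
    p346
    p347))
  (brec_all (PrL chk)
   (brec_all (PrL chk)
    p348
    p349)
   (brec_all (PrL chk)
    p350
    p351))))

theorem A0_22_ok (i : Nat) : PrL chk (A0_22 i) := by
 unfold A0_22
 exact
 (brec_all (PrL chk)
 (brec_all (PrL chk)
  (brec_all (PrL chk)
   (brec_all (PrL chk)
    p352
    p353)
   (brec_all (PrL chk)
    p354
    p355))
  (brec_all (PrL chk)
   (brec_all (PrL chk)
    p356
    p357)
   (brec_all (PrL chk)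
    p358
    p359)))
 (brec_all (PrL chk)
  (brec_all (PrL chk)
   (brec_all (PrL chk)
    p360
    p361)
   (brec_all (PrL chk)
    p362
    p363))
  (brec_all (PrL chk)
   (brec_all (PrL chk)
    p364
    p365)
   (brec_all (PrL chk)
    p366
    p367))))

theorem A0_23_ok (i : Nat) : PrL chk (A0_23 i) := by
 unfold A0_23
 exact
 (brec_all (PrL chk)
 (brec_all (PrL chk)
  (brec_all (PrL chk)
   (brec_all (PrL chk)
    p368
    p369)
   (brec_all (PrL chk)
    p370
    p371))
  (brec_all (PrL chk)
   (brec_all (PrL chk)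
    p372
    p373)
   (brec_all (PrL chk)
    p374
    p375)))
 (brec_all (PrL chk)
  (brec_all (PrL chk)
   (brec_all (PrL chk)
    p376
    p377)
   (brec_all (PrL chk)
    p378
    p379))
  (brec_all (PrL chk)
   (brec_all (PrL chk)
    p380
    p381)
   (brec_all (PrL chk)
    p382
    p383))))

theorem A0_24_ok (i : Nat) : PrL chk (A0_24 i) := by
 unfold A0_24
 exact
 (brec_all (PrL chk)
 (brec_all (PrL chk)
  (brec_all (PrL chk)
   (brec_all (PrL chk)
    p384
    p385)
   (brec_all (PrL chk)
    p386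
    p387))
  (brec_all (PrL chk)
   (brec_all (PrL chk)
    p388
    p389)
   (brec_all (PrL chk)
    p390
    p391)))
 (brec_all (PrL chk)
  (brec_all (PrL chk)
   (brec_all (PrL chk)
    p392
    p393)
   (brec_all (PrL chk)
    p394
    p395))
  (brec_all (PrL chk)
   (brec_all (PrL chk)
    p396
    p397)
   (brec_all (PrL chk)
    p398
    p399))))

theorem A0_25_ok (i : Nat) : PrL chk (A0_25 i) := by
 unfold A0_25
 exact
 (brec_all (PrL chk)
 (brec_all (PrL chk)
  (brec_all (PrL chk)
   (brec_all (PrL chk)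
    p400
    p401)
   (brec_all (PrL chk)
    p402
    p403))
  (brec_all (PrL chk)
   (brec_all (PrL chk)
    p404
    p405)
   (brec_all (PrL chk)
    p406
    p407)))
 (brec_all (PrL chk)
  (brec_all (PrL chk)
   (brec_all (PrL chk)
    p408
    p409)
   (brec_all (PrL chk)
    p410
    p411))
  (brec_all (PrL chk)
   (brec_all (PrL chk)
    p412
    p413)
   (brec_all (PrL chk)
    p414
    p415))))

theorem A0_26_ok (i : Nat) : PrL chk (A0_26 i) := by
 unfold A0_26
 exact
 (brec_all (PrL chk)
 (brec_all (PrL chk)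
  (brec_all (PrL chk)
   (brec_all (PrL chk)
    p416
    p417)
   (brec_all (PrL chk)
    p418
    p419))
  (brec_all (PrL chk)
   (brec_all (PrL chk)
    p420
    p421)
   (brec_all (PrL chk)
    p422
    p423)))
 (brec_all (PrL chk)
  (brec_all (PrL chk)
   (brec_all (PrL chk)
    p424
    p425)
   (brec_all (PrL chk)
    p426
    p427))
  (brec_all (PrL chk)
   (brec_all (PrL chk)
    p428
    p429)
   (brec_all (PrL chk)
    p430
    p431))))

theorem A0_27_ok (i : Nat) : PrL chk (A0_27 i) := by
 unfold A0_27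
 exact
 (brec_all (PrL chk)
 (brec_all (PrL chk)
  (brec_all (PrL chk)
   (brec_all (PrL chk)
    p432
    p433)
   (brec_all (PrL chk)
    p434
    p435))
  (brec_all (PrL chk)
   (brec_all (PrL chk)
    p436
    p437)
   (brec_all (PrL chk)
    p438
    p439)))
 (brec_all (PrL chk)
  (brec_all (PrL chk)
   (brec_all (PrL chk)
    p440
    p441)
   (brec_all (PrL chk)
    p442
    p443))
  (brec_all (PrL chk)
   (brec_all (PrL chk)
    p444
    p445)
   (brec_all (PrL chk)
    p446
    p447))))

theorem A0_28_ok (i : Nat) : PrL chk (A0_28 i) := by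
 unfold A0_28
 exact
 (brec_all (PrL chk)
 (brec_all (PrL chk)
  (brec_all (PrL chk)
   (brec_all (PrL chk)
    p448
    p449)
   (brec_all (PrL chk)
    p450
    p451))
  (brec_all (PrL chk)
   (brec_all (PrL chk)
    p452
    p453)
   (brec_all (PrL chk)
    p454
    p455)))
 (brec_all (PrL chk)
  (brec_all (PrL chk)
   (brec_all (PrL chk)
    p456
    p457)
   (brec_all (PrL chk)
    p458
    p459))
  (brec_all (PrL chk)
   (brec_all (PrL chk)
    p460
    p461)
   (brec_all (PrL chk)
    p462
    p463))))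

theorem A0_29_ok (i : Nat) : PrL chk (A0_29 i) := by
 unfold A0_29
 exact
 (brec_all (PrL chk)
 (brec_all (PrL chk)
  (brec_all (PrL chk)
   (brec_all (PrL chk)
    p464
    p465)
   (brec_all (PrL chk)
    p466
    p467))
  (brec_all (PrL chk)
   (brec_all (PrL chk)
    p468
    p469)
   (brec_all (PrL chk)
    p470
    p471)))
 (brec_all (PrL chk)
  (brec_all (PrL chk)
   (brec_all (PrL chk)
    p472
    p473)
   (brec_all (PrL chk)
    p474
    p475))
  (brec_all (PrL chk)
   (brec_all (PrL chk)
    p476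
    p477)
   (brec_all (PrL chk)
    p478
    p479))))

theorem A0_30_ok (i : Nat) : PrL chk (A0_30 i) := by
 unfold A0_30
 exact
 (brec_all (PrL chk)
 (brec_all (PrL chk)
  (brec_all (PrL chk)
   (brec_all (PrL chk)
    p480
    p481)
   (brec_all (PrL chk)
    p482
    p483))
  (brec_all (PrL chk)
   (brec_all (PrL chk)
    p484
    p485)
   (brec_all (PrL chk)
    p486
    p487)))
 (brec_all (PrL chk)
  (brec_all (PrL chk)
   (brec_all (PrL chk)
    p488
    p489)
   (brec_all (PrL chk)
    p490
    p491))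
  (brec_all (PrL chk)
   (brec_all (PrL chk)
    p492
    p493)
   (brec_all (PrL chk)
    p494
    p495))))

theorem A0_31_ok (i : Nat) : PrL chk (A0_31 i) := by
 unfold A0_31
 exact
 (brec_all (PrL chk)
 (brec_all (PrL chk)
  (brec_all (PrL chk)
   (brec_all (PrL chk)
    p496
    p497)
   (brec_all (PrL chk)
    p498
    p499))
  (brec_all (PrL chk)
   (brec_all (PrL chk)
    p500
    p501)
   (brec_all (PrL chk)
    p502
    p503)))
 (brec_all (PrL chk)
  (brec_all (PrL chk)
   (brec_all (PrL chk)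
    p504
    p505)
   (brec_all (PrL chk)
    p506
    p507))
  (brec_all (PrL chk)
   (brec_all (PrL chk)
    p508
    p509)
   (brec_all (PrL chk)
    p510
    p511))))

theorem A0_32_ok (i : Nat) : PrL chk (A0_32 i) := by
 unfold A0_32
 exact
 (brec_all (PrL chk)
 (brec_all (PrL chk)
  (brec_all (PrL chk)
   (brec_all (PrL chk)
    p512
    p513)
   (brec_all (PrL chk)
    p514
    p515))
  (brec_all (PrL chk)
   (brec_all (PrL chk)
    p516
    p517)
   (brec_all (PrL chk)
    p518
    p519)))
 (brec_all (PrL chk)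
  (brec_all (PrL chk)
   (brec_all (PrL chk)
    p520
    p521)
   (brec_all (PrL chk)
    p522
    p523))
  (brec_all (PrL chk)
   (brec_all (PrL chk)
    p524
    p525)
   (brec_all (PrL chk)
    p526
    p527))))

theorem A0_33_ok (i : Nat) : PrL chk (A0_33 i) := by
 unfold A0_33
 exact
 (brec_all (PrL chk)
 (brec_all (PrL chk)
  (brec_all (PrL chk)
   (brec_all (PrL chk)
    p528
    p529)
   (brec_all (PrL chk)
    p530
    p531))
  (brec_all (PrL chk)
   (brec_all (PrL chk)
    p532
    p533)
   (brec_all (PrL chk)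
    p534
    p535)))
 (brec_all (PrL chk)
  (brec_all (PrL chk)
   (brec_all (PrL chk)
    p536
    p537)
   (brec_all (PrL chk)
    p538
    p539))
  (brec_all (PrL chk)
   (brec_all (PrL chk)
    p540
    p541)
   (brec_all (PrL chk)
    p542
    p543))))

theorem A0_34_ok (i : Nat) : PrL chk (A0_34 i) := by
 unfold A0_34
 exact
 (brec_all (PrL chk)
 (brec_all (PrL chk)
  (brec_all (PrL chk)
   (brec_all (PrL chk)
    p544
    p545)
   (brec_all (PrL chk)
    p546
    p547))
  (brec_all (PrL chk)
   (brec_all (PrL chk)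
    p548
    p549)
   (brec_all (PrL chk)
    p550
    p551)))
 (brec_all (PrL chk)
  (brec_all (PrL chk)
   (brec_all (PrL chk)
    p552
    p553)
   (brec_all (PrL chk)
    p554
    p555))
  (brec_all (PrL chk)
   (brec_all (PrL chk)
    p556
    p557)
   (brec_all (PrL chk)
    p558
    p559))))

theorem A0_35_ok (i : Nat) : PrL chk (A0_35 i) := by
 unfold A0_35
 exact
 (brec_all (PrL chk)
 (brec_all (PrL chk)
  (brec_all (PrL chk)
   (brec_all (PrL chk)
    p560
    p561)
   (brec_all (PrL chk)
    p562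
    p563))
  (brec_all (PrL chk)
   (brec_all (PrL chk)
    p564
    p565)
   (brec_all (PrL chk)
    p566
    p567)))
 (brec_all (PrL chk)
  (brec_all (PrL chk)
   (brec_all (PrL chk)
    p568
    p569)
   (brec_all (PrL chk)
    p570
    p571))
  (brec_all (PrL chk)
   (brec_all (PrL chk)
    p572
    p573)
   (brec_all (PrL chk)
    p574
    p575))))

theorem A0_36_ok (i : Nat) : PrL chk (A0_36 i) := by
 unfold A0_36
 exact
 (brec_all (PrL chk)
 (brec_all (PrL chk)
  (brec_all (PrL chk)
   (brec_all (PrL chk)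
    p576
    p577)
   (brec_all (PrL chk)
    p578
    p579))
  (brec_all (PrL chk)
   (brec_all (PrL chk)
    p580
    p581)
   (brec_all (PrL chk)
    p582
    p583)))
 (brec_all (PrL chk)
  (brec_all (PrL chk)
   (brec_all (PrL chk)
    p584
    p585)
   (brec_all (PrL chk)
    p586
    p587))
  (brec_all (PrL chk)
   (brec_all (PrL chk)
    p588
    p589)
   (brec_all (PrL chk)
    p590
    p591))))

theorem A0_37_ok (i : Nat) : PrL chk (A0_37 i) := by
 unfold A0_37
 exact
 (brec_all (PrL chk)
 (brec_all (PrL chk)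
  (brec_all (PrL chk)
   (brec_all (PrL chk)
    p592
    p593)
   (brec_all (PrL chk)
    p594
    p595))
  (brec_all (PrL chk)
   (brec_all (PrL chk)
    p596
    p597)
   (brec_all (PrL chk)
    p598
    p599)))
 (brec_all (PrL chk)
  (brec_all (PrL chk)
   (brec_all (PrL chk)
    p600
    p601)
   (brec_all (PrL chk)
    p602
    p603))
  (brec_all (PrL chk)
   (brec_all (PrL chk)
    p604
    p605)
   (brec_all (PrL chk)
    p606
    p607))))

theorem A0_38_ok (i : Nat) : PrL chk (A0_38 i) := by
 unfold A0_38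
 exact
 (brec_all (PrL chk)
 (brec_all (PrL chk)
  (brec_all (PrL chk)
   (brec_all (PrL chk)
    p608
    p609)
   (brec_all (PrL chk)
    p610
    p611))
  (brec_all (PrL chk)
   (brec_all (PrL chk)
    p612
    p613)
   (brec_all (PrL chk)
    p614
    p615)))
 (brec_all (PrL chk)
  (brec_all (PrL chk)
   (brec_all (PrL chk)
    p616
    p617)
   (brec_all (PrL chk)
    p618
    p619))
  (brec_all (PrL chk)
   (brec_all (PrL chk)
    p620
    p621)
   (brec_all (PrL chk)
    p622
    p623))))

theorem A0_39_ok (i : Nat) : PrL chk (A0_39 i) := by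
 unfold A0_39
 exact
 (brec_all (PrL chk)
 (brec_all (PrL chk)
  (brec_all (PrL chk)
   (brec_all (PrL chk)
    p624
    p625)
   (brec_all (PrL chk)
    p626
    p627))
  (brec_all (PrL chk)
   (brec_all (PrL chk)
    p628
    p629)
   (brec_all (PrL chk)
    p630
    p631)))
 (brec_all (PrL chk)
  (brec_all (PrL chk)
   (brec_all (PrL chk)
    p632
    p633)
   (brec_all (PrL chk)
    p634
    p635))
  (brec_all (PrL chk)
   (brec_all (PrL chk)
    p636
    p637)
   (brec_all (PrL chk)
    p638
    p639))))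

theorem A0_40_ok (i : Nat) : PrL chk (A0_40 i) := by
 unfold A0_40
 exact
 (brec_all (PrL chk)
 (brec_all (PrL chk)
  (brec_all (PrL chk)
   (brec_all (PrL chk)
    p640
    p641)
   (brec_all (PrL chk)
    p642
    p643))
  (brec_all (PrL chk)
   (brec_all (PrL chk)
    p644
    p645)
   (brec_all (PrL chk)
    p646
    p647)))
 (brec_all (PrL chk)
  (brec_all (PrL chk)
   (brec_all (PrL chk)
    p648
    p649)
   (brec_all (PrL chk)
    p650
    p651))
  (brec_all (PrL chk)
   (brec_all (PrL chk)
    p652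
    p653)
   (brec_all (PrL chk)
    p654
    p655))))

theorem A0_41_ok (i : Nat) : PrL chk (A0_41 i) := by
 unfold A0_41
 exact
 (brec_all (PrL chk)
 (brec_all (PrL chk)
  (brec_all (PrL chk)
   (brec_all (PrL chk)
    p656
    p657)
   (brec_all (PrL chk)
    p658
    p659))
  (brec_all (PrL chk)
   (brec_all (PrL chk)
    p660
    p661)
   (brec_all (PrL chk)
    p662
    p663)))
 (brec_all (PrL chk)
  (brec_all (PrL chk)
   (brec_all (PrL chk)
    p664
    p665)
   (brec_all (PrL chk)
    p666
    p667))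
  (brec_all (PrL chk)
   (brec_all (PrL chk)
    p668
    p669)
   (brec_all (PrL chk)
    p670
    p671))))

theorem A0_42_ok (i : Nat) : PrL chk (A0_42 i) := by
 unfold A0_42
 exact
 (brec_all (PrL chk)
 (brec_all (PrL chk)
  (brec_all (PrL chk)
   (brec_all (PrL chk)
    p672
    p673)
   (brec_all (PrL chk)
    p674
    p675))
  (brec_all (PrL chk)
   (brec_all (PrL chk)
    p676
    p677)
   (brec_all (PrL chk)
    p678
    p679)))
 (brec_all (PrL chk)
  (brec_all (PrL chk)
   (brec_all (PrL chk)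
    p680
    p681)
   (brec_all (PrL chk)
    p682
    p683))
  (brec_all (PrL chk)
   (brec_all (PrL chk)
    p684
    p685)
   (brec_all (PrL chk)
    p686
    p687))))

theorem A0_43_ok (i : Nat) : PrL chk (A0_43 i) := by
 unfold A0_43
 exact
 (brec_all (PrL chk)
 (brec_all (PrL chk)
  (brec_all (PrL chk)
   (brec_all (PrL chk)
    p688
    p689)
   (brec_all (PrL chk)
    p690
    p691))
  (brec_all (PrL chk)
   (brec_all (PrL chk)
    p692
    p693)
   (brec_all (PrL chk)
    p694
    p695)))
 (brec_all (PrL chk)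
  (brec_all (PrL chk)
   (brec_all (PrL chk)
    p696
    p697)
   (brec_all (PrL chk)
    p698
    p699))
  (brec_all (PrL chk)
   (brec_all (PrL chk)
    p700
    p701)
   (brec_all (PrL chk)
    p702
    p703))))

theorem A0_44_ok (i : Nat) : PrL chk (A0_44 i) := by
 unfold A0_44
 exact
 (brec_all (PrL chk)
 (brec_all (PrL chk)
  (brec_all (PrL chk)
   (brec_all (PrL chk)
    p704
    p705)
   (brec_all (PrL chk)
    p706
    p707))
  (brec_all (PrL chk)
   (brec_all (PrL chk)
    p708
    p709)
   (brec_all (PrL chk)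
    p710
    p711)))
 (brec_all (PrL chk)
  (brec_all (PrL chk)
   (brec_all (PrL chk)
    p712
    p713)
   (brec_all (PrL chk)
    p714
    p715))
  (brec_all (PrL chk)
   (brec_all (PrL chk)
    p716
    p717)
   (brec_all (PrL chk)
    p718
    p719))))

theorem A0_45_ok (i : Nat) : PrL chk (A0_45 i) := by
 unfold A0_45
 exact
 (brec_all (PrL chk)
 (brec_all (PrL chk)
  (brec_all (PrL chk)
   (brec_all (PrL chk)
    p720
    p721)
   (brec_all (PrL chk)
    p722
    p723))
  (brec_all (PrL chk)
   (brec_all (PrL chk)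
    p724
    p725)
   (brec_all (PrL chk)
    p726
    p727)))
 (brec_all (PrL chk)
  (brec_all (PrL chk)
   (brec_all (PrL chk)
    p728
    p729)
   (brec_all (PrL chk)
    p730
    p731))
  (brec_all (PrL chk)
   (brec_all (PrL chk)
    p732
    p733)
   (brec_all (PrL chk)
    p734
    p735))))

theorem A0_46_ok (i : Nat) : PrL chk (A0_46 i) := by
 unfold A0_46
 exact
 (brec_all (PrL chk)
 (brec_all (PrL chk)
  (brec_all (PrL chk)
   (brec_all (PrL chk)
    p736
    p737)
   (brec_all (PrL chk)
    p738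
    p739))
  (brec_all (PrL chk)
   (brec_all (PrL chk)
    p740
    p741)
   (brec_all (PrL chk)
    p742
    p743)))
 (brec_all (PrL chk)
  (brec_all (PrL chk)
   (brec_all (PrL chk)
    p744
    p745)
   (brec_all (PrL chk)
    p746
    p747))
  (brec_all (PrL chk)
   (brec_all (PrL chk)
    p748
    p749)
   (brec_all (PrL chk)
    p750
    p751))))

theorem A0_47_ok (i : Nat) : PrL chk (A0_47 i) := by
 unfold A0_47
 exact
 (brec_all (PrL chk)
 (brec_all (PrL chk)
  (brec_all (PrL chk)
   (brec_all (PrL chk)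
    p752
    p753)
   (brec_all (PrL chk)
    p754
    p755))
  (brec_all (PrL chk)
   (brec_all (PrL chk)
    p756
    p757)
   (brec_all (PrL chk)
    p758
    p759)))
 (brec_all (PrL chk)
  (brec_all (PrL chk)
   (brec_all (PrL chk)
    p760
    p761)
   (brec_all (PrL chk)
    p762
    p763))
  (brec_all (PrL chk)
   (brec_all (PrL chk)
    p764
    p765)
   (brec_all (PrL chk)
    p766
    p767))))

theorem A0_48_ok (i : Nat) : PrL chk (A0_48 i) := by
 unfold A0_48
 exact
 (brec_all (PrL chk)
 (brec_all (PrL chk)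
  (brec_all (PrL chk)
   (brec_all (PrL chk)
    p768
    p769)
   (brec_all (PrL chk)
    p770
    p771))
  (brec_all (PrL chk)
   (brec_all (PrL chk)
    p772
    p773)
   (brec_all (PrL chk)
    p774
    p775)))
 (brec_all (PrL chk)
  (brec_all (PrL chk)
   (brec_all (PrL chk)
    p776
    p777)
   (brec_all (PrL chk)
    p778
    p779))
  (brec_all (PrL chk)
   (brec_all (PrL chk)
    p780
    p781)
   (brec_all (PrL chk)
    p782
    p783))))

theorem A0_49_ok (i : Nat) : PrL chk (A0_49 i) := by
 unfold A0_49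
 exact
 (brec_all (PrL chk)
 (brec_all (PrL chk)
  (brec_all (PrL chk)
   (brec_all (PrL chk)
    p784
    p785)
   (brec_all (PrL chk)
    p786
    p787))
  (brec_all (PrL chk)
   (brec_all (PrL chk)
    p788
    p789)
   (brec_all (PrL chk)
    p790
    p791)))
 (brec_all (PrL chk)
  (brec_all (PrL chk)
   (brec_all (PrL chk)
    p792
    p793)
   (brec_all (PrL chk)
    p794
    p795))
  (brec_all (PrL chk)
   (brec_all (PrL chk)
    p796
    p797)
   (brec_all (PrL chk)
    p798
    p799))))

theorem A0_50_ok (i : Nat) : PrL chk (A0_50 i) := by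
 unfold A0_50
 exact
 (brec_all (PrL chk)
 (brec_all (PrL chk)
  (brec_all (PrL chk)
   (brec_all (PrL chk)
    p800
    p801)
   (brec_all (PrL chk)
    p802
    p803))
  (brec_all (PrL chk)
   (brec_all (PrL chk)
    p804
    p805)
   (brec_all (PrL chk)
    p806
    p807)))
 (brec_all (PrL chk)
  (brec_all (PrL chk)
   (brec_all (PrL chk)
    p808
    p809)
   (brec_all (PrL chk)
    p810
    p811))
  (brec_all (PrL chk)
   (brec_all (PrL chk)
    p812
    p813)
   (brec_all (PrL chk)
    p814
    p815))))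

theorem A0_51_ok (i : Nat) : PrL chk (A0_51 i) := by
 unfold A0_51
 exact
 (brec_all (PrL chk)
 (brec_all (PrL chk)
  (brec_all (PrL chk)
   (brec_all (PrL chk)
    p816
    p817)
   (brec_all (PrL chk)
    p818
    p819))
  (brec_all (PrL chk)
   (brec_all (PrL chk)
    p820
    p821)
   (brec_all (PrL chk)
    p822
    p823)))
 (brec_all (PrL chk)
  (brec_all (PrL chk)
   (brec_all (PrL chk)
    p824
    p825)
   (brec_all (PrL chk)
    p826
    p827))
  (brec_all (PrL chk)
   (brec_all (PrL chk)
    p828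
    p829)
   (brec_all (PrL chk)
    p830
    p831))))

theorem A0_52_ok (i : Nat) : PrL chk (A0_52 i) := by
 unfold A0_52
 exact
 (brec_all (PrL chk)
 (brec_all (PrL chk)
  (brec_all (PrL chk)
   (brec_all (PrL chk)
    p832
    p833)
   (brec_all (PrL chk)
    p834
    p835))
  (brec_all (PrL chk)
   (brec_all (PrL chk)
    p836
    p837)
   (brec_all (PrL chk)
    p838
    p839)))
 (brec_all (PrL chk)
  (brec_all (PrL chk)
   (brec_all (PrL chk)
    p840
    p841)
   (brec_all (PrL chk)
    p842
    p843))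
  (brec_all (PrL chk)
   (brec_all (PrL chk)
    p844
    p845)
   (brec_all (PrL chk)
    p846
    p847))))

theorem A0_53_ok (i : Nat) : PrL chk (A0_53 i) := by
 unfold A0_53
 exact
 (brec_all (PrL chk)
 (brec_all (PrL chk)
  (brec_all (PrL chk)
   (brec_all (PrL chk)
    p848
    p849)
   (brec_all (PrL chk)
    p850
    p851))
  (brec_all (PrL chk)
   (brec_all (PrL chk)
    p852
    p853)
   (brec_all (PrL chk)
    p854
    p855)))
 (brec_all (PrL chk)
  (brec_all (PrL chk)
   (brec_all (PrL chk)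
    p856
    p857)
   (brec_all (PrL chk)
    p858
    p859))
  (brec_all (PrL chk)
   (brec_all (PrL chk)
    p860
    p861)
   (brec_all (PrL chk)
    p862
    p863))))

theorem A0_54_ok (i : Nat) : PrL chk (A0_54 i) := by
 unfold A0_54
 exact
 (brec_all (PrL chk)
 (brec_all (PrL chk)
  (brec_all (PrL chk)
   (brec_all (PrL chk)
    p864
    p865)
   (brec_all (PrL chk)
    p866
    p867))
  (brec_all (PrL chk)
   (brec_all (PrL chk)
    p868
    p869)
   (brec_all (PrL chk)
    p870
    p871)))
 (brec_all (PrL chk)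
  (brec_all (PrL chk)
   (brec_all (PrL chk)
    p872
    p873)
   (brec_all (PrL chk)
    p874
    p875))
  (brec_all (PrL chk)
   (brec_all (PrL chk)
    p876
    p877)
   (brec_all (PrL chk)
    p878
    p879))))

theorem A0_55_ok (i : Nat) : PrL chk (A0_55 i) := by
 unfold A0_55
 exact
 (brec_all (PrL chk)
 (brec_all (PrL chk)
  (brec_all (PrL chk)
   (brec_all (PrL chk)
    p880
    p881)
   (brec_all (PrL chk)
    p882
    p883))
  (brec_all (PrL chk)
   (brec_all (PrL chk)
    p884
    p885)
   (brec_all (PrL chk)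
    p886
    p887)))
 (brec_all (PrL chk)
  (brec_all (PrL chk)
   (brec_all (PrL chk)
    p888
    p889)
   (brec_all (PrL chk)
    p890
    p891))
  (brec_all (PrL chk)
   (brec_all (PrL chk)
    p892
    p893)
   (brec_all (PrL chk)
    p894
    p895))))

theorem A0_56_ok (i : Nat) : PrL chk (A0_56 i) := by
 unfold A0_56
 exact
 (brec_all (PrL chk)
 (brec_all (PrL chk)
  (brec_all (PrL chk)
   (brec_all (PrL chk)
    p896
    p897)
   (brec_all (PrL chk)
    p898
    p899))
  (brec_all (PrL chk)
   (brec_all (PrL chk)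
    p900
    p901)
   (brec_all (PrL chk)
    p902
    p903)))
 (brec_all (PrL chk)
  (brec_all (PrL chk)
   (brec_all (PrL chk)
    p904
    p905)
   (brec_all (PrL chk)
    p906
    p907))
  (brec_all (PrL chk)
   (brec_all (PrL chk)
    p908
    p909)
   (brec_all (PrL chk)
    p910
    p911))))

theorem A0_57_ok (i : Nat) : PrL chk (A0_57 i) := by
 unfold A0_57
 exact
 (brec_all (PrL chk)
 (brec_all (PrL chk)
  (brec_all (PrL chk)
   (brec_all (PrL chk)
    p912
    p913)
   (brec_all (PrL chk)
    p914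
    p915))
  (brec_all (PrL chk)
   (brec_all (PrL chk)
    p916
    p917)
   (brec_all (PrL chk)
    p918
    p919)))
 (brec_all (PrL chk)
  (brec_all (PrL chk)
   (brec_all (PrL chk)
    p920
    p921)
   (brec_all (PrL chk)
    p922
    p923))
  (brec_all (PrL chk)
   (brec_all (PrL chk)
    p924
    p925)
   (brec_all (PrL chk)
    p926
    p927))))

theorem A0_58_ok (i : Nat) : PrL chk (A0_58 i) := by
 unfold A0_58
 exact
 (brec_all (PrL chk)
 (brec_all (PrL chk)
  (brec_all (PrL chk)
   (brec_all (PrL chk)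
    p928
    p929)
   (brec_all (PrL chk)
    p930
    p931))
  (brec_all (PrL chk)
   (brec_all (PrL chk)
    p932
    p933)
   (brec_all (PrL chk)
    p934
    p935)))
 (brec_all (PrL chk)
  (brec_all (PrL chk)
   (brec_all (PrL chk)
    p936
    p937)
   (brec_all (PrL chk)
    p938
    p939))
  (brec_all (PrL chk)
   (brec_all (PrL chk)
    p940
    p941)
   (brec_all (PrL chk)
    p942
    p943))))

theorem A0_59_ok (i : Nat) : PrL chk (A0_59 i) := by
 unfold A0_59
 exact
 (brec_all (PrL chk)
 (brec_all (PrL chk)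
  (brec_all (PrL chk)
   (brec_all (PrL chk)
    p944
    p945)
   (brec_all (PrL chk)
    p946
    p947))
  (brec_all (PrL chk)
   (brec_all (PrL chk)
    p948
    p949)
   (brec_all (PrL chk)
    p950
    p951)))
 (brec_all (PrL chk)
  (brec_all (PrL chk)
   (brec_all (PrL chk)
    p952
    p953)
   (brec_all (PrL chk)
    p954
    p955))
  (brec_all (PrL chk)
   (brec_all (PrL chk)
    p956
    p957)
   (brec_all (PrL chk)
    p958
    p959))))

theorem A0_60_ok (i : Nat) : PrL chk (A0_60 i) := by
 unfold A0_60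
 exact
 (brec_all (PrL chk)
 (brec_all (PrL chk)
  (brec_all (PrL chk)
   (brec_all (PrL chk)
    p960
    p961)
   (brec_all (PrL chk)
    p962
    p963))
  (brec_all (PrL chk)
   (brec_all (PrL chk)
    p964
    p965)
   (brec_all (PrL chk)
    p966
    p967)))
 (brec_all (PrL chk)
  (brec_all (PrL chk)
   (brec_all (PrL chk)
    p968
    p969)
   (brec_all (PrL chk)
    p970
    p971))
  (brec_all (PrL chk)
   (brec_all (PrL chk)
    p972
    p973)
   (brec_all (PrL chk)
    p974
    p975))))

theorem A0_61_ok (i : Nat) : PrL chk (A0_61 i) := by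
 unfold A0_61
 exact
 (brec_all (PrL chk)
 (brec_all (PrL chk)
  (brec_all (PrL chk)
   (brec_all (PrL chk)
    p976
    p977)
   (brec_all (PrL chk)
    p978
    p979))
  (brec_all (PrL chk)
   (brec_all (PrL chk)
    p980
    p981)
   (brec_all (PrL chk)
    p982
    p983)))
 (brec_all (PrL chk)
  (brec_all (PrL chk)
   (brec_all (PrL chk)
    p984
    p985)
   (brec_all (PrL chk)
    p986
    p987))
  (brec_all (PrL chk)
   (brec_all (PrL chk)
    p988
    p989)
   (brec_all (PrL chk)
    p990
    p991))))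

theorem A0_62_ok (i : Nat) : PrL chk (A0_62 i) := by
 unfold A0_62
 exact
 (brec_all (PrL chk)
 (brec_all (PrL chk)
  (brec_all (PrL chk)
   (brec_all (PrL chk)
    p992
    p993)
   (brec_all (PrL chk)
    p994
    p995))
  (brec_all (PrL chk)
   (brec_all (PrL chk)
    p996
    p997)
   (brec_all (PrL chk)
    p998
    p999)))
 (brec_all (PrL chk)
  (brec_all (PrL chk)
   (brec_all (PrL chk)
    p1000
    p1001)
   (brec_all (PrL chk)
    p1002
    p1003))
  (brec_all (PrL chk)
   (brec_all (PrL chk)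
    p1004
    p1005)
   (brec_all (PrL chk)
    p1006
    p1007))))

theorem A0_63_ok (i : Nat) : PrL chk (A0_63 i) := by
 unfold A0_63
 exact
 (brec_all (PrL chk)
 (brec_all (PrL chk)
  (brec_all (PrL chk)
   (brec_all (PrL chk)
    p1008
    p1009)
   (brec_all (PrL chk)
    p1010
    p1011))
  (brec_all (PrL chk)
   (brec_all (PrL chk)
    p1012
    p1013)
   (brec_all (PrL chk)
    p1014
    p1015)))
 (brec_all (PrL chk)
  (brec_all (PrL chk)
   (brec_all (PrL chk)
    p1016
    p1017)
   (brec_all (PrL chk)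
    p1018
    p1019))
  (brec_all (PrL chk)
   (brec_all (PrL chk)
    p1020
    p1021)
   (brec_all (PrL chk)
    p1022
    p1023))))

theorem A0_64_ok (i : Nat) : PrL chk (A0_64 i) := by
 unfold A0_64
 exact
 (brec_all (PrL chk)
 (brec_all (PrL chk)
  (brec_all (PrL chk)
   (brec_all (PrL chk)
    p1024
    p1025)
   (brec_all (PrL chk)
    p1026
    p1027))
  (brec_all (PrL chk)
   (brec_all (PrL chk)
    p1028
    p1029)
   (brec_all (PrL chk)
    p1030
    p1031)))
 (brec_all (PrL chk)
  (brec_all (PrL chk)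
   (brec_all (PrL chk)
    p1032
    p1033)
   (brec_all (PrL chk)
    p1034
    p1035))
  (brec_all (PrL chk)
   (brec_all (PrL chk)
    p1036
    p1037)
   (brec_all (PrL chk)
    p1038
    p1039))))

theorem A0_65_ok (i : Nat) : PrL chk (A0_65 i) := by
 unfold A0_65
 exact
 (brec_all (PrL chk)
 (brec_all (PrL chk)
  (brec_all (PrL chk)
   (brec_all (PrL chk)
    p1040
    p1041)
   (brec_all (PrL chk)
    p1042
    p1043))
  (brec_all (PrL chk)
   (brec_all (PrL chk)
    p1044
    p1045)
   (brec_all (PrL chk)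
    p1046
    p1047)))
 (brec_all (PrL chk)
  (brec_all (PrL chk)
   (brec_all (PrL chk)
    p1048
    p1049)
   (brec_all (PrL chk)
    p1050
    p1051))
  (brec_all (PrL chk)
   (brec_all (PrL chk)
    p1052
    p1053)
   (brec_all (PrL chk)
    p1054
    p1055))))

theorem A0_66_ok (i : Nat) : PrL chk (A0_66 i) := by
 unfold A0_66
 exact
 (brec_all (PrL chk)
 (brec_all (PrL chk)
  (brec_all (PrL chk)
   (brec_all (PrL chk)
    p1056
    p1057)
   (brec_all (PrL chk)
    p1058
    p1059))
  (brec_all (PrL chk)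
   (brec_all (PrL chk)
    p1060
    p1061)
   (brec_all (PrL chk)
    p1062
    p1063)))
 (brec_all (PrL chk)
  (brec_all (PrL chk)
   (brec_all (PrL chk)
    p1064
    p1065)
   (brec_all (PrL chk)
    p1066
    p1067))
  (brec_all (PrL chk)
   (brec_all (PrL chk)
    p1068
    p1069)
   (brec_all (PrL chk)
    p1070
    p1071))))

theorem A0_67_ok (i : Nat) : PrL chk (A0_67 i) := by
 unfold A0_67
 exact
 (brec_all (PrL chk)
 (brec_all (PrL chk)
  (brec_all (PrL chk)
   (brec_all (PrL chk)
    p1072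
    p1073)
   (brec_all (PrL chk)
    p1074
    p1075))
  (brec_all (PrL chk)
   (brec_all (PrL chk)
    p1076
    p1077)
   (brec_all (PrL chk)
    p1078
    p1079)))
 (brec_all (PrL chk)
  (brec_all (PrL chk)
   (brec_all (PrL chk)
    p1080
    p1081)
   (brec_all (PrL chk)
    p1082
    p1083))
  (brec_all (PrL chk)
   (brec_all (PrL chk)
    p1084
    p1085)
   (brec_all (PrL chk)
    p1086
    p1087))))

theorem A0_68_ok (i : Nat) : PrL chk (A0_68 i) := by
 unfold A0_68
 exact
 (brec_all (PrL chk)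
 (brec_all (PrL chk)
  (brec_all (PrL chk)
   (brec_all (PrL chk)
    p1088
    p1089)
   (brec_all (PrL chk)
    p1090
    p1091))
  (brec_all (PrL chk)
   (brec_all (PrL chk)
    p1092
    p1093)
   (brec_all (PrL chk)
    p1094
    p1095)))
 (brec_all (PrL chk)
  (brec_all (PrL chk)
   (brec_all (PrL chk)
    p1096
    p1097)
   (brec_all (PrL chk)
    p1098
    p1099))
  (brec_all (PrL chk)
   (brec_all (PrL chk)
    p1100
    p1101)
   (brec_all (PrL chk)
    p1102
    p1103))))

theorem A0_69_ok (i : Nat) : PrL chk (A0_69 i) := by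
 unfold A0_69
 exact
 (brec_all (PrL chk)
 (brec_all (PrL chk)
  (brec_all (PrL chk)
   (brec_all (PrL chk)
    p1104
    p1105)
   (brec_all (PrL chk)
    p1106
    p1107))
  (brec_all (PrL chk)
   (brec_all (PrL chk)
    p1108
    p1109)
   (brec_all (PrL chk)
    p1110
    p1111)))
 (brec_all (PrL chk)
  (brec_all (PrL chk)
   (brec_all (PrL chk)
    p1112
    p1113)
   (brec_all (PrL chk)
    p1114
    p1115))
  (brec_all (PrL chk)
   (brec_all (PrL chk)
    p1116
    p1117)
   (brec_all (PrL chk)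
    p1118
    p1119))))

theorem A0_70_ok (i : Nat) : PrL chk (A0_70 i) := by
 unfold A0_70
 exact
 (brec_all (PrL chk)
 (brec_all (PrL chk)
  (brec_all (PrL chk)
   (brec_all (PrL chk)
    p1120
    p1121)
   (brec_all (PrL chk)
    p1122
    p1123))
  (brec_all (PrL chk)
   (brec_all (PrL chk)
    p1124
    p1125)
   (brec_all (PrL chk)
    p1126
    p1127)))
 (brec_all (PrL chk)
  (brec_all (PrL chk)
   (brec_all (PrL chk)
    p1128
    p1129)
   (brec_all (PrL chk)
    p1130
    p1131))
  (brec_all (PrL chk)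
   (brec_all (PrL chk)
    p1132
    p1133)
   (brec_all (PrL chk)
    p1134
    p1135))))

theorem A0_71_ok (i : Nat) : PrL chk (A0_71 i) := by
 unfold A0_71
 exact
 (brec_all (PrL chk)
 (brec_all (PrL chk)
  (brec_all (PrL chk)
   (brec_all (PrL chk)
    p1136
    p1137)
   (brec_all (PrL chk)
    p1138
    p1139))
  (brec_all (PrL chk)
   (brec_all (PrL chk)
    p1140
    p1141)
   (brec_all (PrL chk)
    p1142
    p1143)))
 (brec_all (PrL chk)
  (brec_all (PrL chk)
   (brec_all (PrL chk)
    p1144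
    p1145)
   (brec_all (PrL chk)
    p1146
    p1147))
  (brec_all (PrL chk)
   (brec_all (PrL chk)
    p1148
    p1149)
   (brec_all (PrL chk)
    p1150
    p1151))))

theorem A0_72_ok (i : Nat) : PrL chk (A0_72 i) := by
 unfold A0_72
 exact
 (brec_all (PrL chk)
 (brec_all (PrL chk)
  (brec_all (PrL chk)
   p1152
   p1153)
  (brec_all (PrL chk)
   p1154
   p1155))
 (brec_all (PrL chk)
  (brec_all (PrL chk)
   p1156
   p1157)
  p1158))

theorem A1_0_ok (i : Nat) : PrL chk (A1_0 i) := by
 unfold A1_0
 exact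
 (brec_all (PrL chk)
 (brec_all (PrL chk)
  (brec_all (PrL chk)
   (brec_all (PrL chk)
    (A0_0_ok i)
    (A0_1_ok i))
   (brec_all (PrL chk)
    (A0_2_ok i)
    (A0_3_ok i)))
  (brec_all (PrL chk)
   (brec_all (PrL chk)
    (A0_4_ok i)
    (A0_5_ok i))
   (brec_all (PrL chk)
    (A0_6_ok i)
    (A0_7_ok i))))
 (brec_all (PrL chk)
  (brec_all (PrL chk)
   (brec_all (PrL chk)
    (A0_8_ok i)
    (A0_9_ok i))
   (brec_all (PrL chk)
    (A0_10_ok i)
    (A0_11_ok i)))
  (brec_all (PrL chk)
   (brec_all (PrL chk)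
    (A0_12_ok i)
    (A0_13_ok i))
   (brec_all (PrL chk)
    (A0_14_ok i)
    (A0_15_ok i)))))

theorem A1_1_ok (i : Nat) : PrL chk (A1_1 i) := by
 unfold A1_1
 exact
 (brec_all (PrL chk)
 (brec_all (PrL chk)
  (brec_all (PrL chk)
   (brec_all (PrL chk)
    (A0_16_ok i)
    (A0_17_ok i))
   (brec_all (PrL chk)
    (A0_18_ok i)
    (A0_19_ok i)))
  (brec_all (PrL chk)
   (brec_all (PrL chk)
    (A0_20_ok i)
    (A0_21_ok i))
   (brec_all (PrL chk)
    (A0_22_ok i)
    (A0_23_ok i))))
 (brec_all (PrL chk)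
  (brec_all (PrL chk)
   (brec_all (PrL chk)
    (A0_24_ok i)
    (A0_25_ok i))
   (brec_all (PrL chk)
    (A0_26_ok i)
    (A0_27_ok i)))
  (brec_all (PrL chk)
   (brec_all (PrL chk)
    (A0_28_ok i)
    (A0_29_ok i))
   (brec_all (PrL chk)
    (A0_30_ok i)
    (A0_31_ok i)))))

theorem A1_2_ok (i : Nat) : PrL chk (A1_2 i) := by
 unfold A1_2
 exact
 (brec_all (PrL chk)
 (brec_all (PrL chk)
  (brec_all (PrL chk)
   (brec_all (PrL chk)
    (A0_32_ok i)
    (A0_33_ok i))
   (brec_all (PrL chk)
    (A0_34_ok i)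
    (A0_35_ok i)))
  (brec_all (PrL chk)
   (brec_all (PrL chk)
    (A0_36_ok i)
    (A0_37_ok i))
   (brec_all (PrL chk)
    (A0_38_ok i)
    (A0_39_ok i))))
 (brec_all (PrL chk)
  (brec_all (PrL chk)
   (brec_all (PrL chk)
    (A0_40_ok i)
    (A0_41_ok i))
   (brec_all (PrL chk)
    (A0_42_ok i)
    (A0_43_ok i)))
  (brec_all (PrL chk)
   (brec_all (PrL chk)
    (A0_44_ok i)
    (A0_45_ok i))
   (brec_all (PrL chk)
    (A0_46_ok i)
    (A0_47_ok i)))))

theorem A1_3_ok (i : Nat) : PrL chk (A1_3 i) := by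
 unfold A1_3
 exact
 (brec_all (PrL chk)
 (brec_all (PrL chk)
  (brec_all (PrL chk)
   (brec_all (PrL chk)
    (A0_48_ok i)
    (A0_49_ok i))
   (brec_all (PrL chk)
    (A0_50_ok i)
    (A0_51_ok i)))
  (brec_all (PrL chk)
   (brec_all (PrL chk)
    (A0_52_ok i)
    (A0_53_ok i))
   (brec_all (PrL chk)
    (A0_54_ok i)
    (A0_55_ok i))))
 (brec_all (PrL chk)
  (brec_all (PrL chk)
   (brec_all (PrL chk)
    (A0_56_ok i)
    (A0_57_ok i))
   (brec_all (PrL chk)
    (A0_58_ok i)
    (A0_59_ok i)))
  (brec_all (PrL chk)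
   (brec_all (PrL chk)
    (A0_60_ok i)
    (A0_61_ok i))
   (brec_all (PrL chk)
    (A0_62_ok i)
    (A0_63_ok i)))))

theorem A1_4_ok (i : Nat) : PrL chk (A1_4 i) := by
 unfold A1_4
 exact
 (brec_all (PrL chk)
 (brec_all (PrL chk)
  (brec_all (PrL chk)
   (brec_all (PrL chk)
    (A0_64_ok i)
    (A0_65_ok i))
   (A0_66_ok i))
  (brec_all (PrL chk)
   (A0_67_ok i)
   (A0_68_ok i)))
 (brec_all (PrL chk)
  (brec_all (PrL chk)
   (A0_69_ok i)
   (A0_70_ok i))
  (brec_all (PrL chk)
   (A0_71_ok i)
   (A0_72_ok i))))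

theorem leaf_ok (i : Nat) : PrL chk (leaf i) := by
 unfold leaf
 exact
 (brec_all (PrL chk)
 (brec_all (PrL chk)
  (brec_all (PrL chk)
   (A1_0_ok i)
   (A1_1_ok i))
  (A1_2_ok i))
 (brec_all (PrL chk)
  (A1_3_ok i)
  (A1_4_ok i)))

theorem all_ok (i : Nat) : chkF false 10000 131072 53771 6750 6764 g (g i) = true := leaf_ok i i

theorem start_ok : fhx (g 0) = 0 ∧ flx (g 0) = 0 ∧ fnx (g 0) = 0 ∧
    fhy (g 0) = 0 ∧ fly (g 0) = 0 ∧ fny (g 0) = 0 := by decide +kernel

end Pool.Agent.ad013a.R1
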