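import Pool.Agent.H.MP_ad013a_pr.h63.Flat
import Pool.Agent.H.MP_ad013a_pr.h63r.Q1.D0
import Pool.Agent.H.MP_ad013a_pr.h63r.Q1.D1
import Pool.Agent.H.MP_ad013a_pr.h63r.Q1.D2

namespace Pool.Agent.ad013a.R1

/-- choice of a leaf -/
noncomputable def A0_0 (i : Nat) : Nat :=
 (Bool.rec (motive := fun _ => Nat)
 (Bool.rec (motive := fun _ => Nat)
  (Bool.rec (motive := fun _ => Nat)
   (Bool.rec (motive := fun _ => Nat)
    L0
    L1
    (Nat.ble 128 i))
   (Bool.rec (motive := fun _ => Nat)
    L2
    L3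
    (Nat.ble 384 i))
   (Nat.ble 256 i))
  (Bool.rec (motive := fun _ => Nat)
   (Bool.rec (motive := fun _ => Nat)
    L4
    L5
    (Nat.ble 640 i))
   (Bool.rec (motive := fun _ => Nat)
    L6
    L7
    (Nat.ble 896 i))
   (Nat.ble 768 i))
  (Nat.ble 512 i))
 (Bool.rec (motive := fun _ => Nat)
  (Bool.rec (motive := fun _ => Nat)
   (Bool.rec (motive := fun _ => Nat)
    L8
    L9
    (Nat.ble 1152 i))
   (Bool.rec (motive := fun _ => Nat)
    L10
    L11
    (Nat.ble 1408 i))
   (Nat.ble 1280 i))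
  (Bool.rec (motive := fun _ => Nat)
   (Bool.rec (motive := fun _ => Nat)
    L12
    L13
    (Nat.ble 1664 i))
   (Bool.rec (motive := fun _ => Nat)
    L14
    L15
    (Nat.ble 1920 i))
   (Nat.ble 1792 i))
  (Nat.ble 1536 i))
 (Nat.ble 1024 i))

/-- choice of a leaf -/
noncomputable def A0_1 (i : Nat) : Nat :=
 (Bool.rec (motive := fun _ => Nat)
 (Bool.rec (motive := fun _ => Nat)
  (Bool.rec (motive := fun _ => Nat)
   (Bool.rec (motive := fun _ => Nat)
    L16
    L17
    (Nat.ble 2176 i))
   (Bool.rec (motive := fun _ => Nat)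
    L18
    L19
    (Nat.ble 2432 i))
   (Nat.ble 2304 i))
  (Bool.rec (motive := fun _ => Nat)
   (Bool.rec (motive := fun _ => Nat)
    L20
    L21
    (Nat.ble 2688 i))
   (Bool.rec (motive := fun _ => Nat)
    L22
    L23
    (Nat.ble 2944 i))
   (Nat.ble 2816 i))
  (Nat.ble 2560 i))
 (Bool.rec (motive := fun _ => Nat)
  (Bool.rec (motive := fun _ => Nat)
   (Bool.rec (motive := fun _ => Nat)
    L24
    L25
    (Nat.ble 3200 i))
   (Bool.rec (motive := fun _ => Nat)
    L26
    L27
    (Nat.ble 3456 i))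
   (Nat.ble 3328 i))
  (Bool.rec (motive := fun _ => Nat)
   (Bool.rec (motive := fun _ => Nat)
    L28
    L29
    (Nat.ble 3712 i))
   (Bool.rec (motive := fun _ => Nat)
    L30
    L31
    (Nat.ble 3968 i))
   (Nat.ble 3840 i))
  (Nat.ble 3584 i))
 (Nat.ble 3072 i))

/-- choice of a leaf -/
noncomputable def A0_2 (i : Nat) : Nat :=
 (Bool.rec (motive := fun _ => Nat)
 (Bool.rec (motive := fun _ => Nat)
  (Bool.rec (motive := fun _ => Nat)
   (Bool.rec (motive := fun _ => Nat)
    L32
    L33
    (Nat.ble 4224 i))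
   (Bool.rec (motive := fun _ => Nat)
    L34
    L35
    (Nat.ble 4480 i))
   (Nat.ble 4352 i))
  (Bool.rec (motive := fun _ => Nat)
   (Bool.rec (motive := fun _ => Nat)
    L36
    L37
    (Nat.ble 4736 i))
   (Bool.rec (motive := fun _ => Nat)
    L38
    L39
    (Nat.ble 4992 i))
   (Nat.ble 4864 i))
  (Nat.ble 4608 i))
 (Bool.rec (motive := fun _ => Nat)
  (Bool.rec (motive := fun _ => Nat)
   (Bool.rec (motive := fun _ => Nat)
    L40
    L41
    (Nat.ble 5248 i))
   (Bool.rec (motive := fun _ => Nat)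
    L42
    L43
    (Nat.ble 5504 i))
   (Nat.ble 5376 i))
  (Bool.rec (motive := fun _ => Nat)
   (Bool.rec (motive := fun _ => Nat)
    L44
    L45
    (Nat.ble 5760 i))
   (Bool.rec (motive := fun _ => Nat)
    L46
    L47
    (Nat.ble 6016 i))
   (Nat.ble 5888 i))
  (Nat.ble 5632 i))
 (Nat.ble 5120 i))

/-- choice of a leaf -/
noncomputable def A0_3 (i : Nat) : Nat :=
 (Bool.rec (motive := fun _ => Nat)
 (Bool.rec (motive := fun _ => Nat)
  (Bool.rec (motive := fun _ => Nat)
   (Bool.rec (motive := fun _ => Nat)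
    L48
    L49
    (Nat.ble 6272 i))
   (Bool.rec (motive := fun _ => Nat)
    L50
    L51
    (Nat.ble 6528 i))
   (Nat.ble 6400 i))
  (Bool.rec (motive := fun _ => Nat)
   (Bool.rec (motive := fun _ => Nat)
    L52
    L53
    (Nat.ble 6784 i))
   (Bool.rec (motive := fun _ => Nat)
    L54
    L55
    (Nat.ble 7040 i))
   (Nat.ble 6912 i))
  (Nat.ble 6656 i))
 (Bool.rec (motive := fun _ => Nat)
  (Bool.rec (motive := fun _ => Nat)
   (Bool.rec (motive := fun _ => Nat)
    L56
    L57
    (Nat.ble 7296 i))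
   (Bool.rec (motive := fun _ => Nat)
    L58
    L59
    (Nat.ble 7552 i))
   (Nat.ble 7424 i))
  (Bool.rec (motive := fun _ => Nat)
   (Bool.rec (motive := fun _ => Nat)
    L60
    L61
    (Nat.ble 7808 i))
   (Bool.rec (motive := fun _ => Nat)
    L62
    L63
    (Nat.ble 8064 i))
   (Nat.ble 7936 i))
  (Nat.ble 7680 i))
 (Nat.ble 7168 i))

/-- choice of a leaf -/
noncomputable def A0_4 (i : Nat) : Nat :=
 (Bool.rec (motive := fun _ => Nat)
 (Bool.rec (motive := fun _ => Nat)
  (Bool.rec (motive := fun _ => Nat)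
   (Bool.rec (motive := fun _ => Nat)
    L64
    L65
    (Nat.ble 8320 i))
   (Bool.rec (motive := fun _ => Nat)
    L66
    L67
    (Nat.ble 8576 i))
   (Nat.ble 8448 i))
  (Bool.rec (motive := fun _ => Nat)
   (Bool.rec (motive := fun _ => Nat)
    L68
    L69
    (Nat.ble 8832 i))
   (Bool.rec (motive := fun _ => Nat)
    L70
    L71
    (Nat.ble 9088 i))
   (Nat.ble 8960 i))
  (Nat.ble 8704 i))
 (Bool.rec (motive := fun _ => Nat)
  (Bool.rec (motive := fun _ => Nat)
   (Bool.rec (motive := fun _ => Nat)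
    L72
    L73
    (Nat.ble 9344 i))
   (Bool.rec (motive := fun _ => Nat)
    L74
    L75
    (Nat.ble 9600 i))
   (Nat.ble 9472 i))
  (Bool.rec (motive := fun _ => Nat)
   (Bool.rec (motive := fun _ => Nat)
    L76
    L77
    (Nat.ble 9856 i))
   (Bool.rec (motive := fun _ => Nat)
    L78
    L79
    (Nat.ble 10112 i))
   (Nat.ble 9984 i))
  (Nat.ble 9728 i))
 (Nat.ble 9216 i))

/-- choice of a leaf -/
noncomputable def A0_5 (i : Nat) : Nat :=
 (Bool.rec (motive := fun _ => Nat)
 (Bool.rec (motive := fun _ => Nat)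
  (Bool.rec (motive := fun _ => Nat)
   (Bool.rec (motive := fun _ => Nat)
    L80
    L81
    (Nat.ble 10368 i))
   (Bool.rec (motive := fun _ => Nat)
    L82
    L83
    (Nat.ble 10624 i))
   (Nat.ble 10496 i))
  (Bool.rec (motive := fun _ => Nat)
   (Bool.rec (motive := fun _ => Nat)
    L84
    L85
    (Nat.ble 10880 i))
   (Bool.rec (motive := fun _ => Nat)
    L86
    L87
    (Nat.ble 11136 i))
   (Nat.ble 11008 i))
  (Nat.ble 10752 i))
 (Bool.rec (motive := fun _ => Nat)
  (Bool.rec (motive := fun _ => Nat)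
   (Bool.rec (motive := fun _ => Nat)
    L88
    L89
    (Nat.ble 11392 i))
   (Bool.rec (motive := fun _ => Nat)
    L90
    L91
    (Nat.ble 11648 i))
   (Nat.ble 11520 i))
  (Bool.rec (motive := fun _ => Nat)
   (Bool.rec (motive := fun _ => Nat)
    L92
    L93
    (Nat.ble 11904 i))
   (Bool.rec (motive := fun _ => Nat)
    L94
    L95
    (Nat.ble 12160 i))
   (Nat.ble 12032 i))
  (Nat.ble 11776 i))
 (Nat.ble 11264 i))

/-- choice of a leaf -/
noncomputable def A0_6 (i : Nat) : Nat :=
 (Bool.rec (motive := fun _ => Nat)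
 (Bool.rec (motive := fun _ => Nat)
  (Bool.rec (motive := fun _ => Nat)
   (Bool.rec (motive := fun _ => Nat)
    L96
    L97
    (Nat.ble 12416 i))
   (Bool.rec (motive := fun _ => Nat)
    L98
    L99
    (Nat.ble 12672 i))
   (Nat.ble 12544 i))
  (Bool.rec (motive := fun _ => Nat)
   (Bool.rec (motive := fun _ => Nat)
    L100
    L101
    (Nat.ble 12928 i))
   (Bool.rec (motive := fun _ => Nat)
    L102
    L103
    (Nat.ble 13184 i))
   (Nat.ble 13056 i))
  (Nat.ble 12800 i))
 (Bool.rec (motive := fun _ => Nat)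
  (Bool.rec (motive := fun _ => Nat)
   (Bool.rec (motive := fun _ => Nat)
    L104
    L105
    (Nat.ble 13440 i))
   (Bool.rec (motive := fun _ => Nat)
    L106
    L107
    (Nat.ble 13696 i))
   (Nat.ble 13568 i))
  (Bool.rec (motive := fun _ => Nat)
   (Bool.rec (motive := fun _ => Nat)
    L108
    L109
    (Nat.ble 13952 i))
   (Bool.rec (motive := fun _ => Nat)
    L110
    L111
    (Nat.ble 14208 i))
   (Nat.ble 14080 i))
  (Nat.ble 13824 i))
 (Nat.ble 13312 i))

/-- choice of a leaf -/
noncomputable def A0_7 (i : Nat) : Nat :=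
 (Bool.rec (motive := fun _ => Nat)
 (Bool.rec (motive := fun _ => Nat)
  (Bool.rec (motive := fun _ => Nat)
   (Bool.rec (motive := fun _ => Nat)
    L112
    L113
    (Nat.ble 14464 i))
   (Bool.rec (motive := fun _ => Nat)
    L114
    L115
    (Nat.ble 14720 i))
   (Nat.ble 14592 i))
  (Bool.rec (motive := fun _ => Nat)
   (Bool.rec (motive := fun _ => Nat)
    L116
    L117
    (Nat.ble 14976 i))
   (Bool.rec (motive := fun _ => Nat)
    L118
    L119
    (Nat.ble 15232 i))
   (Nat.ble 15104 i))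
  (Nat.ble 14848 i))
 (Bool.rec (motive := fun _ => Nat)
  (Bool.rec (motive := fun _ => Nat)
   (Bool.rec (motive := fun _ => Nat)
    L120
    L121
    (Nat.ble 15488 i))
   (Bool.rec (motive := fun _ => Nat)
    L122
    L123
    (Nat.ble 15744 i))
   (Nat.ble 15616 i))
  (Bool.rec (motive := fun _ => Nat)
   (Bool.rec (motive := fun _ => Nat)
    L124
    L125
    (Nat.ble 16000 i))
   (Bool.rec (motive := fun _ => Nat)
    L126
    L127
    (Nat.ble 16256 i))
   (Nat.ble 16128 i))
  (Nat.ble 15872 i))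
 (Nat.ble 15360 i))

/-- choice of a leaf -/
noncomputable def A0_8 (i : Nat) : Nat :=
 (Bool.rec (motive := fun _ => Nat)
 (Bool.rec (motive := fun _ => Nat)
  (Bool.rec (motive := fun _ => Nat)
   (Bool.rec (motive := fun _ => Nat)
    L128
    L129
    (Nat.ble 16512 i))
   (Bool.rec (motive := fun _ => Nat)
    L130
    L131
    (Nat.ble 16768 i))
   (Nat.ble 16640 i))
  (Bool.rec (motive := fun _ => Nat)
   (Bool.rec (motive := fun _ => Nat)
    L132
    L133
    (Nat.ble 17024 i))
   (Bool.rec (motive := fun _ => Nat)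
    L134
    L135
    (Nat.ble 17280 i))
   (Nat.ble 17152 i))
  (Nat.ble 16896 i))
 (Bool.rec (motive := fun _ => Nat)
  (Bool.rec (motive := fun _ => Nat)
   (Bool.rec (motive := fun _ => Nat)
    L136
    L137
    (Nat.ble 17536 i))
   (Bool.rec (motive := fun _ => Nat)
    L138
    L139
    (Nat.ble 17792 i))
   (Nat.ble 17664 i))
  (Bool.rec (motive := fun _ => Nat)
   (Bool.rec (motive := fun _ => Nat)
    L140
    L141
    (Nat.ble 18048 i))
   (Bool.rec (motive := fun _ => Nat)
    L142
    L143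
    (Nat.ble 18304 i))
   (Nat.ble 18176 i))
  (Nat.ble 17920 i))
 (Nat.ble 17408 i))

/-- choice of a leaf -/
noncomputable def A0_9 (i : Nat) : Nat :=
 (Bool.rec (motive := fun _ => Nat)
 (Bool.rec (motive := fun _ => Nat)
  (Bool.rec (motive := fun _ => Nat)
   (Bool.rec (motive := fun _ => Nat)
    L144
    L145
    (Nat.ble 18560 i))
   (Bool.rec (motive := fun _ => Nat)
    L146
    L147
    (Nat.ble 18816 i))
   (Nat.ble 18688 i))
  (Bool.rec (motive := fun _ => Nat)
   (Bool.rec (motive := fun _ => Nat)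
    L148
    L149
    (Nat.ble 19072 i))
   (Bool.rec (motive := fun _ => Nat)
    L150
    L151
    (Nat.ble 19328 i))
   (Nat.ble 19200 i))
  (Nat.ble 18944 i))
 (Bool.rec (motive := fun _ => Nat)
  (Bool.rec (motive := fun _ => Nat)
   (Bool.rec (motive := fun _ => Nat)
    L152
    L153
    (Nat.ble 19584 i))
   (Bool.rec (motive := fun _ => Nat)
    L154
    L155
    (Nat.ble 19840 i))
   (Nat.ble 19712 i))
  (Bool.rec (motive := fun _ => Nat)
   (Bool.rec (motive := fun _ => Nat)
    L156
    L157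
    (Nat.ble 20096 i))
   (Bool.rec (motive := fun _ => Nat)
    L158
    L159
    (Nat.ble 20352 i))
   (Nat.ble 20224 i))
  (Nat.ble 19968 i))
 (Nat.ble 19456 i))

/-- choice of a leaf -/
noncomputable def A0_10 (i : Nat) : Nat :=
 (Bool.rec (motive := fun _ => Nat)
 (Bool.rec (motive := fun _ => Nat)
  (Bool.rec (motive := fun _ => Nat)
   (Bool.rec (motive := fun _ => Nat)
    L160
    L161
    (Nat.ble 20608 i))
   (Bool.rec (motive := fun _ => Nat)
    L162
    L163
    (Nat.ble 20864 i))
   (Nat.ble 20736 i))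
  (Bool.rec (motive := fun _ => Nat)
   (Bool.rec (motive := fun _ => Nat)
    L164
    L165
    (Nat.ble 21120 i))
   (Bool.rec (motive := fun _ => Nat)
    L166
    L167
    (Nat.ble 21376 i))
   (Nat.ble 21248 i))
  (Nat.ble 20992 i))
 (Bool.rec (motive := fun _ => Nat)
  (Bool.rec (motive := fun _ => Nat)
   (Bool.rec (motive := fun _ => Nat)
    L168
    L169
    (Nat.ble 21632 i))
   (Bool.rec (motive := fun _ => Nat)
    L170
    L171
    (Nat.ble 21888 i))
   (Nat.ble 21760 i))
  (Bool.rec (motive := fun _ => Nat)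
   (Bool.rec (motive := fun _ => Nat)
    L172
    L173
    (Nat.ble 22144 i))
   (Bool.rec (motive := fun _ => Nat)
    L174
    L175
    (Nat.ble 22400 i))
   (Nat.ble 22272 i))
  (Nat.ble 22016 i))
 (Nat.ble 21504 i))

/-- choice of a leaf -/
noncomputable def A0_11 (i : Nat) : Nat :=
 (Bool.rec (motive := fun _ => Nat)
 (Bool.rec (motive := fun _ => Nat)
  (Bool.rec (motive := fun _ => Nat)
   (Bool.rec (motive := fun _ => Nat)
    L176
    L177
    (Nat.ble 22656 i))
   (Bool.rec (motive := fun _ => Nat)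
    L178
    L179
    (Nat.ble 22912 i))
   (Nat.ble 22784 i))
  (Bool.rec (motive := fun _ => Nat)
   (Bool.rec (motive := fun _ => Nat)
    L180
    L181
    (Nat.ble 23168 i))
   (Bool.rec (motive := fun _ => Nat)
    L182
    L183
    (Nat.ble 23424 i))
   (Nat.ble 23296 i))
  (Nat.ble 23040 i))
 (Bool.rec (motive := fun _ => Nat)
  (Bool.rec (motive := fun _ => Nat)
   (Bool.rec (motive := fun _ => Nat)
    L184
    L185
    (Nat.ble 23680 i))
   (Bool.rec (motive := fun _ => Nat)
    L186
    L187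
    (Nat.ble 23936 i))
   (Nat.ble 23808 i))
  (Bool.rec (motive := fun _ => Nat)
   (Bool.rec (motive := fun _ => Nat)
    L188
    L189
    (Nat.ble 24192 i))
   (Bool.rec (motive := fun _ => Nat)
    L190
    L191
    (Nat.ble 24448 i))
   (Nat.ble 24320 i))
  (Nat.ble 24064 i))
 (Nat.ble 23552 i))

/-- choice of a leaf -/
noncomputable def A0_12 (i : Nat) : Nat :=
 (Bool.rec (motive := fun _ => Nat)
 (Bool.rec (motive := fun _ => Nat)
  (Bool.rec (motive := fun _ => Nat)
   (Bool.rec (motive := fun _ => Nat)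
    L192
    L193
    (Nat.ble 24704 i))
   (Bool.rec (motive := fun _ => Nat)
    L194
    L195
    (Nat.ble 24960 i))
   (Nat.ble 24832 i))
  (Bool.rec (motive := fun _ => Nat)
   (Bool.rec (motive := fun _ => Nat)
    L196
    L197
    (Nat.ble 25216 i))
   (Bool.rec (motive := fun _ => Nat)
    L198
    L199
    (Nat.ble 25472 i))
   (Nat.ble 25344 i))
  (Nat.ble 25088 i))
 (Bool.rec (motive := fun _ => Nat)
  (Bool.rec (motive := fun _ => Nat)
   (Bool.rec (motive := fun _ => Nat)
    L200
    L201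
    (Nat.ble 25728 i))
   (Bool.rec (motive := fun _ => Nat)
    L202
    L203
    (Nat.ble 25984 i))
   (Nat.ble 25856 i))
  (Bool.rec (motive := fun _ => Nat)
   (Bool.rec (motive := fun _ => Nat)
    L204
    L205
    (Nat.ble 26240 i))
   (Bool.rec (motive := fun _ => Nat)
    L206
    L207
    (Nat.ble 26496 i))
   (Nat.ble 26368 i))
  (Nat.ble 26112 i))
 (Nat.ble 25600 i))

/-- choice of a leaf -/
noncomputable def A0_13 (i : Nat) : Nat :=
 (Bool.rec (motive := fun _ => Nat)
 (Bool.rec (motive := fun _ => Nat)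
  (Bool.rec (motive := fun _ => Nat)
   (Bool.rec (motive := fun _ => Nat)
    L208
    L209
    (Nat.ble 26752 i))
   (Bool.rec (motive := fun _ => Nat)
    L210
    L211
    (Nat.ble 27008 i))
   (Nat.ble 26880 i))
  (Bool.rec (motive := fun _ => Nat)
   (Bool.rec (motive := fun _ => Nat)
    L212
    L213
    (Nat.ble 27264 i))
   (Bool.rec (motive := fun _ => Nat)
    L214
    L215
    (Nat.ble 27520 i))
   (Nat.ble 27392 i))
  (Nat.ble 27136 i))
 (Bool.rec (motive := fun _ => Nat)
  (Bool.rec (motive := fun _ => Nat)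
   (Bool.rec (motive := fun _ => Nat)
    L216
    L217
    (Nat.ble 27776 i))
   (Bool.rec (motive := fun _ => Nat)
    L218
    L219
    (Nat.ble 28032 i))
   (Nat.ble 27904 i))
  (Bool.rec (motive := fun _ => Nat)
   (Bool.rec (motive := fun _ => Nat)
    L220
    L221
    (Nat.ble 28288 i))
   (Bool.rec (motive := fun _ => Nat)
    L222
    L223
    (Nat.ble 28544 i))
   (Nat.ble 28416 i))
  (Nat.ble 28160 i))
 (Nat.ble 27648 i))

/-- choice of a leaf -/
noncomputable def A0_14 (i : Nat) : Nat :=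
 (Bool.rec (motive := fun _ => Nat)
 (Bool.rec (motive := fun _ => Nat)
  (Bool.rec (motive := fun _ => Nat)
   (Bool.rec (motive := fun _ => Nat)
    L224
    L225
    (Nat.ble 28800 i))
   (Bool.rec (motive := fun _ => Nat)
    L226
    L227
    (Nat.ble 29056 i))
   (Nat.ble 28928 i))
  (Bool.rec (motive := fun _ => Nat)
   (Bool.rec (motive := fun _ => Nat)
    L228
    L229
    (Nat.ble 29312 i))
   (Bool.rec (motive := fun _ => Nat)
    L230
    L231
    (Nat.ble 29568 i))
   (Nat.ble 29440 i))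
  (Nat.ble 29184 i))
 (Bool.rec (motive := fun _ => Nat)
  (Bool.rec (motive := fun _ => Nat)
   (Bool.rec (motive := fun _ => Nat)
    L232
    L233
    (Nat.ble 29824 i))
   (Bool.rec (motive := fun _ => Nat)
    L234
    L235
    (Nat.ble 30080 i))
   (Nat.ble 29952 i))
  (Bool.rec (motive := fun _ => Nat)
   (Bool.rec (motive := fun _ => Nat)
    L236
    L237
    (Nat.ble 30336 i))
   (Bool.rec (motive := fun _ => Nat)
    L238
    L239
    (Nat.ble 30592 i))
   (Nat.ble 30464 i))
  (Nat.ble 30208 i))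
 (Nat.ble 29696 i))

/-- choice of a leaf -/
noncomputable def A0_15 (i : Nat) : Nat :=
 (Bool.rec (motive := fun _ => Nat)
 (Bool.rec (motive := fun _ => Nat)
  (Bool.rec (motive := fun _ => Nat)
   (Bool.rec (motive := fun _ => Nat)
    L240
    L241
    (Nat.ble 30848 i))
   (Bool.rec (motive := fun _ => Nat)
    L242
    L243
    (Nat.ble 31104 i))
   (Nat.ble 30976 i))
  (Bool.rec (motive := fun _ => Nat)
   (Bool.rec (motive := fun _ => Nat)
    L244
    L245
    (Nat.ble 31360 i))
   (Bool.rec (motive := fun _ => Nat)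
    L246
    L247
    (Nat.ble 31616 i))
   (Nat.ble 31488 i))
  (Nat.ble 31232 i))
 (Bool.rec (motive := fun _ => Nat)
  (Bool.rec (motive := fun _ => Nat)
   (Bool.rec (motive := fun _ => Nat)
    L248
    L249
    (Nat.ble 31872 i))
   (Bool.rec (motive := fun _ => Nat)
    L250
    L251
    (Nat.ble 32128 i))
   (Nat.ble 32000 i))
  (Bool.rec (motive := fun _ => Nat)
   (Bool.rec (motive := fun _ => Nat)
    L252
    L253
    (Nat.ble 32384 i))
   (Bool.rec (motive := fun _ => Nat)
    L254
    L255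
    (Nat.ble 32640 i))
   (Nat.ble 32512 i))
  (Nat.ble 32256 i))
 (Nat.ble 31744 i))

/-- choice of a leaf -/
noncomputable def A0_16 (i : Nat) : Nat :=
 (Bool.rec (motive := fun _ => Nat)
 (Bool.rec (motive := fun _ => Nat)
  (Bool.rec (motive := fun _ => Nat)
   (Bool.rec (motive := fun _ => Nat)
    L256
    L257
    (Nat.ble 32896 i))
   (Bool.rec (motive := fun _ => Nat)
    L258
    L259
    (Nat.ble 33152 i))
   (Nat.ble 33024 i))
  (Bool.rec (motive := fun _ => Nat)
   (Bool.rec (motive := fun _ => Nat)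
    L260
    L261
    (Nat.ble 33408 i))
   (Bool.rec (motive := fun _ => Nat)
    L262
    L263
    (Nat.ble 33664 i))
   (Nat.ble 33536 i))
  (Nat.ble 33280 i))
 (Bool.rec (motive := fun _ => Nat)
  (Bool.rec (motive := fun _ => Nat)
   (Bool.rec (motive := fun _ => Nat)
    L264
    L265
    (Nat.ble 33920 i))
   (Bool.rec (motive := fun _ => Nat)
    L266
    L267
    (Nat.ble 34176 i))
   (Nat.ble 34048 i))
  (Bool.rec (motive := fun _ => Nat)
   (Bool.rec (motive := fun _ => Nat)
    L268
    L269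
    (Nat.ble 34432 i))
   (Bool.rec (motive := fun _ => Nat)
    L270
    L271
    (Nat.ble 34688 i))
   (Nat.ble 34560 i))
  (Nat.ble 34304 i))
 (Nat.ble 33792 i))

/-- choice of a leaf -/
noncomputable def A0_17 (i : Nat) : Nat :=
 (Bool.rec (motive := fun _ => Nat)
 (Bool.rec (motive := fun _ => Nat)
  (Bool.rec (motive := fun _ => Nat)
   (Bool.rec (motive := fun _ => Nat)
    L272
    L273
    (Nat.ble 34944 i))
   (Bool.rec (motive := fun _ => Nat)
    L274
    L275
    (Nat.ble 35200 i))
   (Nat.ble 35072 i))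
  (Bool.rec (motive := fun _ => Nat)
   (Bool.rec (motive := fun _ => Nat)
    L276
    L277
    (Nat.ble 35456 i))
   (Bool.rec (motive := fun _ => Nat)
    L278
    L279
    (Nat.ble 35712 i))
   (Nat.ble 35584 i))
  (Nat.ble 35328 i))
 (Bool.rec (motive := fun _ => Nat)
  (Bool.rec (motive := fun _ => Nat)
   (Bool.rec (motive := fun _ => Nat)
    L280
    L281
    (Nat.ble 35968 i))
   (Bool.rec (motive := fun _ => Nat)
    L282
    L283
    (Nat.ble 36224 i))
   (Nat.ble 36096 i))
  (Bool.rec (motive := fun _ => Nat)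
   (Bool.rec (motive := fun _ => Nat)
    L284
    L285
    (Nat.ble 36480 i))
   (Bool.rec (motive := fun _ => Nat)
    L286
    L287
    (Nat.ble 36736 i))
   (Nat.ble 36608 i))
  (Nat.ble 36352 i))
 (Nat.ble 35840 i))

/-- choice of a leaf -/
noncomputable def A0_18 (i : Nat) : Nat :=
 (Bool.rec (motive := fun _ => Nat)
 (Bool.rec (motive := fun _ => Nat)
  (Bool.rec (motive := fun _ => Nat)
   (Bool.rec (motive := fun _ => Nat)
    L288
    L289
    (Nat.ble 36992 i))
   (Bool.rec (motive := fun _ => Nat)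
    L290
    L291
    (Nat.ble 37248 i))
   (Nat.ble 37120 i))
  (Bool.rec (motive := fun _ => Nat)
   (Bool.rec (motive := fun _ => Nat)
    L292
    L293
    (Nat.ble 37504 i))
   (Bool.rec (motive := fun _ => Nat)
    L294
    L295
    (Nat.ble 37760 i))
   (Nat.ble 37632 i))
  (Nat.ble 37376 i))
 (Bool.rec (motive := fun _ => Nat)
  (Bool.rec (motive := fun _ => Nat)
   (Bool.rec (motive := fun _ => Nat)
    L296
    L297
    (Nat.ble 38016 i))
   (Bool.rec (motive := fun _ => Nat)
    L298
    L299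
    (Nat.ble 38272 i))
   (Nat.ble 38144 i))
  (Bool.rec (motive := fun _ => Nat)
   (Bool.rec (motive := fun _ => Nat)
    L300
    L301
    (Nat.ble 38528 i))
   (Bool.rec (motive := fun _ => Nat)
    L302
    L303
    (Nat.ble 38784 i))
   (Nat.ble 38656 i))
  (Nat.ble 38400 i))
 (Nat.ble 37888 i))

/-- choice of a leaf -/
noncomputable def A0_19 (i : Nat) : Nat :=
 (Bool.rec (motive := fun _ => Nat)
 (Bool.rec (motive := fun _ => Nat)
  (Bool.rec (motive := fun _ => Nat)
   (Bool.rec (motive := fun _ => Nat)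
    L304
    L305
    (Nat.ble 39040 i))
   (Bool.rec (motive := fun _ => Nat)
    L306
    L307
    (Nat.ble 39296 i))
   (Nat.ble 39168 i))
  (Bool.rec (motive := fun _ => Nat)
   (Bool.rec (motive := fun _ => Nat)
    L308
    L309
    (Nat.ble 39552 i))
   (Bool.rec (motive := fun _ => Nat)
    L310
    L311
    (Nat.ble 39808 i))
   (Nat.ble 39680 i))
  (Nat.ble 39424 i))
 (Bool.rec (motive := fun _ => Nat)
  (Bool.rec (motive := fun _ => Nat)
   (Bool.rec (motive := fun _ => Nat)
    L312
    L313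
    (Nat.ble 40064 i))
   (Bool.rec (motive := fun _ => Nat)
    L314
    L315
    (Nat.ble 40320 i))
   (Nat.ble 40192 i))
  (Bool.rec (motive := fun _ => Nat)
   (Bool.rec (motive := fun _ => Nat)
    L316
    L317
    (Nat.ble 40576 i))
   (Bool.rec (motive := fun _ => Nat)
    L318
    L319
    (Nat.ble 40832 i))
   (Nat.ble 40704 i))
  (Nat.ble 40448 i))
 (Nat.ble 39936 i))

/-- choice of a leaf -/
noncomputable def A0_20 (i : Nat) : Nat :=
 (Bool.rec (motive := fun _ => Nat)
 (Bool.rec (motive := fun _ => Nat)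
  (Bool.rec (motive := fun _ => Nat)
   (Bool.rec (motive := fun _ => Nat)
    L320
    L321
    (Nat.ble 41088 i))
   (Bool.rec (motive := fun _ => Nat)
    L322
    L323
    (Nat.ble 41344 i))
   (Nat.ble 41216 i))
  (Bool.rec (motive := fun _ => Nat)
   (Bool.rec (motive := fun _ => Nat)
    L324
    L325
    (Nat.ble 41600 i))
   (Bool.rec (motive := fun _ => Nat)
    L326
    L327
    (Nat.ble 41856 i))
   (Nat.ble 41728 i))
  (Nat.ble 41472 i))
 (Bool.rec (motive := fun _ => Nat)
  (Bool.rec (motive := fun _ => Nat)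
   (Bool.rec (motive := fun _ => Nat)
    L328
    L329
    (Nat.ble 42112 i))
   (Bool.rec (motive := fun _ => Nat)
    L330
    L331
    (Nat.ble 42368 i))
   (Nat.ble 42240 i))
  (Bool.rec (motive := fun _ => Nat)
   (Bool.rec (motive := fun _ => Nat)
    L332
    L333
    (Nat.ble 42624 i))
   (Bool.rec (motive := fun _ => Nat)
    L334
    L335
    (Nat.ble 42880 i))
   (Nat.ble 42752 i))
  (Nat.ble 42496 i))
 (Nat.ble 41984 i))

/-- choice of a leaf -/
noncomputable def A0_21 (i : Nat) : Nat :=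
 (Bool.rec (motive := fun _ => Nat)
 (Bool.rec (motive := fun _ => Nat)
  (Bool.rec (motive := fun _ => Nat)
   (Bool.rec (motive := fun _ => Nat)
    L336
    L337
    (Nat.ble 43136 i))
   (Bool.rec (motive := fun _ => Nat)
    L338
    L339
    (Nat.ble 43392 i))
   (Nat.ble 43264 i))
  (Bool.rec (motive := fun _ => Nat)
   (Bool.rec (motive := fun _ => Nat)
    L340
    L341
    (Nat.ble 43648 i))
   (Bool.rec (motive := fun _ => Nat)
    L342
    L343
    (Nat.ble 43904 i))
   (Nat.ble 43776 i))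
  (Nat.ble 43520 i))
 (Bool.rec (motive := fun _ => Nat)
  (Bool.rec (motive := fun _ => Nat)
   (Bool.rec (motive := fun _ => Nat)
    L344
    L345
    (Nat.ble 44160 i))
   (Bool.rec (motive := fun _ => Nat)
    L346
    L347
    (Nat.ble 44416 i))
   (Nat.ble 44288 i))
  (Bool.rec (motive := fun _ => Nat)
   (Bool.rec (motive := fun _ => Nat)
    L348
    L349
    (Nat.ble 44672 i))
   (Bool.rec (motive := fun _ => Nat)
    L350
    L351
    (Nat.ble 44928 i))
   (Nat.ble 44800 i))
  (Nat.ble 44544 i))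
 (Nat.ble 44032 i))

/-- choice of a leaf -/
noncomputable def A0_22 (i : Nat) : Nat :=
 (Bool.rec (motive := fun _ => Nat)
 (Bool.rec (motive := fun _ => Nat)
  (Bool.rec (motive := fun _ => Nat)
   (Bool.rec (motive := fun _ => Nat)
    L352
    L353
    (Nat.ble 45184 i))
   (Bool.rec (motive := fun _ => Nat)
    L354
    L355
    (Nat.ble 45440 i))
   (Nat.ble 45312 i))
  (Bool.rec (motive := fun _ => Nat)
   (Bool.rec (motive := fun _ => Nat)
    L356
    L357
    (Nat.ble 45696 i))
   (Bool.rec (motive := fun _ => Nat)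
    L358
    L359
    (Nat.ble 45952 i))
   (Nat.ble 45824 i))
  (Nat.ble 45568 i))
 (Bool.rec (motive := fun _ => Nat)
  (Bool.rec (motive := fun _ => Nat)
   (Bool.rec (motive := fun _ => Nat)
    L360
    L361
    (Nat.ble 46208 i))
   (Bool.rec (motive := fun _ => Nat)
    L362
    L363
    (Nat.ble 46464 i))
   (Nat.ble 46336 i))
  (Bool.rec (motive := fun _ => Nat)
   (Bool.rec (motive := fun _ => Nat)
    L364
    L365
    (Nat.ble 46720 i))
   (Bool.rec (motive := fun _ => Nat)
    L366
    L367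
    (Nat.ble 46976 i))
   (Nat.ble 46848 i))
  (Nat.ble 46592 i))
 (Nat.ble 46080 i))

/-- choice of a leaf -/
noncomputable def A0_23 (i : Nat) : Nat :=
 (Bool.rec (motive := fun _ => Nat)
 (Bool.rec (motive := fun _ => Nat)
  (Bool.rec (motive := fun _ => Nat)
   (Bool.rec (motive := fun _ => Nat)
    L368
    L369
    (Nat.ble 47232 i))
   (Bool.rec (motive := fun _ => Nat)
    L370
    L371
    (Nat.ble 47488 i))
   (Nat.ble 47360 i))
  (Bool.rec (motive := fun _ => Nat)
   (Bool.rec (motive := fun _ => Nat)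
    L372
    L373
    (Nat.ble 47744 i))
   (Bool.rec (motive := fun _ => Nat)
    L374
    L375
    (Nat.ble 48000 i))
   (Nat.ble 47872 i))
  (Nat.ble 47616 i))
 (Bool.rec (motive := fun _ => Nat)
  (Bool.rec (motive := fun _ => Nat)
   (Bool.rec (motive := fun _ => Nat)
    L376
    L377
    (Nat.ble 48256 i))
   (Bool.rec (motive := fun _ => Nat)
    L378
    L379
    (Nat.ble 48512 i))
   (Nat.ble 48384 i))
  (Bool.rec (motive := fun _ => Nat)
   (Bool.rec (motive := fun _ => Nat)
    L380
    L381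
    (Nat.ble 48768 i))
   (Bool.rec (motive := fun _ => Nat)
    L382
    L383
    (Nat.ble 49024 i))
   (Nat.ble 48896 i))
  (Nat.ble 48640 i))
 (Nat.ble 48128 i))

/-- choice of a leaf -/
noncomputable def A0_24 (i : Nat) : Nat :=
 (Bool.rec (motive := fun _ => Nat)
 (Bool.rec (motive := fun _ => Nat)
  (Bool.rec (motive := fun _ => Nat)
   (Bool.rec (motive := fun _ => Nat)
    L384
    L385
    (Nat.ble 49280 i))
   (Bool.rec (motive := fun _ => Nat)
    L386
    L387
    (Nat.ble 49536 i))
   (Nat.ble 49408 i))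
  (Bool.rec (motive := fun _ => Nat)
   (Bool.rec (motive := fun _ => Nat)
    L388
    L389
    (Nat.ble 49792 i))
   (Bool.rec (motive := fun _ => Nat)
    L390
    L391
    (Nat.ble 50048 i))
   (Nat.ble 49920 i))
  (Nat.ble 49664 i))
 (Bool.rec (motive := fun _ => Nat)
  (Bool.rec (motive := fun _ => Nat)
   (Bool.rec (motive := fun _ => Nat)
    L392
    L393
    (Nat.ble 50304 i))
   (Bool.rec (motive := fun _ => Nat)
    L394
    L395
    (Nat.ble 50560 i))
   (Nat.ble 50432 i))
  (Bool.rec (motive := fun _ => Nat)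
   (Bool.rec (motive := fun _ => Nat)
    L396
    L397
    (Nat.ble 50816 i))
   (Bool.rec (motive := fun _ => Nat)
    L398
    L399
    (Nat.ble 51072 i))
   (Nat.ble 50944 i))
  (Nat.ble 50688 i))
 (Nat.ble 50176 i))

/-- choice of a leaf -/
noncomputable def A0_25 (i : Nat) : Nat :=
 (Bool.rec (motive := fun _ => Nat)
 (Bool.rec (motive := fun _ => Nat)
  (Bool.rec (motive := fun _ => Nat)
   (Bool.rec (motive := fun _ => Nat)
    L400
    L401
    (Nat.ble 51328 i))
   (Bool.rec (motive := fun _ => Nat)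
    L402
    L403
    (Nat.ble 51584 i))
   (Nat.ble 51456 i))
  (Bool.rec (motive := fun _ => Nat)
   (Bool.rec (motive := fun _ => Nat)
    L404
    L405
    (Nat.ble 51840 i))
   (Bool.rec (motive := fun _ => Nat)
    L406
    L407
    (Nat.ble 52096 i))
   (Nat.ble 51968 i))
  (Nat.ble 51712 i))
 (Bool.rec (motive := fun _ => Nat)
  (Bool.rec (motive := fun _ => Nat)
   (Bool.rec (motive := fun _ => Nat)
    L408
    L409
    (Nat.ble 52352 i))
   (Bool.rec (motive := fun _ => Nat)
    L410
    L411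
    (Nat.ble 52608 i))
   (Nat.ble 52480 i))
  (Bool.rec (motive := fun _ => Nat)
   (Bool.rec (motive := fun _ => Nat)
    L412
    L413
    (Nat.ble 52864 i))
   (Bool.rec (motive := fun _ => Nat)
    L414
    L415
    (Nat.ble 53120 i))
   (Nat.ble 52992 i))
  (Nat.ble 52736 i))
 (Nat.ble 52224 i))

/-- choice of a leaf -/
noncomputable def A0_26 (i : Nat) : Nat :=
 (Bool.rec (motive := fun _ => Nat)
 (Bool.rec (motive := fun _ => Nat)
  (Bool.rec (motive := fun _ => Nat)
   (Bool.rec (motive := fun _ => Nat)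
    L416
    L417
    (Nat.ble 53376 i))
   (Bool.rec (motive := fun _ => Nat)
    L418
    L419
    (Nat.ble 53632 i))
   (Nat.ble 53504 i))
  (Bool.rec (motive := fun _ => Nat)
   (Bool.rec (motive := fun _ => Nat)
    L420
    L421
    (Nat.ble 53888 i))
   (Bool.rec (motive := fun _ => Nat)
    L422
    L423
    (Nat.ble 54144 i))
   (Nat.ble 54016 i))
  (Nat.ble 53760 i))
 (Bool.rec (motive := fun _ => Nat)
  (Bool.rec (motive := fun _ => Nat)
   (Bool.rec (motive := fun _ => Nat)
    L424
    L425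
    (Nat.ble 54400 i))
   (Bool.rec (motive := fun _ => Nat)
    L426
    L427
    (Nat.ble 54656 i))
   (Nat.ble 54528 i))
  (Bool.rec (motive := fun _ => Nat)
   (Bool.rec (motive := fun _ => Nat)
    L428
    L429
    (Nat.ble 54912 i))
   (Bool.rec (motive := fun _ => Nat)
    L430
    L431
    (Nat.ble 55168 i))
   (Nat.ble 55040 i))
  (Nat.ble 54784 i))
 (Nat.ble 54272 i))

/-- choice of a leaf -/
noncomputable def A0_27 (i : Nat) : Nat :=
 (Bool.rec (motive := fun _ => Nat)
 (Bool.rec (motive := fun _ => Nat)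
  (Bool.rec (motive := fun _ => Nat)
   (Bool.rec (motive := fun _ => Nat)
    L432
    L433
    (Nat.ble 55424 i))
   (Bool.rec (motive := fun _ => Nat)
    L434
    L435
    (Nat.ble 55680 i))
   (Nat.ble 55552 i))
  (Bool.rec (motive := fun _ => Nat)
   (Bool.rec (motive := fun _ => Nat)
    L436
    L437
    (Nat.ble 55936 i))
   (Bool.rec (motive := fun _ => Nat)
    L438
    L439
    (Nat.ble 56192 i))
   (Nat.ble 56064 i))
  (Nat.ble 55808 i))
 (Bool.rec (motive := fun _ => Nat)
  (Bool.rec (motive := fun _ => Nat)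
   (Bool.rec (motive := fun _ => Nat)
    L440
    L441
    (Nat.ble 56448 i))
   (Bool.rec (motive := fun _ => Nat)
    L442
    L443
    (Nat.ble 56704 i))
   (Nat.ble 56576 i))
  (Bool.rec (motive := fun _ => Nat)
   (Bool.rec (motive := fun _ => Nat)
    L444
    L445
    (Nat.ble 56960 i))
   (Bool.rec (motive := fun _ => Nat)
    L446
    L447
    (Nat.ble 57216 i))
   (Nat.ble 57088 i))
  (Nat.ble 56832 i))
 (Nat.ble 56320 i))

/-- choice of a leaf -/
noncomputable def A0_28 (i : Nat) : Nat :=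
 (Bool.rec (motive := fun _ => Nat)
 (Bool.rec (motive := fun _ => Nat)
  (Bool.rec (motive := fun _ => Nat)
   (Bool.rec (motive := fun _ => Nat)
    L448
    L449
    (Nat.ble 57472 i))
   (Bool.rec (motive := fun _ => Nat)
    L450
    L451
    (Nat.ble 57728 i))
   (Nat.ble 57600 i))
  (Bool.rec (motive := fun _ => Nat)
   (Bool.rec (motive := fun _ => Nat)
    L452
    L453
    (Nat.ble 57984 i))
   (Bool.rec (motive := fun _ => Nat)
    L454
    L455
    (Nat.ble 58240 i))
   (Nat.ble 58112 i))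
  (Nat.ble 57856 i))
 (Bool.rec (motive := fun _ => Nat)
  (Bool.rec (motive := fun _ => Nat)
   (Bool.rec (motive := fun _ => Nat)
    L456
    L457
    (Nat.ble 58496 i))
   (Bool.rec (motive := fun _ => Nat)
    L458
    L459
    (Nat.ble 58752 i))
   (Nat.ble 58624 i))
  (Bool.rec (motive := fun _ => Nat)
   (Bool.rec (motive := fun _ => Nat)
    L460
    L461
    (Nat.ble 59008 i))
   (Bool.rec (motive := fun _ => Nat)
    L462
    L463
    (Nat.ble 59264 i))
   (Nat.ble 59136 i))
  (Nat.ble 58880 i))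
 (Nat.ble 58368 i))

/-- choice of a leaf -/
noncomputable def A0_29 (i : Nat) : Nat :=
 (Bool.rec (motive := fun _ => Nat)
 (Bool.rec (motive := fun _ => Nat)
  (Bool.rec (motive := fun _ => Nat)
   (Bool.rec (motive := fun _ => Nat)
    L464
    L465
    (Nat.ble 59520 i))
   (Bool.rec (motive := fun _ => Nat)
    L466
    L467
    (Nat.ble 59776 i))
   (Nat.ble 59648 i))
  (Bool.rec (motive := fun _ => Nat)
   (Bool.rec (motive := fun _ => Nat)
    L468
    L469
    (Nat.ble 60032 i))
   (Bool.rec (motive := fun _ => Nat)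
    L470
    L471
    (Nat.ble 60288 i))
   (Nat.ble 60160 i))
  (Nat.ble 59904 i))
 (Bool.rec (motive := fun _ => Nat)
  (Bool.rec (motive := fun _ => Nat)
   (Bool.rec (motive := fun _ => Nat)
    L472
    L473
    (Nat.ble 60544 i))
   (Bool.rec (motive := fun _ => Nat)
    L474
    L475
    (Nat.ble 60800 i))
   (Nat.ble 60672 i))
  (Bool.rec (motive := fun _ => Nat)
   (Bool.rec (motive := fun _ => Nat)
    L476
    L477
    (Nat.ble 61056 i))
   (Bool.rec (motive := fun _ => Nat)
    L478
    L479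
    (Nat.ble 61312 i))
   (Nat.ble 61184 i))
  (Nat.ble 60928 i))
 (Nat.ble 60416 i))

/-- choice of a leaf -/
noncomputable def A0_30 (i : Nat) : Nat :=
 (Bool.rec (motive := fun _ => Nat)
 (Bool.rec (motive := fun _ => Nat)
  (Bool.rec (motive := fun _ => Nat)
   (Bool.rec (motive := fun _ => Nat)
    L480
    L481
    (Nat.ble 61568 i))
   (Bool.rec (motive := fun _ => Nat)
    L482
    L483
    (Nat.ble 61824 i))
   (Nat.ble 61696 i))
  (Bool.rec (motive := fun _ => Nat)
   (Bool.rec (motive := fun _ => Nat)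
    L484
    L485
    (Nat.ble 62080 i))
   (Bool.rec (motive := fun _ => Nat)
    L486
    L487
    (Nat.ble 62336 i))
   (Nat.ble 62208 i))
  (Nat.ble 61952 i))
 (Bool.rec (motive := fun _ => Nat)
  (Bool.rec (motive := fun _ => Nat)
   (Bool.rec (motive := fun _ => Nat)
    L488
    L489
    (Nat.ble 62592 i))
   (Bool.rec (motive := fun _ => Nat)
    L490
    L491
    (Nat.ble 62848 i))
   (Nat.ble 62720 i))
  (Bool.rec (motive := fun _ => Nat)
   (Bool.rec (motive := fun _ => Nat)
    L492
    L493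
    (Nat.ble 63104 i))
   (Bool.rec (motive := fun _ => Nat)
    L494
    L495
    (Nat.ble 63360 i))
   (Nat.ble 63232 i))
  (Nat.ble 62976 i))
 (Nat.ble 62464 i))

/-- choice of a leaf -/
noncomputable def A0_31 (i : Nat) : Nat :=
 (Bool.rec (motive := fun _ => Nat)
 (Bool.rec (motive := fun _ => Nat)
  (Bool.rec (motive := fun _ => Nat)
   (Bool.rec (motive := fun _ => Nat)
    L496
    L497
    (Nat.ble 63616 i))
   (Bool.rec (motive := fun _ => Nat)
    L498
    L499
    (Nat.ble 63872 i))
   (Nat.ble 63744 i))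
  (Bool.rec (motive := fun _ => Nat)
   (Bool.rec (motive := fun _ => Nat)
    L500
    L501
    (Nat.ble 64128 i))
   (Bool.rec (motive := fun _ => Nat)
    L502
    L503
    (Nat.ble 64384 i))
   (Nat.ble 64256 i))
  (Nat.ble 64000 i))
 (Bool.rec (motive := fun _ => Nat)
  (Bool.rec (motive := fun _ => Nat)
   (Bool.rec (motive := fun _ => Nat)
    L504
    L505
    (Nat.ble 64640 i))
   (Bool.rec (motive := fun _ => Nat)
    L506
    L507
    (Nat.ble 64896 i))
   (Nat.ble 64768 i))
  (Bool.rec (motive := fun _ => Nat)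
   (Bool.rec (motive := fun _ => Nat)
    L508
    L509
    (Nat.ble 65152 i))
   (Bool.rec (motive := fun _ => Nat)
    L510
    L511
    (Nat.ble 65408 i))
   (Nat.ble 65280 i))
  (Nat.ble 65024 i))
 (Nat.ble 64512 i))

/-- choice of a leaf -/
noncomputable def A0_32 (i : Nat) : Nat :=
 (Bool.rec (motive := fun _ => Nat)
 (Bool.rec (motive := fun _ => Nat)
  (Bool.rec (motive := fun _ => Nat)
   (Bool.rec (motive := fun _ => Nat)
    L512
    L513
    (Nat.ble 65664 i))
   (Bool.rec (motive := fun _ => Nat)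
    L514
    L515
    (Nat.ble 65920 i))
   (Nat.ble 65792 i))
  (Bool.rec (motive := fun _ => Nat)
   (Bool.rec (motive := fun _ => Nat)
    L516
    L517
    (Nat.ble 66176 i))
   (Bool.rec (motive := fun _ => Nat)
    L518
    L519
    (Nat.ble 66432 i))
   (Nat.ble 66304 i))
  (Nat.ble 66048 i))
 (Bool.rec (motive := fun _ => Nat)
  (Bool.rec (motive := fun _ => Nat)
   (Bool.rec (motive := fun _ => Nat)
    L520
    L521
    (Nat.ble 66688 i))
   (Bool.rec (motive := fun _ => Nat)
    L522
    L523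
    (Nat.ble 66944 i))
   (Nat.ble 66816 i))
  (Bool.rec (motive := fun _ => Nat)
   (Bool.rec (motive := fun _ => Nat)
    L524
    L525
    (Nat.ble 67200 i))
   (Bool.rec (motive := fun _ => Nat)
    L526
    L527
    (Nat.ble 67456 i))
   (Nat.ble 67328 i))
  (Nat.ble 67072 i))
 (Nat.ble 66560 i))

/-- choice of a leaf -/
noncomputable def A0_33 (i : Nat) : Nat :=
 (Bool.rec (motive := fun _ => Nat)
 (Bool.rec (motive := fun _ => Nat)
  (Bool.rec (motive := fun _ => Nat)
   (Bool.rec (motive := fun _ => Nat)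
    L528
    L529
    (Nat.ble 67712 i))
   (Bool.rec (motive := fun _ => Nat)
    L530
    L531
    (Nat.ble 67968 i))
   (Nat.ble 67840 i))
  (Bool.rec (motive := fun _ => Nat)
   (Bool.rec (motive := fun _ => Nat)
    L532
    L533
    (Nat.ble 68224 i))
   (Bool.rec (motive := fun _ => Nat)
    L534
    L535
    (Nat.ble 68480 i))
   (Nat.ble 68352 i))
  (Nat.ble 68096 i))
 (Bool.rec (motive := fun _ => Nat)
  (Bool.rec (motive := fun _ => Nat)
   (Bool.rec (motive := fun _ => Nat)
    L536
    L537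
    (Nat.ble 68736 i))
   (Bool.rec (motive := fun _ => Nat)
    L538
    L539
    (Nat.ble 68992 i))
   (Nat.ble 68864 i))
  (Bool.rec (motive := fun _ => Nat)
   (Bool.rec (motive := fun _ => Nat)
    L540
    L541
    (Nat.ble 69248 i))
   (Bool.rec (motive := fun _ => Nat)
    L542
    L543
    (Nat.ble 69504 i))
   (Nat.ble 69376 i))
  (Nat.ble 69120 i))
 (Nat.ble 68608 i))

/-- choice of a leaf -/
noncomputable def A0_34 (i : Nat) : Nat :=
 (Bool.rec (motive := fun _ => Nat)
 (Bool.rec (motive := fun _ => Nat)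
  (Bool.rec (motive := fun _ => Nat)
   (Bool.rec (motive := fun _ => Nat)
    L544
    L545
    (Nat.ble 69760 i))
   (Bool.rec (motive := fun _ => Nat)
    L546
    L547
    (Nat.ble 70016 i))
   (Nat.ble 69888 i))
  (Bool.rec (motive := fun _ => Nat)
   (Bool.rec (motive := fun _ => Nat)
    L548
    L549
    (Nat.ble 70272 i))
   (Bool.rec (motive := fun _ => Nat)
    L550
    L551
    (Nat.ble 70528 i))
   (Nat.ble 70400 i))
  (Nat.ble 70144 i))
 (Bool.rec (motive := fun _ => Nat)
  (Bool.rec (motive := fun _ => Nat)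
   (Bool.rec (motive := fun _ => Nat)
    L552
    L553
    (Nat.ble 70784 i))
   (Bool.rec (motive := fun _ => Nat)
    L554
    L555
    (Nat.ble 71040 i))
   (Nat.ble 70912 i))
  (Bool.rec (motive := fun _ => Nat)
   (Bool.rec (motive := fun _ => Nat)
    L556
    L557
    (Nat.ble 71296 i))
   (Bool.rec (motive := fun _ => Nat)
    L558
    L559
    (Nat.ble 71552 i))
   (Nat.ble 71424 i))
  (Nat.ble 71168 i))
 (Nat.ble 70656 i))

/-- choice of a leaf -/
noncomputable def A0_35 (i : Nat) : Nat :=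
 (Bool.rec (motive := fun _ => Nat)
 (Bool.rec (motive := fun _ => Nat)
  (Bool.rec (motive := fun _ => Nat)
   (Bool.rec (motive := fun _ => Nat)
    L560
    L561
    (Nat.ble 71808 i))
   (Bool.rec (motive := fun _ => Nat)
    L562
    L563
    (Nat.ble 72064 i))
   (Nat.ble 71936 i))
  (Bool.rec (motive := fun _ => Nat)
   (Bool.rec (motive := fun _ => Nat)
    L564
    L565
    (Nat.ble 72320 i))
   (Bool.rec (motive := fun _ => Nat)
    L566
    L567
    (Nat.ble 72576 i))
   (Nat.ble 72448 i))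
  (Nat.ble 72192 i))
 (Bool.rec (motive := fun _ => Nat)
  (Bool.rec (motive := fun _ => Nat)
   (Bool.rec (motive := fun _ => Nat)
    L568
    L569
    (Nat.ble 72832 i))
   (Bool.rec (motive := fun _ => Nat)
    L570
    L571
    (Nat.ble 73088 i))
   (Nat.ble 72960 i))
  (Bool.rec (motive := fun _ => Nat)
   (Bool.rec (motive := fun _ => Nat)
    L572
    L573
    (Nat.ble 73344 i))
   (Bool.rec (motive := fun _ => Nat)
    L574
    L575
    (Nat.ble 73600 i))
   (Nat.ble 73472 i))
  (Nat.ble 73216 i))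
 (Nat.ble 72704 i))

/-- choice of a leaf -/
noncomputable def A0_36 (i : Nat) : Nat :=
 (Bool.rec (motive := fun _ => Nat)
 (Bool.rec (motive := fun _ => Nat)
  (Bool.rec (motive := fun _ => Nat)
   (Bool.rec (motive := fun _ => Nat)
    L576
    L577
    (Nat.ble 73856 i))
   (Bool.rec (motive := fun _ => Nat)
    L578
    L579
    (Nat.ble 74112 i))
   (Nat.ble 73984 i))
  (Bool.rec (motive := fun _ => Nat)
   (Bool.rec (motive := fun _ => Nat)
    L580
    L581
    (Nat.ble 74368 i))
   (Bool.rec (motive := fun _ => Nat)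
    L582
    L583
    (Nat.ble 74624 i))
   (Nat.ble 74496 i))
  (Nat.ble 74240 i))
 (Bool.rec (motive := fun _ => Nat)
  (Bool.rec (motive := fun _ => Nat)
   (Bool.rec (motive := fun _ => Nat)
    L584
    L585
    (Nat.ble 74880 i))
   (Bool.rec (motive := fun _ => Nat)
    L586
    L587
    (Nat.ble 75136 i))
   (Nat.ble 75008 i))
  (Bool.rec (motive := fun _ => Nat)
   (Bool.rec (motive := fun _ => Nat)
    L588
    L589
    (Nat.ble 75392 i))
   (Bool.rec (motive := fun _ => Nat)
    L590
    L591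
    (Nat.ble 75648 i))
   (Nat.ble 75520 i))
  (Nat.ble 75264 i))
 (Nat.ble 74752 i))

/-- choice of a leaf -/
noncomputable def A0_37 (i : Nat) : Nat :=
 (Bool.rec (motive := fun _ => Nat)
 (Bool.rec (motive := fun _ => Nat)
  (Bool.rec (motive := fun _ => Nat)
   (Bool.rec (motive := fun _ => Nat)
    L592
    L593
    (Nat.ble 75904 i))
   (Bool.rec (motive := fun _ => Nat)
    L594
    L595
    (Nat.ble 76160 i))
   (Nat.ble 76032 i))
  (Bool.rec (motive := fun _ => Nat)
   (Bool.rec (motive := fun _ => Nat)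
    L596
    L597
    (Nat.ble 76416 i))
   (Bool.rec (motive := fun _ => Nat)
    L598
    L599
    (Nat.ble 76672 i))
   (Nat.ble 76544 i))
  (Nat.ble 76288 i))
 (Bool.rec (motive := fun _ => Nat)
  (Bool.rec (motive := fun _ => Nat)
   (Bool.rec (motive := fun _ => Nat)
    L600
    L601
    (Nat.ble 76928 i))
   (Bool.rec (motive := fun _ => Nat)
    L602
    L603
    (Nat.ble 77184 i))
   (Nat.ble 77056 i))
  (Bool.rec (motive := fun _ => Nat)
   (Bool.rec (motive := fun _ => Nat)
    L604
    L605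
    (Nat.ble 77440 i))
   (Bool.rec (motive := fun _ => Nat)
    L606
    L607
    (Nat.ble 77696 i))
   (Nat.ble 77568 i))
  (Nat.ble 77312 i))
 (Nat.ble 76800 i))

/-- choice of a leaf -/
noncomputable def A0_38 (i : Nat) : Nat :=
 (Bool.rec (motive := fun _ => Nat)
 (Bool.rec (motive := fun _ => Nat)
  (Bool.rec (motive := fun _ => Nat)
   (Bool.rec (motive := fun _ => Nat)
    L608
    L609
    (Nat.ble 77952 i))
   (Bool.rec (motive := fun _ => Nat)
    L610
    L611
    (Nat.ble 78208 i))
   (Nat.ble 78080 i))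
  (Bool.rec (motive := fun _ => Nat)
   (Bool.rec (motive := fun _ => Nat)
    L612
    L613
    (Nat.ble 78464 i))
   (Bool.rec (motive := fun _ => Nat)
    L614
    L615
    (Nat.ble 78720 i))
   (Nat.ble 78592 i))
  (Nat.ble 78336 i))
 (Bool.rec (motive := fun _ => Nat)
  (Bool.rec (motive := fun _ => Nat)
   (Bool.rec (motive := fun _ => Nat)
    L616
    L617
    (Nat.ble 78976 i))
   (Bool.rec (motive := fun _ => Nat)
    L618
    L619
    (Nat.ble 79232 i))
   (Nat.ble 79104 i))
  (Bool.rec (motive := fun _ => Nat)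
   (Bool.rec (motive := fun _ => Nat)
    L620
    L621
    (Nat.ble 79488 i))
   (Bool.rec (motive := fun _ => Nat)
    L622
    L623
    (Nat.ble 79744 i))
   (Nat.ble 79616 i))
  (Nat.ble 79360 i))
 (Nat.ble 78848 i))

/-- choice of a leaf -/
noncomputable def A0_39 (i : Nat) : Nat :=
 (Bool.rec (motive := fun _ => Nat)
 (Bool.rec (motive := fun _ => Nat)
  (Bool.rec (motive := fun _ => Nat)
   (Bool.rec (motive := fun _ => Nat)
    L624
    L625
    (Nat.ble 80000 i))
   (Bool.rec (motive := fun _ => Nat)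
    L626
    L627
    (Nat.ble 80256 i))
   (Nat.ble 80128 i))
  (Bool.rec (motive := fun _ => Nat)
   (Bool.rec (motive := fun _ => Nat)
    L628
    L629
    (Nat.ble 80512 i))
   (Bool.rec (motive := fun _ => Nat)
    L630
    L631
    (Nat.ble 80768 i))
   (Nat.ble 80640 i))
  (Nat.ble 80384 i))
 (Bool.rec (motive := fun _ => Nat)
  (Bool.rec (motive := fun _ => Nat)
   (Bool.rec (motive := fun _ => Nat)
    L632
    L633
    (Nat.ble 81024 i))
   (Bool.rec (motive := fun _ => Nat)
    L634
    L635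
    (Nat.ble 81280 i))
   (Nat.ble 81152 i))
  (Bool.rec (motive := fun _ => Nat)
   (Bool.rec (motive := fun _ => Nat)
    L636
    L637
    (Nat.ble 81536 i))
   (Bool.rec (motive := fun _ => Nat)
    L638
    L639
    (Nat.ble 81792 i))
   (Nat.ble 81664 i))
  (Nat.ble 81408 i))
 (Nat.ble 80896 i))

/-- choice of a leaf -/
noncomputable def A0_40 (i : Nat) : Nat :=
 (Bool.rec (motive := fun _ => Nat)
 (Bool.rec (motive := fun _ => Nat)
  (Bool.rec (motive := fun _ => Nat)
   (Bool.rec (motive := fun _ => Nat)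
    L640
    L641
    (Nat.ble 82048 i))
   (Bool.rec (motive := fun _ => Nat)
    L642
    L643
    (Nat.ble 82304 i))
   (Nat.ble 82176 i))
  (Bool.rec (motive := fun _ => Nat)
   (Bool.rec (motive := fun _ => Nat)
    L644
    L645
    (Nat.ble 82560 i))
   (Bool.rec (motive := fun _ => Nat)
    L646
    L647
    (Nat.ble 82816 i))
   (Nat.ble 82688 i))
  (Nat.ble 82432 i))
 (Bool.rec (motive := fun _ => Nat)
  (Bool.rec (motive := fun _ => Nat)
   (Bool.rec (motive := fun _ => Nat)
    L648
    L649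
    (Nat.ble 83072 i))
   (Bool.rec (motive := fun _ => Nat)
    L650
    L651
    (Nat.ble 83328 i))
   (Nat.ble 83200 i))
  (Bool.rec (motive := fun _ => Nat)
   (Bool.rec (motive := fun _ => Nat)
    L652
    L653
    (Nat.ble 83584 i))
   (Bool.rec (motive := fun _ => Nat)
    L654
    L655
    (Nat.ble 83840 i))
   (Nat.ble 83712 i))
  (Nat.ble 83456 i))
 (Nat.ble 82944 i))

/-- choice of a leaf -/
noncomputable def A0_41 (i : Nat) : Nat :=
 (Bool.rec (motive := fun _ => Nat)
 (Bool.rec (motive := fun _ => Nat)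
  (Bool.rec (motive := fun _ => Nat)
   (Bool.rec (motive := fun _ => Nat)
    L656
    L657
    (Nat.ble 84096 i))
   (Bool.rec (motive := fun _ => Nat)
    L658
    L659
    (Nat.ble 84352 i))
   (Nat.ble 84224 i))
  (Bool.rec (motive := fun _ => Nat)
   (Bool.rec (motive := fun _ => Nat)
    L660
    L661
    (Nat.ble 84608 i))
   (Bool.rec (motive := fun _ => Nat)
    L662
    L663
    (Nat.ble 84864 i))
   (Nat.ble 84736 i))
  (Nat.ble 84480 i))
 (Bool.rec (motive := fun _ => Nat)
  (Bool.rec (motive := fun _ => Nat)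
   (Bool.rec (motive := fun _ => Nat)
    L664
    L665
    (Nat.ble 85120 i))
   (Bool.rec (motive := fun _ => Nat)
    L666
    L667
    (Nat.ble 85376 i))
   (Nat.ble 85248 i))
  (Bool.rec (motive := fun _ => Nat)
   (Bool.rec (motive := fun _ => Nat)
    L668
    L669
    (Nat.ble 85632 i))
   (Bool.rec (motive := fun _ => Nat)
    L670
    L671
    (Nat.ble 85888 i))
   (Nat.ble 85760 i))
  (Nat.ble 85504 i))
 (Nat.ble 84992 i))

/-- choice of a leaf -/
noncomputable def A0_42 (i : Nat) : Nat :=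
 (Bool.rec (motive := fun _ => Nat)
 (Bool.rec (motive := fun _ => Nat)
  (Bool.rec (motive := fun _ => Nat)
   (Bool.rec (motive := fun _ => Nat)
    L672
    L673
    (Nat.ble 86144 i))
   (Bool.rec (motive := fun _ => Nat)
    L674
    L675
    (Nat.ble 86400 i))
   (Nat.ble 86272 i))
  (Bool.rec (motive := fun _ => Nat)
   (Bool.rec (motive := fun _ => Nat)
    L676
    L677
    (Nat.ble 86656 i))
   (Bool.rec (motive := fun _ => Nat)
    L678
    L679
    (Nat.ble 86912 i))
   (Nat.ble 86784 i))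
  (Nat.ble 86528 i))
 (Bool.rec (motive := fun _ => Nat)
  (Bool.rec (motive := fun _ => Nat)
   (Bool.rec (motive := fun _ => Nat)
    L680
    L681
    (Nat.ble 87168 i))
   (Bool.rec (motive := fun _ => Nat)
    L682
    L683
    (Nat.ble 87424 i))
   (Nat.ble 87296 i))
  (Bool.rec (motive := fun _ => Nat)
   (Bool.rec (motive := fun _ => Nat)
    L684
    L685
    (Nat.ble 87680 i))
   (Bool.rec (motive := fun _ => Nat)
    L686
    L687
    (Nat.ble 87936 i))
   (Nat.ble 87808 i))
  (Nat.ble 87552 i))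
 (Nat.ble 87040 i))

/-- choice of a leaf -/
noncomputable def A0_43 (i : Nat) : Nat :=
 (Bool.rec (motive := fun _ => Nat)
 (Bool.rec (motive := fun _ => Nat)
  (Bool.rec (motive := fun _ => Nat)
   (Bool.rec (motive := fun _ => Nat)
    L688
    L689
    (Nat.ble 88192 i))
   (Bool.rec (motive := fun _ => Nat)
    L690
    L691
    (Nat.ble 88448 i))
   (Nat.ble 88320 i))
  (Bool.rec (motive := fun _ => Nat)
   (Bool.rec (motive := fun _ => Nat)
    L692
    L693
    (Nat.ble 88704 i))
   (Bool.rec (motive := fun _ => Nat)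
    L694
    L695
    (Nat.ble 88960 i))
   (Nat.ble 88832 i))
  (Nat.ble 88576 i))
 (Bool.rec (motive := fun _ => Nat)
  (Bool.rec (motive := fun _ => Nat)
   (Bool.rec (motive := fun _ => Nat)
    L696
    L697
    (Nat.ble 89216 i))
   (Bool.rec (motive := fun _ => Nat)
    L698
    L699
    (Nat.ble 89472 i))
   (Nat.ble 89344 i))
  (Bool.rec (motive := fun _ => Nat)
   (Bool.rec (motive := fun _ => Nat)
    L700
    L701
    (Nat.ble 89728 i))
   (Bool.rec (motive := fun _ => Nat)
    L702
    L703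
    (Nat.ble 89984 i))
   (Nat.ble 89856 i))
  (Nat.ble 89600 i))
 (Nat.ble 89088 i))

/-- choice of a leaf -/
noncomputable def A0_44 (i : Nat) : Nat :=
 (Bool.rec (motive := fun _ => Nat)
 (Bool.rec (motive := fun _ => Nat)
  (Bool.rec (motive := fun _ => Nat)
   (Bool.rec (motive := fun _ => Nat)
    L704
    L705
    (Nat.ble 90240 i))
   (Bool.rec (motive := fun _ => Nat)
    L706
    L707
    (Nat.ble 90496 i))
   (Nat.ble 90368 i))
  (Bool.rec (motive := fun _ => Nat)
   (Bool.rec (motive := fun _ => Nat)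
    L708
    L709
    (Nat.ble 90752 i))
   (Bool.rec (motive := fun _ => Nat)
    L710
    L711
    (Nat.ble 91008 i))
   (Nat.ble 90880 i))
  (Nat.ble 90624 i))
 (Bool.rec (motive := fun _ => Nat)
  (Bool.rec (motive := fun _ => Nat)
   (Bool.rec (motive := fun _ => Nat)
    L712
    L713
    (Nat.ble 91264 i))
   (Bool.rec (motive := fun _ => Nat)
    L714
    L715
    (Nat.ble 91520 i))
   (Nat.ble 91392 i))
  (Bool.rec (motive := fun _ => Nat)
   (Bool.rec (motive := fun _ => Nat)
    L716
    L717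
    (Nat.ble 91776 i))
   (Bool.rec (motive := fun _ => Nat)
    L718
    L719
    (Nat.ble 92032 i))
   (Nat.ble 91904 i))
  (Nat.ble 91648 i))
 (Nat.ble 91136 i))

/-- choice of a leaf -/
noncomputable def A0_45 (i : Nat) : Nat :=
 (Bool.rec (motive := fun _ => Nat)
 (Bool.rec (motive := fun _ => Nat)
  (Bool.rec (motive := fun _ => Nat)
   (Bool.rec (motive := fun _ => Nat)
    L720
    L721
    (Nat.ble 92288 i))
   (Bool.rec (motive := fun _ => Nat)
    L722
    L723
    (Nat.ble 92544 i))
   (Nat.ble 92416 i))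
  (Bool.rec (motive := fun _ => Nat)
   (Bool.rec (motive := fun _ => Nat)
    L724
    L725
    (Nat.ble 92800 i))
   (Bool.rec (motive := fun _ => Nat)
    L726
    L727
    (Nat.ble 93056 i))
   (Nat.ble 92928 i))
  (Nat.ble 92672 i))
 (Bool.rec (motive := fun _ => Nat)
  (Bool.rec (motive := fun _ => Nat)
   (Bool.rec (motive := fun _ => Nat)
    L728
    L729
    (Nat.ble 93312 i))
   (Bool.rec (motive := fun _ => Nat)
    L730
    L731
    (Nat.ble 93568 i))
   (Nat.ble 93440 i))
  (Bool.rec (motive := fun _ => Nat)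
   (Bool.rec (motive := fun _ => Nat)
    L732
    L733
    (Nat.ble 93824 i))
   (Bool.rec (motive := fun _ => Nat)
    L734
    L735
    (Nat.ble 94080 i))
   (Nat.ble 93952 i))
  (Nat.ble 93696 i))
 (Nat.ble 93184 i))

/-- choice of a leaf -/
noncomputable def A0_46 (i : Nat) : Nat :=
 (Bool.rec (motive := fun _ => Nat)
 (Bool.rec (motive := fun _ => Nat)
  (Bool.rec (motive := fun _ => Nat)
   (Bool.rec (motive := fun _ => Nat)
    L736
    L737
    (Nat.ble 94336 i))
   (Bool.rec (motive := fun _ => Nat)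
    L738
    L739
    (Nat.ble 94592 i))
   (Nat.ble 94464 i))
  (Bool.rec (motive := fun _ => Nat)
   (Bool.rec (motive := fun _ => Nat)
    L740
    L741
    (Nat.ble 94848 i))
   (Bool.rec (motive := fun _ => Nat)
    L742
    L743
    (Nat.ble 95104 i))
   (Nat.ble 94976 i))
  (Nat.ble 94720 i))
 (Bool.rec (motive := fun _ => Nat)
  (Bool.rec (motive := fun _ => Nat)
   (Bool.rec (motive := fun _ => Nat)
    L744
    L745
    (Nat.ble 95360 i))
   (Bool.rec (motive := fun _ => Nat)
    L746
    L747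
    (Nat.ble 95616 i))
   (Nat.ble 95488 i))
  (Bool.rec (motive := fun _ => Nat)
   (Bool.rec (motive := fun _ => Nat)
    L748
    L749
    (Nat.ble 95872 i))
   (Bool.rec (motive := fun _ => Nat)
    L750
    L751
    (Nat.ble 96128 i))
   (Nat.ble 96000 i))
  (Nat.ble 95744 i))
 (Nat.ble 95232 i))

/-- choice of a leaf -/
noncomputable def A0_47 (i : Nat) : Nat :=
 (Bool.rec (motive := fun _ => Nat)
 (Bool.rec (motive := fun _ => Nat)
  (Bool.rec (motive := fun _ => Nat)
   (Bool.rec (motive := fun _ => Nat)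
    L752
    L753
    (Nat.ble 96384 i))
   (Bool.rec (motive := fun _ => Nat)
    L754
    L755
    (Nat.ble 96640 i))
   (Nat.ble 96512 i))
  (Bool.rec (motive := fun _ => Nat)
   (Bool.rec (motive := fun _ => Nat)
    L756
    L757
    (Nat.ble 96896 i))
   (Bool.rec (motive := fun _ => Nat)
    L758
    L759
    (Nat.ble 97152 i))
   (Nat.ble 97024 i))
  (Nat.ble 96768 i))
 (Bool.rec (motive := fun _ => Nat)
  (Bool.rec (motive := fun _ => Nat)
   (Bool.rec (motive := fun _ => Nat)
    L760
    L761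
    (Nat.ble 97408 i))
   (Bool.rec (motive := fun _ => Nat)
    L762
    L763
    (Nat.ble 97664 i))
   (Nat.ble 97536 i))
  (Bool.rec (motive := fun _ => Nat)
   (Bool.rec (motive := fun _ => Nat)
    L764
    L765
    (Nat.ble 97920 i))
   (Bool.rec (motive := fun _ => Nat)
    L766
    L767
    (Nat.ble 98176 i))
   (Nat.ble 98048 i))
  (Nat.ble 97792 i))
 (Nat.ble 97280 i))

/-- choice of a leaf -/
noncomputable def A0_48 (i : Nat) : Nat :=
 (Bool.rec (motive := fun _ => Nat)
 (Bool.rec (motive := fun _ => Nat)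
  (Bool.rec (motive := fun _ => Nat)
   (Bool.rec (motive := fun _ => Nat)
    L768
    L769
    (Nat.ble 98432 i))
   (Bool.rec (motive := fun _ => Nat)
    L770
    L771
    (Nat.ble 98688 i))
   (Nat.ble 98560 i))
  (Bool.rec (motive := fun _ => Nat)
   (Bool.rec (motive := fun _ => Nat)
    L772
    L773
    (Nat.ble 98944 i))
   (Bool.rec (motive := fun _ => Nat)
    L774
    L775
    (Nat.ble 99200 i))
   (Nat.ble 99072 i))
  (Nat.ble 98816 i))
 (Bool.rec (motive := fun _ => Nat)
  (Bool.rec (motive := fun _ => Nat)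
   (Bool.rec (motive := fun _ => Nat)
    L776
    L777
    (Nat.ble 99456 i))
   (Bool.rec (motive := fun _ => Nat)
    L778
    L779
    (Nat.ble 99712 i))
   (Nat.ble 99584 i))
  (Bool.rec (motive := fun _ => Nat)
   (Bool.rec (motive := fun _ => Nat)
    L780
    L781
    (Nat.ble 99968 i))
   (Bool.rec (motive := fun _ => Nat)
    L782
    L783
    (Nat.ble 100224 i))
   (Nat.ble 100096 i))
  (Nat.ble 99840 i))
 (Nat.ble 99328 i))

/-- choice of a leaf -/
noncomputable def A0_49 (i : Nat) : Nat :=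
 (Bool.rec (motive := fun _ => Nat)
 (Bool.rec (motive := fun _ => Nat)
  (Bool.rec (motive := fun _ => Nat)
   (Bool.rec (motive := fun _ => Nat)
    L784
    L785
    (Nat.ble 100480 i))
   (Bool.rec (motive := fun _ => Nat)
    L786
    L787
    (Nat.ble 100736 i))
   (Nat.ble 100608 i))
  (Bool.rec (motive := fun _ => Nat)
   (Bool.rec (motive := fun _ => Nat)
    L788
    L789
    (Nat.ble 100992 i))
   (Bool.rec (motive := fun _ => Nat)
    L790
    L791
    (Nat.ble 101248 i))
   (Nat.ble 101120 i))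
  (Nat.ble 100864 i))
 (Bool.rec (motive := fun _ => Nat)
  (Bool.rec (motive := fun _ => Nat)
   (Bool.rec (motive := fun _ => Nat)
    L792
    L793
    (Nat.ble 101504 i))
   (Bool.rec (motive := fun _ => Nat)
    L794
    L795
    (Nat.ble 101760 i))
   (Nat.ble 101632 i))
  (Bool.rec (motive := fun _ => Nat)
   (Bool.rec (motive := fun _ => Nat)
    L796
    L797
    (Nat.ble 102016 i))
   (Bool.rec (motive := fun _ => Nat)
    L798
    L799
    (Nat.ble 102272 i))
   (Nat.ble 102144 i))
  (Nat.ble 101888 i))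
 (Nat.ble 101376 i))

/-- choice of a leaf -/
noncomputable def A0_50 (i : Nat) : Nat :=
 (Bool.rec (motive := fun _ => Nat)
 (Bool.rec (motive := fun _ => Nat)
  (Bool.rec (motive := fun _ => Nat)
   (Bool.rec (motive := fun _ => Nat)
    L800
    L801
    (Nat.ble 102528 i))
   (Bool.rec (motive := fun _ => Nat)
    L802
    L803
    (Nat.ble 102784 i))
   (Nat.ble 102656 i))
  (Bool.rec (motive := fun _ => Nat)
   (Bool.rec (motive := fun _ => Nat)
    L804
    L805
    (Nat.ble 103040 i))
   (Bool.rec (motive := fun _ => Nat)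
    L806
    L807
    (Nat.ble 103296 i))
   (Nat.ble 103168 i))
  (Nat.ble 102912 i))
 (Bool.rec (motive := fun _ => Nat)
  (Bool.rec (motive := fun _ => Nat)
   (Bool.rec (motive := fun _ => Nat)
    L808
    L809
    (Nat.ble 103552 i))
   (Bool.rec (motive := fun _ => Nat)
    L810
    L811
    (Nat.ble 103808 i))
   (Nat.ble 103680 i))
  (Bool.rec (motive := fun _ => Nat)
   (Bool.rec (motive := fun _ => Nat)
    L812
    L813
    (Nat.ble 104064 i))
   (Bool.rec (motive := fun _ => Nat)
    L814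
    L815
    (Nat.ble 104320 i))
   (Nat.ble 104192 i))
  (Nat.ble 103936 i))
 (Nat.ble 103424 i))

/-- choice of a leaf -/
noncomputable def A0_51 (i : Nat) : Nat :=
 (Bool.rec (motive := fun _ => Nat)
 (Bool.rec (motive := fun _ => Nat)
  (Bool.rec (motive := fun _ => Nat)
   (Bool.rec (motive := fun _ => Nat)
    L816
    L817
    (Nat.ble 104576 i))
   (Bool.rec (motive := fun _ => Nat)
    L818
    L819
    (Nat.ble 104832 i))
   (Nat.ble 104704 i))
  (Bool.rec (motive := fun _ => Nat)
   (Bool.rec (motive := fun _ => Nat)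
    L820
    L821
    (Nat.ble 105088 i))
   (Bool.rec (motive := fun _ => Nat)
    L822
    L823
    (Nat.ble 105344 i))
   (Nat.ble 105216 i))
  (Nat.ble 104960 i))
 (Bool.rec (motive := fun _ => Nat)
  (Bool.rec (motive := fun _ => Nat)
   (Bool.rec (motive := fun _ => Nat)
    L824
    L825
    (Nat.ble 105600 i))
   (Bool.rec (motive := fun _ => Nat)
    L826
    L827
    (Nat.ble 105856 i))
   (Nat.ble 105728 i))
  (Bool.rec (motive := fun _ => Nat)
   (Bool.rec (motive := fun _ => Nat)
    L828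
    L829
    (Nat.ble 106112 i))
   (Bool.rec (motive := fun _ => Nat)
    L830
    L831
    (Nat.ble 106368 i))
   (Nat.ble 106240 i))
  (Nat.ble 105984 i))
 (Nat.ble 105472 i))

/-- choice of a leaf -/
noncomputable def A0_52 (i : Nat) : Nat :=
 (Bool.rec (motive := fun _ => Nat)
 (Bool.rec (motive := fun _ => Nat)
  (Bool.rec (motive := fun _ => Nat)
   (Bool.rec (motive := fun _ => Nat)
    L832
    L833
    (Nat.ble 106624 i))
   (Bool.rec (motive := fun _ => Nat)
    L834
    L835
    (Nat.ble 106880 i))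
   (Nat.ble 106752 i))
  (Bool.rec (motive := fun _ => Nat)
   (Bool.rec (motive := fun _ => Nat)
    L836
    L837
    (Nat.ble 107136 i))
   (Bool.rec (motive := fun _ => Nat)
    L838
    L839
    (Nat.ble 107392 i))
   (Nat.ble 107264 i))
  (Nat.ble 107008 i))
 (Bool.rec (motive := fun _ => Nat)
  (Bool.rec (motive := fun _ => Nat)
   (Bool.rec (motive := fun _ => Nat)
    L840
    L841
    (Nat.ble 107648 i))
   (Bool.rec (motive := fun _ => Nat)
    L842
    L843
    (Nat.ble 107904 i))
   (Nat.ble 107776 i))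
  (Bool.rec (motive := fun _ => Nat)
   (Bool.rec (motive := fun _ => Nat)
    L844
    L845
    (Nat.ble 108160 i))
   (Bool.rec (motive := fun _ => Nat)
    L846
    L847
    (Nat.ble 108416 i))
   (Nat.ble 108288 i))
  (Nat.ble 108032 i))
 (Nat.ble 107520 i))

/-- choice of a leaf -/
noncomputable def A0_53 (i : Nat) : Nat :=
 (Bool.rec (motive := fun _ => Nat)
 (Bool.rec (motive := fun _ => Nat)
  (Bool.rec (motive := fun _ => Nat)
   (Bool.rec (motive := fun _ => Nat)
    L848
    L849
    (Nat.ble 108672 i))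
   (Bool.rec (motive := fun _ => Nat)
    L850
    L851
    (Nat.ble 108928 i))
   (Nat.ble 108800 i))
  (Bool.rec (motive := fun _ => Nat)
   (Bool.rec (motive := fun _ => Nat)
    L852
    L853
    (Nat.ble 109184 i))
   (Bool.rec (motive := fun _ => Nat)
    L854
    L855
    (Nat.ble 109440 i))
   (Nat.ble 109312 i))
  (Nat.ble 109056 i))
 (Bool.rec (motive := fun _ => Nat)
  (Bool.rec (motive := fun _ => Nat)
   (Bool.rec (motive := fun _ => Nat)
    L856
    L857
    (Nat.ble 109696 i))
   (Bool.rec (motive := fun _ => Nat)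
    L858
    L859
    (Nat.ble 109952 i))
   (Nat.ble 109824 i))
  (Bool.rec (motive := fun _ => Nat)
   (Bool.rec (motive := fun _ => Nat)
    L860
    L861
    (Nat.ble 110208 i))
   (Bool.rec (motive := fun _ => Nat)
    L862
    L863
    (Nat.ble 110464 i))
   (Nat.ble 110336 i))
  (Nat.ble 110080 i))
 (Nat.ble 109568 i))

/-- choice of a leaf -/
noncomputable def A0_54 (i : Nat) : Nat :=
 (Bool.rec (motive := fun _ => Nat)
 (Bool.rec (motive := fun _ => Nat)
  (Bool.rec (motive := fun _ => Nat)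
   (Bool.rec (motive := fun _ => Nat)
    L864
    L865
    (Nat.ble 110720 i))
   (Bool.rec (motive := fun _ => Nat)
    L866
    L867
    (Nat.ble 110976 i))
   (Nat.ble 110848 i))
  (Bool.rec (motive := fun _ => Nat)
   (Bool.rec (motive := fun _ => Nat)
    L868
    L869
    (Nat.ble 111232 i))
   (Bool.rec (motive := fun _ => Nat)
    L870
    L871
    (Nat.ble 111488 i))
   (Nat.ble 111360 i))
  (Nat.ble 111104 i))
 (Bool.rec (motive := fun _ => Nat)
  (Bool.rec (motive := fun _ => Nat)
   (Bool.rec (motive := fun _ => Nat)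
    L872
    L873
    (Nat.ble 111744 i))
   (Bool.rec (motive := fun _ => Nat)
    L874
    L875
    (Nat.ble 112000 i))
   (Nat.ble 111872 i))
  (Bool.rec (motive := fun _ => Nat)
   (Bool.rec (motive := fun _ => Nat)
    L876
    L877
    (Nat.ble 112256 i))
   (Bool.rec (motive := fun _ => Nat)
    L878
    L879
    (Nat.ble 112512 i))
   (Nat.ble 112384 i))
  (Nat.ble 112128 i))
 (Nat.ble 111616 i))

/-- choice of a leaf -/
noncomputable def A0_55 (i : Nat) : Nat :=
 (Bool.rec (motive := fun _ => Nat)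
 (Bool.rec (motive := fun _ => Nat)
  (Bool.rec (motive := fun _ => Nat)
   (Bool.rec (motive := fun _ => Nat)
    L880
    L881
    (Nat.ble 112768 i))
   (Bool.rec (motive := fun _ => Nat)
    L882
    L883
    (Nat.ble 113024 i))
   (Nat.ble 112896 i))
  (Bool.rec (motive := fun _ => Nat)
   (Bool.rec (motive := fun _ => Nat)
    L884
    L885
    (Nat.ble 113280 i))
   (Bool.rec (motive := fun _ => Nat)
    L886
    L887
    (Nat.ble 113536 i))
   (Nat.ble 113408 i))
  (Nat.ble 113152 i))
 (Bool.rec (motive := fun _ => Nat)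
  (Bool.rec (motive := fun _ => Nat)
   (Bool.rec (motive := fun _ => Nat)
    L888
    L889
    (Nat.ble 113792 i))
   (Bool.rec (motive := fun _ => Nat)
    L890
    L891
    (Nat.ble 114048 i))
   (Nat.ble 113920 i))
  (Bool.rec (motive := fun _ => Nat)
   (Bool.rec (motive := fun _ => Nat)
    L892
    L893
    (Nat.ble 114304 i))
   (Bool.rec (motive := fun _ => Nat)
    L894
    L895
    (Nat.ble 114560 i))
   (Nat.ble 114432 i))
  (Nat.ble 114176 i))
 (Nat.ble 113664 i))

/-- choice of a leaf -/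
noncomputable def A0_56 (i : Nat) : Nat :=
 (Bool.rec (motive := fun _ => Nat)
 (Bool.rec (motive := fun _ => Nat)
  (Bool.rec (motive := fun _ => Nat)
   (Bool.rec (motive := fun _ => Nat)
    L896
    L897
    (Nat.ble 114816 i))
   (Bool.rec (motive := fun _ => Nat)
    L898
    L899
    (Nat.ble 115072 i))
   (Nat.ble 114944 i))
  (Bool.rec (motive := fun _ => Nat)
   (Bool.rec (motive := fun _ => Nat)
    L900
    L901
    (Nat.ble 115328 i))
   (Bool.rec (motive := fun _ => Nat)
    L902
    L903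
    (Nat.ble 115584 i))
   (Nat.ble 115456 i))
  (Nat.ble 115200 i))
 (Bool.rec (motive := fun _ => Nat)
  (Bool.rec (motive := fun _ => Nat)
   (Bool.rec (motive := fun _ => Nat)
    L904
    L905
    (Nat.ble 115840 i))
   (Bool.rec (motive := fun _ => Nat)
    L906
    L907
    (Nat.ble 116096 i))
   (Nat.ble 115968 i))
  (Bool.rec (motive := fun _ => Nat)
   (Bool.rec (motive := fun _ => Nat)
    L908
    L909
    (Nat.ble 116352 i))
   (Bool.rec (motive := fun _ => Nat)
    L910
    L911
    (Nat.ble 116608 i))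
   (Nat.ble 116480 i))
  (Nat.ble 116224 i))
 (Nat.ble 115712 i))

/-- choice of a leaf -/
noncomputable def A0_57 (i : Nat) : Nat :=
 (Bool.rec (motive := fun _ => Nat)
 (Bool.rec (motive := fun _ => Nat)
  (Bool.rec (motive := fun _ => Nat)
   (Bool.rec (motive := fun _ => Nat)
    L912
    L913
    (Nat.ble 116864 i))
   (Bool.rec (motive := fun _ => Nat)
    L914
    L915
    (Nat.ble 117120 i))
   (Nat.ble 116992 i))
  (Bool.rec (motive := fun _ => Nat)
   (Bool.rec (motive := fun _ => Nat)
    L916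
    L917
    (Nat.ble 117376 i))
   (Bool.rec (motive := fun _ => Nat)
    L918
    L919
    (Nat.ble 117632 i))
   (Nat.ble 117504 i))
  (Nat.ble 117248 i))
 (Bool.rec (motive := fun _ => Nat)
  (Bool.rec (motive := fun _ => Nat)
   (Bool.rec (motive := fun _ => Nat)
    L920
    L921
    (Nat.ble 117888 i))
   (Bool.rec (motive := fun _ => Nat)
    L922
    L923
    (Nat.ble 118144 i))
   (Nat.ble 118016 i))
  (Bool.rec (motive := fun _ => Nat)
   (Bool.rec (motive := fun _ => Nat)
    L924
    L925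
    (Nat.ble 118400 i))
   (Bool.rec (motive := fun _ => Nat)
    L926
    L927
    (Nat.ble 118656 i))
   (Nat.ble 118528 i))
  (Nat.ble 118272 i))
 (Nat.ble 117760 i))

/-- choice of a leaf -/
noncomputable def A0_58 (i : Nat) : Nat :=
 (Bool.rec (motive := fun _ => Nat)
 (Bool.rec (motive := fun _ => Nat)
  (Bool.rec (motive := fun _ => Nat)
   (Bool.rec (motive := fun _ => Nat)
    L928
    L929
    (Nat.ble 118912 i))
   (Bool.rec (motive := fun _ => Nat)
    L930
    L931
    (Nat.ble 119168 i))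
   (Nat.ble 119040 i))
  (Bool.rec (motive := fun _ => Nat)
   (Bool.rec (motive := fun _ => Nat)
    L932
    L933
    (Nat.ble 119424 i))
   (Bool.rec (motive := fun _ => Nat)
    L934
    L935
    (Nat.ble 119680 i))
   (Nat.ble 119552 i))
  (Nat.ble 119296 i))
 (Bool.rec (motive := fun _ => Nat)
  (Bool.rec (motive := fun _ => Nat)
   (Bool.rec (motive := fun _ => Nat)
    L936
    L937
    (Nat.ble 119936 i))
   (Bool.rec (motive := fun _ => Nat)
    L938
    L939
    (Nat.ble 120192 i))
   (Nat.ble 120064 i))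
  (Bool.rec (motive := fun _ => Nat)
   (Bool.rec (motive := fun _ => Nat)
    L940
    L941
    (Nat.ble 120448 i))
   (Bool.rec (motive := fun _ => Nat)
    L942
    L943
    (Nat.ble 120704 i))
   (Nat.ble 120576 i))
  (Nat.ble 120320 i))
 (Nat.ble 119808 i))

/-- choice of a leaf -/
noncomputable def A0_59 (i : Nat) : Nat :=
 (Bool.rec (motive := fun _ => Nat)
 (Bool.rec (motive := fun _ => Nat)
  (Bool.rec (motive := fun _ => Nat)
   (Bool.rec (motive := fun _ => Nat)
    L944
    L945
    (Nat.ble 120960 i))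
   (Bool.rec (motive := fun _ => Nat)
    L946
    L947
    (Nat.ble 121216 i))
   (Nat.ble 121088 i))
  (Bool.rec (motive := fun _ => Nat)
   (Bool.rec (motive := fun _ => Nat)
    L948
    L949
    (Nat.ble 121472 i))
   (Bool.rec (motive := fun _ => Nat)
    L950
    L951
    (Nat.ble 121728 i))
   (Nat.ble 121600 i))
  (Nat.ble 121344 i))
 (Bool.rec (motive := fun _ => Nat)
  (Bool.rec (motive := fun _ => Nat)
   (Bool.rec (motive := fun _ => Nat)
    L952
    L953
    (Nat.ble 121984 i))
   (Bool.rec (motive := fun _ => Nat)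
    L954
    L955
    (Nat.ble 122240 i))
   (Nat.ble 122112 i))
  (Bool.rec (motive := fun _ => Nat)
   (Bool.rec (motive := fun _ => Nat)
    L956
    L957
    (Nat.ble 122496 i))
   (Bool.rec (motive := fun _ => Nat)
    L958
    L959
    (Nat.ble 122752 i))
   (Nat.ble 122624 i))
  (Nat.ble 122368 i))
 (Nat.ble 121856 i))

/-- choice of a leaf -/
noncomputable def A0_60 (i : Nat) : Nat :=
 (Bool.rec (motive := fun _ => Nat)
 (Bool.rec (motive := fun _ => Nat)
  (Bool.rec (motive := fun _ => Nat)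
   (Bool.rec (motive := fun _ => Nat)
    L960
    L961
    (Nat.ble 123008 i))
   (Bool.rec (motive := fun _ => Nat)
    L962
    L963
    (Nat.ble 123264 i))
   (Nat.ble 123136 i))
  (Bool.rec (motive := fun _ => Nat)
   (Bool.rec (motive := fun _ => Nat)
    L964
    L965
    (Nat.ble 123520 i))
   (Bool.rec (motive := fun _ => Nat)
    L966
    L967
    (Nat.ble 123776 i))
   (Nat.ble 123648 i))
  (Nat.ble 123392 i))
 (Bool.rec (motive := fun _ => Nat)
  (Bool.rec (motive := fun _ => Nat)
   (Bool.rec (motive := fun _ => Nat)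
    L968
    L969
    (Nat.ble 124032 i))
   (Bool.rec (motive := fun _ => Nat)
    L970
    L971
    (Nat.ble 124288 i))
   (Nat.ble 124160 i))
  (Bool.rec (motive := fun _ => Nat)
   (Bool.rec (motive := fun _ => Nat)
    L972
    L973
    (Nat.ble 124544 i))
   (Bool.rec (motive := fun _ => Nat)
    L974
    L975
    (Nat.ble 124800 i))
   (Nat.ble 124672 i))
  (Nat.ble 124416 i))
 (Nat.ble 123904 i))

/-- choice of a leaf -/
noncomputable def A0_61 (i : Nat) : Nat :=
 (Bool.rec (motive := fun _ => Nat)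
 (Bool.rec (motive := fun _ => Nat)
  (Bool.rec (motive := fun _ => Nat)
   (Bool.rec (motive := fun _ => Nat)
    L976
    L977
    (Nat.ble 125056 i))
   (Bool.rec (motive := fun _ => Nat)
    L978
    L979
    (Nat.ble 125312 i))
   (Nat.ble 125184 i))
  (Bool.rec (motive := fun _ => Nat)
   (Bool.rec (motive := fun _ => Nat)
    L980
    L981
    (Nat.ble 125568 i))
   (Bool.rec (motive := fun _ => Nat)
    L982
    L983
    (Nat.ble 125824 i))
   (Nat.ble 125696 i))
  (Nat.ble 125440 i))
 (Bool.rec (motive := fun _ => Nat)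
  (Bool.rec (motive := fun _ => Nat)
   (Bool.rec (motive := fun _ => Nat)
    L984
    L985
    (Nat.ble 126080 i))
   (Bool.rec (motive := fun _ => Nat)
    L986
    L987
    (Nat.ble 126336 i))
   (Nat.ble 126208 i))
  (Bool.rec (motive := fun _ => Nat)
   (Bool.rec (motive := fun _ => Nat)
    L988
    L989
    (Nat.ble 126592 i))
   (Bool.rec (motive := fun _ => Nat)
    L990
    L991
    (Nat.ble 126848 i))
   (Nat.ble 126720 i))
  (Nat.ble 126464 i))
 (Nat.ble 125952 i))

/-- choice of a leaf -/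
noncomputable def A0_62 (i : Nat) : Nat :=
 (Bool.rec (motive := fun _ => Nat)
 (Bool.rec (motive := fun _ => Nat)
  (Bool.rec (motive := fun _ => Nat)
   (Bool.rec (motive := fun _ => Nat)
    L992
    L993
    (Nat.ble 127104 i))
   (Bool.rec (motive := fun _ => Nat)
    L994
    L995
    (Nat.ble 127360 i))
   (Nat.ble 127232 i))
  (Bool.rec (motive := fun _ => Nat)
   (Bool.rec (motive := fun _ => Nat)
    L996
    L997
    (Nat.ble 127616 i))
   (Bool.rec (motive := fun _ => Nat)
    L998
    L999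
    (Nat.ble 127872 i))
   (Nat.ble 127744 i))
  (Nat.ble 127488 i))
 (Bool.rec (motive := fun _ => Nat)
  (Bool.rec (motive := fun _ => Nat)
   (Bool.rec (motive := fun _ => Nat)
    L1000
    L1001
    (Nat.ble 128128 i))
   (Bool.rec (motive := fun _ => Nat)
    L1002
    L1003
    (Nat.ble 128384 i))
   (Nat.ble 128256 i))
  (Bool.rec (motive := fun _ => Nat)
   (Bool.rec (motive := fun _ => Nat)
    L1004
    L1005
    (Nat.ble 128640 i))
   (Bool.rec (motive := fun _ => Nat)
    L1006
    L1007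
    (Nat.ble 128896 i))
   (Nat.ble 128768 i))
  (Nat.ble 128512 i))
 (Nat.ble 128000 i))

/-- choice of a leaf -/
noncomputable def A0_63 (i : Nat) : Nat :=
 (Bool.rec (motive := fun _ => Nat)
 (Bool.rec (motive := fun _ => Nat)
  (Bool.rec (motive := fun _ => Nat)
   (Bool.rec (motive := fun _ => Nat)
    L1008
    L1009
    (Nat.ble 129152 i))
   (Bool.rec (motive := fun _ => Nat)
    L1010
    L1011
    (Nat.ble 129408 i))
   (Nat.ble 129280 i))
  (Bool.rec (motive := fun _ => Nat)
   (Bool.rec (motive := fun _ => Nat)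
    L1012
    L1013
    (Nat.ble 129664 i))
   (Bool.rec (motive := fun _ => Nat)
    L1014
    L1015
    (Nat.ble 129920 i))
   (Nat.ble 129792 i))
  (Nat.ble 129536 i))
 (Bool.rec (motive := fun _ => Nat)
  (Bool.rec (motive := fun _ => Nat)
   (Bool.rec (motive := fun _ => Nat)
    L1016
    L1017
    (Nat.ble 130176 i))
   (Bool.rec (motive := fun _ => Nat)
    L1018
    L1019
    (Nat.ble 130432 i))
   (Nat.ble 130304 i))
  (Bool.rec (motive := fun _ => Nat)
   (Bool.rec (motive := fun _ => Nat)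
    L1020
    L1021
    (Nat.ble 130688 i))
   (Bool.rec (motive := fun _ => Nat)
    L1022
    L1023
    (Nat.ble 130944 i))
   (Nat.ble 130816 i))
  (Nat.ble 130560 i))
 (Nat.ble 130048 i))

/-- choice of a leaf -/
noncomputable def A0_64 (i : Nat) : Nat :=
 (Bool.rec (motive := fun _ => Nat)
 (Bool.rec (motive := fun _ => Nat)
  (Bool.rec (motive := fun _ => Nat)
   (Bool.rec (motive := fun _ => Nat)
    L1024
    L1025
    (Nat.ble 131200 i))
   (Bool.rec (motive := fun _ => Nat)
    L1026
    L1027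
    (Nat.ble 131456 i))
   (Nat.ble 131328 i))
  (Bool.rec (motive := fun _ => Nat)
   (Bool.rec (motive := fun _ => Nat)
    L1028
    L1029
    (Nat.ble 131712 i))
   (Bool.rec (motive := fun _ => Nat)
    L1030
    L1031
    (Nat.ble 131968 i))
   (Nat.ble 131840 i))
  (Nat.ble 131584 i))
 (Bool.rec (motive := fun _ => Nat)
  (Bool.rec (motive := fun _ => Nat)
   (Bool.rec (motive := fun _ => Nat)
    L1032
    L1033
    (Nat.ble 132224 i))
   (Bool.rec (motive := fun _ => Nat)
    L1034
    L1035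
    (Nat.ble 132480 i))
   (Nat.ble 132352 i))
  (Bool.rec (motive := fun _ => Nat)
   (Bool.rec (motive := fun _ => Nat)
    L1036
    L1037
    (Nat.ble 132736 i))
   (Bool.rec (motive := fun _ => Nat)
    L1038
    L1039
    (Nat.ble 132992 i))
   (Nat.ble 132864 i))
  (Nat.ble 132608 i))
 (Nat.ble 132096 i))

/-- choice of a leaf -/
noncomputable def A0_65 (i : Nat) : Nat :=
 (Bool.rec (motive := fun _ => Nat)
 (Bool.rec (motive := fun _ => Nat)
  (Bool.rec (motive := fun _ => Nat)
   (Bool.rec (motive := fun _ => Nat)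
    L1040
    L1041
    (Nat.ble 133248 i))
   (Bool.rec (motive := fun _ => Nat)
    L1042
    L1043
    (Nat.ble 133504 i))
   (Nat.ble 133376 i))
  (Bool.rec (motive := fun _ => Nat)
   (Bool.rec (motive := fun _ => Nat)
    L1044
    L1045
    (Nat.ble 133760 i))
   (Bool.rec (motive := fun _ => Nat)
    L1046
    L1047
    (Nat.ble 134016 i))
   (Nat.ble 133888 i))
  (Nat.ble 133632 i))
 (Bool.rec (motive := fun _ => Nat)
  (Bool.rec (motive := fun _ => Nat)
   (Bool.rec (motive := fun _ => Nat)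
    L1048
    L1049
    (Nat.ble 134272 i))
   (Bool.rec (motive := fun _ => Nat)
    L1050
    L1051
    (Nat.ble 134528 i))
   (Nat.ble 134400 i))
  (Bool.rec (motive := fun _ => Nat)
   (Bool.rec (motive := fun _ => Nat)
    L1052
    L1053
    (Nat.ble 134784 i))
   (Bool.rec (motive := fun _ => Nat)
    L1054
    L1055
    (Nat.ble 135040 i))
   (Nat.ble 134912 i))
  (Nat.ble 134656 i))
 (Nat.ble 134144 i))

/-- choice of a leaf -/
noncomputable def A0_66 (i : Nat) : Nat :=
 (Bool.rec (motive := fun _ => Nat)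
 (Bool.rec (motive := fun _ => Nat)
  (Bool.rec (motive := fun _ => Nat)
   (Bool.rec (motive := fun _ => Nat)
    L1056
    L1057
    (Nat.ble 135296 i))
   (Bool.rec (motive := fun _ => Nat)
    L1058
    L1059
    (Nat.ble 135552 i))
   (Nat.ble 135424 i))
  (Bool.rec (motive := fun _ => Nat)
   (Bool.rec (motive := fun _ => Nat)
    L1060
    L1061
    (Nat.ble 135808 i))
   (Bool.rec (motive := fun _ => Nat)
    L1062
    L1063
    (Nat.ble 136064 i))
   (Nat.ble 135936 i))
  (Nat.ble 135680 i))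
 (Bool.rec (motive := fun _ => Nat)
  (Bool.rec (motive := fun _ => Nat)
   (Bool.rec (motive := fun _ => Nat)
    L1064
    L1065
    (Nat.ble 136320 i))
   (Bool.rec (motive := fun _ => Nat)
    L1066
    L1067
    (Nat.ble 136576 i))
   (Nat.ble 136448 i))
  (Bool.rec (motive := fun _ => Nat)
   (Bool.rec (motive := fun _ => Nat)
    L1068
    L1069
    (Nat.ble 136832 i))
   (Bool.rec (motive := fun _ => Nat)
    L1070
    L1071
    (Nat.ble 137088 i))
   (Nat.ble 136960 i))
  (Nat.ble 136704 i))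
 (Nat.ble 136192 i))

/-- choice of a leaf -/
noncomputable def A0_67 (i : Nat) : Nat :=
 (Bool.rec (motive := fun _ => Nat)
 (Bool.rec (motive := fun _ => Nat)
  (Bool.rec (motive := fun _ => Nat)
   (Bool.rec (motive := fun _ => Nat)
    L1072
    L1073
    (Nat.ble 137344 i))
   (Bool.rec (motive := fun _ => Nat)
    L1074
    L1075
    (Nat.ble 137600 i))
   (Nat.ble 137472 i))
  (Bool.rec (motive := fun _ => Nat)
   (Bool.rec (motive := fun _ => Nat)
    L1076
    L1077
    (Nat.ble 137856 i))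
   (Bool.rec (motive := fun _ => Nat)
    L1078
    L1079
    (Nat.ble 138112 i))
   (Nat.ble 137984 i))
  (Nat.ble 137728 i))
 (Bool.rec (motive := fun _ => Nat)
  (Bool.rec (motive := fun _ => Nat)
   (Bool.rec (motive := fun _ => Nat)
    L1080
    L1081
    (Nat.ble 138368 i))
   (Bool.rec (motive := fun _ => Nat)
    L1082
    L1083
    (Nat.ble 138624 i))
   (Nat.ble 138496 i))
  (Bool.rec (motive := fun _ => Nat)
   (Bool.rec (motive := fun _ => Nat)
    L1084
    L1085
    (Nat.ble 138880 i))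
   (Bool.rec (motive := fun _ => Nat)
    L1086
    L1087
    (Nat.ble 139136 i))
   (Nat.ble 139008 i))
  (Nat.ble 138752 i))
 (Nat.ble 138240 i))

/-- choice of a leaf -/
noncomputable def A0_68 (i : Nat) : Nat :=
 (Bool.rec (motive := fun _ => Nat)
 (Bool.rec (motive := fun _ => Nat)
  (Bool.rec (motive := fun _ => Nat)
   (Bool.rec (motive := fun _ => Nat)
    L1088
    L1089
    (Nat.ble 139392 i))
   (Bool.rec (motive := fun _ => Nat)
    L1090
    L1091
    (Nat.ble 139648 i))
   (Nat.ble 139520 i))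
  (Bool.rec (motive := fun _ => Nat)
   (Bool.rec (motive := fun _ => Nat)
    L1092
    L1093
    (Nat.ble 139904 i))
   (Bool.rec (motive := fun _ => Nat)
    L1094
    L1095
    (Nat.ble 140160 i))
   (Nat.ble 140032 i))
  (Nat.ble 139776 i))
 (Bool.rec (motive := fun _ => Nat)
  (Bool.rec (motive := fun _ => Nat)
   (Bool.rec (motive := fun _ => Nat)
    L1096
    L1097
    (Nat.ble 140416 i))
   (Bool.rec (motive := fun _ => Nat)
    L1098
    L1099
    (Nat.ble 140672 i))
   (Nat.ble 140544 i))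
  (Bool.rec (motive := fun _ => Nat)
   (Bool.rec (motive := fun _ => Nat)
    L1100
    L1101
    (Nat.ble 140928 i))
   (Bool.rec (motive := fun _ => Nat)
    L1102
    L1103
    (Nat.ble 141184 i))
   (Nat.ble 141056 i))
  (Nat.ble 140800 i))
 (Nat.ble 140288 i))

/-- choice of a leaf -/
noncomputable def A0_69 (i : Nat) : Nat :=
 (Bool.rec (motive := fun _ => Nat)
 (Bool.rec (motive := fun _ => Nat)
  (Bool.rec (motive := fun _ => Nat)
   (Bool.rec (motive := fun _ => Nat)
    L1104
    L1105
    (Nat.ble 141440 i))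
   (Bool.rec (motive := fun _ => Nat)
    L1106
    L1107
    (Nat.ble 141696 i))
   (Nat.ble 141568 i))
  (Bool.rec (motive := fun _ => Nat)
   (Bool.rec (motive := fun _ => Nat)
    L1108
    L1109
    (Nat.ble 141952 i))
   (Bool.rec (motive := fun _ => Nat)
    L1110
    L1111
    (Nat.ble 142208 i))
   (Nat.ble 142080 i))
  (Nat.ble 141824 i))
 (Bool.rec (motive := fun _ => Nat)
  (Bool.rec (motive := fun _ => Nat)
   (Bool.rec (motive := fun _ => Nat)
    L1112
    L1113
    (Nat.ble 142464 i))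
   (Bool.rec (motive := fun _ => Nat)
    L1114
    L1115
    (Nat.ble 142720 i))
   (Nat.ble 142592 i))
  (Bool.rec (motive := fun _ => Nat)
   (Bool.rec (motive := fun _ => Nat)
    L1116
    L1117
    (Nat.ble 142976 i))
   (Bool.rec (motive := fun _ => Nat)
    L1118
    L1119
    (Nat.ble 143232 i))
   (Nat.ble 143104 i))
  (Nat.ble 142848 i))
 (Nat.ble 142336 i))

/-- choice of a leaf -/
noncomputable def A0_70 (i : Nat) : Nat :=
 (Bool.rec (motive := fun _ => Nat)
 (Bool.rec (motive := fun _ => Nat)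
  (Bool.rec (motive := fun _ => Nat)
   (Bool.rec (motive := fun _ => Nat)
    L1120
    L1121
    (Nat.ble 143488 i))
   (Bool.rec (motive := fun _ => Nat)
    L1122
    L1123
    (Nat.ble 143744 i))
   (Nat.ble 143616 i))
  (Bool.rec (motive := fun _ => Nat)
   (Bool.rec (motive := fun _ => Nat)
    L1124
    L1125
    (Nat.ble 144000 i))
   (Bool.rec (motive := fun _ => Nat)
    L1126
    L1127
    (Nat.ble 144256 i))
   (Nat.ble 144128 i))
  (Nat.ble 143872 i))
 (Bool.rec (motive := fun _ => Nat)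
  (Bool.rec (motive := fun _ => Nat)
   (Bool.rec (motive := fun _ => Nat)
    L1128
    L1129
    (Nat.ble 144512 i))
   (Bool.rec (motive := fun _ => Nat)
    L1130
    L1131
    (Nat.ble 144768 i))
   (Nat.ble 144640 i))
  (Bool.rec (motive := fun _ => Nat)
   (Bool.rec (motive := fun _ => Nat)
    L1132
    L1133
    (Nat.ble 145024 i))
   (Bool.rec (motive := fun _ => Nat)
    L1134
    L1135
    (Nat.ble 145280 i))
   (Nat.ble 145152 i))
  (Nat.ble 144896 i))
 (Nat.ble 144384 i))

/-- choice of a leaf -/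
noncomputable def A0_71 (i : Nat) : Nat :=
 (Bool.rec (motive := fun _ => Nat)
 (Bool.rec (motive := fun _ => Nat)
  (Bool.rec (motive := fun _ => Nat)
   (Bool.rec (motive := fun _ => Nat)
    L1136
    L1137
    (Nat.ble 145536 i))
   (Bool.rec (motive := fun _ => Nat)
    L1138
    L1139
    (Nat.ble 145792 i))
   (Nat.ble 145664 i))
  (Bool.rec (motive := fun _ => Nat)
   (Bool.rec (motive := fun _ => Nat)
    L1140
    L1141
    (Nat.ble 146048 i))
   (Bool.rec (motive := fun _ => Nat)
    L1142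
    L1143
    (Nat.ble 146304 i))
   (Nat.ble 146176 i))
  (Nat.ble 145920 i))
 (Bool.rec (motive := fun _ => Nat)
  (Bool.rec (motive := fun _ => Nat)
   (Bool.rec (motive := fun _ => Nat)
    L1144
    L1145
    (Nat.ble 146560 i))
   (Bool.rec (motive := fun _ => Nat)
    L1146
    L1147
    (Nat.ble 146816 i))
   (Nat.ble 146688 i))
  (Bool.rec (motive := fun _ => Nat)
   (Bool.rec (motive := fun _ => Nat)
    L1148
    L1149
    (Nat.ble 147072 i))
   (Bool.rec (motive := fun _ => Nat)
    L1150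
    L1151
    (Nat.ble 147328 i))
   (Nat.ble 147200 i))
  (Nat.ble 146944 i))
 (Nat.ble 146432 i))

/-- choice of a leaf -/
noncomputable def A0_72 (i : Nat) : Nat :=
 (Bool.rec (motive := fun _ => Nat)
 (Bool.rec (motive := fun _ => Nat)
  (Bool.rec (motive := fun _ => Nat)
   L1152
   L1153
   (Nat.ble 147584 i))
  (Bool.rec (motive := fun _ => Nat)
   L1154
   L1155
   (Nat.ble 147840 i))
  (Nat.ble 147712 i))
 (Bool.rec (motive := fun _ => Nat)
  (Bool.rec (motive := fun _ => Nat)
   L1156
   L1157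
   (Nat.ble 148096 i))
  L1158
  (Nat.ble 148224 i))
 (Nat.ble 147968 i))

/-- choice of a leaf -/
noncomputable def A1_0 (i : Nat) : Nat :=
 (Bool.rec (motive := fun _ => Nat)
 (Bool.rec (motive := fun _ => Nat)
  (Bool.rec (motive := fun _ => Nat)
   (Bool.rec (motive := fun _ => Nat)
    (A0_0 i)
    (A0_1 i)
    (Nat.ble 2048 i))
   (Bool.rec (motive := fun _ => Nat)
    (A0_2 i)
    (A0_3 i)
    (Nat.ble 6144 i))
   (Nat.ble 4096 i))
  (Bool.rec (motive := fun _ => Nat)
   (Bool.rec (motive := fun _ => Nat)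
    (A0_4 i)
    (A0_5 i)
    (Nat.ble 10240 i))
   (Bool.rec (motive := fun _ => Nat)
    (A0_6 i)
    (A0_7 i)
    (Nat.ble 14336 i))
   (Nat.ble 12288 i))
  (Nat.ble 8192 i))
 (Bool.rec (motive := fun _ => Nat)
  (Bool.rec (motive := fun _ => Nat)
   (Bool.rec (motive := fun _ => Nat)
    (A0_8 i)
    (A0_9 i)
    (Nat.ble 18432 i))
   (Bool.rec (motive := fun _ => Nat)
    (A0_10 i)
    (A0_11 i)
    (Nat.ble 22528 i))
   (Nat.ble 20480 i))
  (Bool.rec (motive := fun _ => Nat)
   (Bool.rec (motive := fun _ => Nat)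
    (A0_12 i)
    (A0_13 i)
    (Nat.ble 26624 i))
   (Bool.rec (motive := fun _ => Nat)
    (A0_14 i)
    (A0_15 i)
    (Nat.ble 30720 i))
   (Nat.ble 28672 i))
  (Nat.ble 24576 i))
 (Nat.ble 16384 i))

/-- choice of a leaf -/
noncomputable def A1_1 (i : Nat) : Nat :=
 (Bool.rec (motive := fun _ => Nat)
 (Bool.rec (motive := fun _ => Nat)
  (Bool.rec (motive := fun _ => Nat)
   (Bool.rec (motive := fun _ => Nat)
    (A0_16 i)
    (A0_17 i)
    (Nat.ble 34816 i))
   (Bool.rec (motive := fun _ => Nat)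
    (A0_18 i)
    (A0_19 i)
    (Nat.ble 38912 i))
   (Nat.ble 36864 i))
  (Bool.rec (motive := fun _ => Nat)
   (Bool.rec (motive := fun _ => Nat)
    (A0_20 i)
    (A0_21 i)
    (Nat.ble 43008 i))
   (Bool.rec (motive := fun _ => Nat)
    (A0_22 i)
    (A0_23 i)
    (Nat.ble 47104 i))
   (Nat.ble 45056 i))
  (Nat.ble 40960 i))
 (Bool.rec (motive := fun _ => Nat)
  (Bool.rec (motive := fun _ => Nat)
   (Bool.rec (motive := fun _ => Nat)
    (A0_24 i)
    (A0_25 i)
    (Nat.ble 51200 i))
   (Bool.rec (motive := fun _ => Nat)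
    (A0_26 i)
    (A0_27 i)
    (Nat.ble 55296 i))
   (Nat.ble 53248 i))
  (Bool.rec (motive := fun _ => Nat)
   (Bool.rec (motive := fun _ => Nat)
    (A0_28 i)
    (A0_29 i)
    (Nat.ble 59392 i))
   (Bool.rec (motive := fun _ => Nat)
    (A0_30 i)
    (A0_31 i)
    (Nat.ble 63488 i))
   (Nat.ble 61440 i))
  (Nat.ble 57344 i))
 (Nat.ble 49152 i))

/-- choice of a leaf -/
noncomputable def A1_2 (i : Nat) : Nat :=
 (Bool.rec (motive := fun _ => Nat)
 (Bool.rec (motive := fun _ => Nat)
  (Bool.rec (motive := fun _ => Nat)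
   (Bool.rec (motive := fun _ => Nat)
    (A0_32 i)
    (A0_33 i)
    (Nat.ble 67584 i))
   (Bool.rec (motive := fun _ => Nat)
    (A0_34 i)
    (A0_35 i)
    (Nat.ble 71680 i))
   (Nat.ble 69632 i))
  (Bool.rec (motive := fun _ => Nat)
   (Bool.rec (motive := fun _ => Nat)
    (A0_36 i)
    (A0_37 i)
    (Nat.ble 75776 i))
   (Bool.rec (motive := fun _ => Nat)
    (A0_38 i)
    (A0_39 i)
    (Nat.ble 79872 i))
   (Nat.ble 77824 i))
  (Nat.ble 73728 i))
 (Bool.rec (motive := fun _ => Nat)
  (Bool.rec (motive := fun _ => Nat)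
   (Bool.rec (motive := fun _ => Nat)
    (A0_40 i)
    (A0_41 i)
    (Nat.ble 83968 i))
   (Bool.rec (motive := fun _ => Nat)
    (A0_42 i)
    (A0_43 i)
    (Nat.ble 88064 i))
   (Nat.ble 86016 i))
  (Bool.rec (motive := fun _ => Nat)
   (Bool.rec (motive := fun _ => Nat)
    (A0_44 i)
    (A0_45 i)
    (Nat.ble 92160 i))
   (Bool.rec (motive := fun _ => Nat)
    (A0_46 i)
    (A0_47 i)
    (Nat.ble 96256 i))
   (Nat.ble 94208 i))
  (Nat.ble 90112 i))
 (Nat.ble 81920 i))

/-- choice of a leaf -/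
noncomputable def A1_3 (i : Nat) : Nat :=
 (Bool.rec (motive := fun _ => Nat)
 (Bool.rec (motive := fun _ => Nat)
  (Bool.rec (motive := fun _ => Nat)
   (Bool.rec (motive := fun _ => Nat)
    (A0_48 i)
    (A0_49 i)
    (Nat.ble 100352 i))
   (Bool.rec (motive := fun _ => Nat)
    (A0_50 i)
    (A0_51 i)
    (Nat.ble 104448 i))
   (Nat.ble 102400 i))
  (Bool.rec (motive := fun _ => Nat)
   (Bool.rec (motive := fun _ => Nat)
    (A0_52 i)
    (A0_53 i)
    (Nat.ble 108544 i))
   (Bool.rec (motive := fun _ => Nat)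
    (A0_54 i)
    (A0_55 i)
    (Nat.ble 112640 i))
   (Nat.ble 110592 i))
  (Nat.ble 106496 i))
 (Bool.rec (motive := fun _ => Nat)
  (Bool.rec (motive := fun _ => Nat)
   (Bool.rec (motive := fun _ => Nat)
    (A0_56 i)
    (A0_57 i)
    (Nat.ble 116736 i))
   (Bool.rec (motive := fun _ => Nat)
    (A0_58 i)
    (A0_59 i)
    (Nat.ble 120832 i))
   (Nat.ble 118784 i))
  (Bool.rec (motive := fun _ => Nat)
   (Bool.rec (motive := fun _ => Nat)
    (A0_60 i)
    (A0_61 i)
    (Nat.ble 124928 i))
   (Bool.rec (motive := fun _ => Nat)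
    (A0_62 i)
    (A0_63 i)
    (Nat.ble 129024 i))
   (Nat.ble 126976 i))
  (Nat.ble 122880 i))
 (Nat.ble 114688 i))

/-- choice of a leaf -/
noncomputable def A1_4 (i : Nat) : Nat :=
 (Bool.rec (motive := fun _ => Nat)
 (Bool.rec (motive := fun _ => Nat)
  (Bool.rec (motive := fun _ => Nat)
   (Bool.rec (motive := fun _ => Nat)
    (A0_64 i)
    (A0_65 i)
    (Nat.ble 133120 i))
   (A0_66 i)
   (Nat.ble 135168 i))
  (Bool.rec (motive := fun _ => Nat)
   (A0_67 i)
   (A0_68 i)
   (Nat.ble 139264 i))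
  (Nat.ble 137216 i))
 (Bool.rec (motive := fun _ => Nat)
  (Bool.rec (motive := fun _ => Nat)
   (A0_69 i)
   (A0_70 i)
   (Nat.ble 143360 i))
  (Bool.rec (motive := fun _ => Nat)
   (A0_71 i)
   (A0_72 i)
   (Nat.ble 147456 i))
  (Nat.ble 145408 i))
 (Nat.ble 141312 i))

/-- choice of a leaf -/
noncomputable def leaf (i : Nat) : Nat :=
 (Bool.rec (motive := fun _ => Nat)
 (Bool.rec (motive := fun _ => Nat)
  (Bool.rec (motive := fun _ => Nat)
   (A1_0 i)
   (A1_1 i)
   (Nat.ble 32768 i))
  (A1_2 i)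
  (Nat.ble 65536 i))
 (Bool.rec (motive := fun _ => Nat)
  (A1_3 i)
  (A1_4 i)
  (Nat.ble 131072 i))
 (Nat.ble 98304 i))

/-- entry number `i` -/
noncomputable def g (i : Nat) : Nat := ent (leaf i) (Nat.land i 127)

/-- the check of one entry -/
noncomputable def chk (e : Nat) : Bool := chkF false 10000 131072 53771 6750 6764 g e

end Pool.Agent.ad013a.R1
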